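import Pool.Agent.Helper29.TwinRec

/-!
Posets of size at most `ℵ₁` with a finite label system.
-/

universe u v w

namespace Pool.Agent.Helper29.FreeLat

/-- A finite label system on a poset `P`: two maps `U`, `L` from `P` to finite sets of labels
such that `p ≤ q` iff `U p` meets `L q`. -/
structure LabelSys (P : Type u) [PartialOrder P] (S : Type v) where
  U : P → Finset S
  L : P → Finset S
  le_iff : ∀ p q, p ≤ q ↔ ∃ s, s ∈ U p ∧ s ∈ L q

/-- `x → y` for pairs of finite sets of labels. -/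
def Arr {S : Type v} (x y : Finset S × Finset S) : Prop := ∃ s, s ∈ x.2 ∧ s ∈ y.1

namespace LabelSys

variable {P : Type u} [PartialOrder P] {S : Type v} (D : LabelSys P S)

/-- The labels of the elements of a set. -/
def lab (A : Set P) : Set S := {s | ∃ p ∈ A, s ∈ D.U p ∨ s ∈ D.L p}

theorem lab_mono {A B : Set P} (h : A ⊆ B) : D.lab A ⊆ D.lab B := by
  rintro s ⟨p, hp, hs⟩
  exact ⟨p, h hp, hs⟩

/-- The pair of label sets of an element. -/
def pr (p : P) : Finset S × Finset S := (D.L p, D.U p)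

/-- The element `p` realises the pair `x` over `C`. -/
structure Rz (x : Finset S × Finset S) (C : Set P) (p : P) : Prop where
  subL : x.1 ⊆ D.L p
  subU : x.2 ⊆ D.U p
  L_lab : ∀ s ∈ D.L p, s ∈ D.lab C → s ∈ x.1
  U_lab : ∀ s ∈ D.U p, s ∈ D.lab C → s ∈ x.2

theorem Rz.mono {D : LabelSys P S} {x : Finset S × Finset S} {C C' : Set P} {p : P}
    (h : D.Rz x C' p) (hC : C ⊆ C') : D.Rz x C p :=
  ⟨h.subL, h.subU, fun s hs hs' => h.L_lab s hs (D.lab_mono hC hs'),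
    fun s hs hs' => h.U_lab s hs (D.lab_mono hC hs')⟩

/-- A pair is a root if it is realised outside and over every countable set. -/
def Root (x : Finset S × Finset S) : Prop :=
  ∀ C : Set P, C.Countable → ∃ p, p ∉ C ∧ D.Rz x C p

/-- Objects: roots, the empty pair, and the pairs of elements of `P`. -/
def Good (x : Finset S × Finset S) : Prop :=
  D.Root x ∨ x = (∅, ∅) ∨ ∃ p, x = D.pr p

theorem rz_pr (C : Set P) (p : P) : D.Rz (D.pr p) C p :=
  ⟨fun _ h => h, fun _ h => h, fun _ h _ => h, fun _ h _ => h⟩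

theorem Good.realise {D : LabelSys P S} {x : Finset S × Finset S} (hx : D.Good x)
    (hne : x ≠ (∅, ∅)) {C : Set P} (hC : C.Countable) : ∃ p, D.Rz x C p := by
  rcases hx with hx | hx | ⟨p, rfl⟩
  · obtain ⟨p, _, hp⟩ := hx C hC
    exact ⟨p, hp⟩
  · exact absurd hx hne
  · exact ⟨p, D.rz_pr C p⟩

/-- All labels of the pair are labels of elements of `A`. -/
def Sub (x : Finset S × Finset S) (A : Set P) : Prop :=
  (∀ s ∈ x.1, s ∈ D.lab A) ∧ ∀ s ∈ x.2, s ∈ D.lab A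

theorem Rz.sub {D : LabelSys P S} {x : Finset S × Finset S} {C : Set P} {p : P}
    (h : D.Rz x C p) : D.Sub x {p} :=
  ⟨fun _ hs => ⟨p, rfl, Or.inr (h.subL hs)⟩, fun _ hs => ⟨p, rfl, Or.inl (h.subU hs)⟩⟩

theorem Sub.mono {D : LabelSys P S} {x : Finset S × Finset S} {A B : Set P}
    (h : D.Sub x A) (hAB : A ⊆ B) : D.Sub x B :=
  ⟨fun s hs => D.lab_mono hAB (h.1 s hs), fun s hs => D.lab_mono hAB (h.2 s hs)⟩

theorem Good.cover {D : LabelSys P S} {x : Finset S × Finset S} (hx : D.Good x) :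
    ∃ C : Set P, C.Countable ∧ D.Sub x C := by
  by_cases hne : x = (∅, ∅)
  · subst hne
    exact ⟨∅, Set.countable_empty, by simp [Sub]⟩
  · obtain ⟨p, hp⟩ := hx.realise hne Set.countable_empty
    exact ⟨{p}, Set.countable_singleton p, hp.sub⟩

theorem Arr.ne_left {x y : Finset S × Finset S} (h : Arr x y) : x ≠ (∅, ∅) := by
  rintro rfl
  obtain ⟨s, hs, _⟩ := h
  simp at hs

theorem Arr.ne_right {x y : Finset S × Finset S} (h : Arr x y) : y ≠ (∅, ∅) := by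
  rintro rfl
  obtain ⟨s, _, hs⟩ := h
  simp at hs

theorem arr_trans {x y z : Finset S × Finset S} (hx : D.Good x) (hy : D.Good y)
    (hz : D.Good z) (hxy : Arr x y) (hyz : Arr y z) : Arr x z := by
  obtain ⟨Cx, hCx, hsx⟩ := hx.cover
  obtain ⟨Cy, hCy, hsy⟩ := hy.cover
  obtain ⟨Cz, hCz, hsz⟩ := hz.cover
  have h0 : (Cx ∪ Cy ∪ Cz).Countable := (hCx.union hCy).union hCz
  obtain ⟨a, ha⟩ := hx.realise (Arr.ne_left hxy) h0
  obtain ⟨b, hb⟩ := hy.realise (Arr.ne_left hyz) (h0.insert a)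
  obtain ⟨c, hc⟩ := hz.realise (Arr.ne_right hyz) ((h0.insert a).insert b)
  have hab : a ≤ b := by
    obtain ⟨s, h1, h2⟩ := hxy
    exact (D.le_iff a b).2 ⟨s, ha.subU h1, hb.subL h2⟩
  have hbc : b ≤ c := by
    obtain ⟨s, h1, h2⟩ := hyz
    exact (D.le_iff b c).2 ⟨s, hb.subU h1, hc.subL h2⟩
  obtain ⟨s, h1, h2⟩ := (D.le_iff a c).1 (hab.trans hbc)
  have h3 : s ∈ z.1 := hc.L_lab s h2 ⟨a, by simp, Or.inl h1⟩
  have h4 : s ∈ D.lab (Cx ∪ Cy ∪ Cz) := (hsz.mono (Set.subset_union_right)).1 s h3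
  exact ⟨s, ha.U_lab s h1 h4, h3⟩

theorem Root.not_arr {D : LabelSys P S} {x : Finset S × Finset S} (hx : D.Root x) :
    ¬ Arr x x := by
  rintro ⟨s, h1, h2⟩
  obtain ⟨a, _, ha⟩ := hx ∅ Set.countable_empty
  obtain ⟨b, hb', hb⟩ := hx {a} (Set.countable_singleton a)
  have hab : a ≤ b := (D.le_iff a b).2 ⟨s, ha.subU h1, hb.subL h2⟩
  have hba : b ≤ a := (D.le_iff b a).2 ⟨s, hb.subU h1, ha.subL h2⟩
  exact hb' (le_antisymm hba hab)

theorem arr_antisymm {x y : Finset S × Finset S} (hx : D.Good x) (hy : D.Good y)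
    (hxy : Arr x y) (hyx : Arr y x) : x = y := by
  have hxx := D.arr_trans hx hy hx hxy hyx
  have hyy := D.arr_trans hy hx hy hyx hxy
  rcases hx with hx | hx | ⟨p, rfl⟩
  · exact absurd hxx hx.not_arr
  · exact absurd hx (Arr.ne_left hxy)
  · rcases hy with hy | hy | ⟨q, rfl⟩
    · exact absurd hyy hy.not_arr
    · exact absurd hy (Arr.ne_left hyx)
    · have h1 : p ≤ q := (D.le_iff p q).2 hxy
      have h2 : q ≤ p := (D.le_iff q p).2 hyx
      rw [le_antisymm h1 h2]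

/-- The semantic order of pairs. -/
def Sem (a b : Finset S × Finset S) : Prop :=
  (∀ p, (∃ s ∈ D.U p, s ∈ a.1) → ∃ s ∈ D.U p, s ∈ b.1) ∧
    ∀ p, (∃ s ∈ D.L p, s ∈ b.2) → ∃ s ∈ D.L p, s ∈ a.2

theorem Sem.arr {D : LabelSys P S} {a b z : Finset S × Finset S} (h : D.Sem a b)
    {C : Set P} (hC : C.Countable) (ha : D.Sub a C) (hz : D.Good z) (hbz : Arr b z) :
    Arr a z := by
  obtain ⟨s, h1, h2⟩ := hbz
  obtain ⟨p, hp⟩ := hz.realise (Arr.ne_right ⟨s, h1, h2⟩) hC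
  obtain ⟨t, h3, h4⟩ := h.2 p ⟨s, hp.subL h2, h1⟩
  exact ⟨t, h4, hp.L_lab t h3 (ha.2 t h4)⟩

theorem Arr.sem {D : LabelSys P S} {a b : Finset S × Finset S} (ha : D.Good a)
    (hb : D.Good b) (h : Arr a b) : D.Sem a b := by
  constructor
  · rintro p ⟨s, h1, h2⟩
    obtain ⟨t, h3, h4⟩ := D.arr_trans (Or.inr (Or.inr ⟨p, rfl⟩)) ha hb
      (x := D.pr p) ⟨s, h1, h2⟩ h
    exact ⟨t, h3, h4⟩
  · rintro p ⟨s, h1, h2⟩
    obtain ⟨t, h3, h4⟩ := D.arr_trans ha hb (Or.inr (Or.inr ⟨p, rfl⟩))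
      (z := D.pr p) h ⟨s, h2, h1⟩
    exact ⟨t, h4, h3⟩

/-- Closed sets of elements. -/
structure Closed (A : Set P) : Prop where
  c1 : A.Nonempty → ∀ x : Finset S × Finset S, D.Sub x A → ∀ p, p ∉ A → D.Rz x A p →
    D.Root x
  c2 : ∀ x : Finset S × Finset S, D.Sub x A →
    (∃ p, (∃ s ∈ D.U p, s ∈ x.1) ∧ ∀ s ∈ D.U p, s ∉ x.2) →
      ∃ p ∈ A, (∃ s ∈ D.U p, s ∈ x.1) ∧ ∀ s ∈ D.U p, s ∉ x.2
  c3 : ∀ x : Finset S × Finset S, D.Sub x A →
    (∃ p, (∃ s ∈ D.L p, s ∈ x.1) ∧ ∀ s ∈ D.L p, s ∉ x.2) →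
      ∃ p ∈ A, (∃ s ∈ D.L p, s ∈ x.1) ∧ ∀ s ∈ D.L p, s ∉ x.2

open Classical in
/-- Restriction of a pair to the labels of `A`. -/
noncomputable def restr (x : Finset S × Finset S) (A : Set P) : Finset S × Finset S :=
  (x.1.filter (· ∈ D.lab A), x.2.filter (· ∈ D.lab A))

theorem mem_restr_fst {x : Finset S × Finset S} {A : Set P} {s : S} :
    s ∈ (D.restr x A).1 ↔ s ∈ x.1 ∧ s ∈ D.lab A := by
  simp [restr]

theorem mem_restr_snd {x : Finset S × Finset S} {A : Set P} {s : S} :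
    s ∈ (D.restr x A).2 ↔ s ∈ x.2 ∧ s ∈ D.lab A := by
  simp [restr]

theorem restr_sub (x : Finset S × Finset S) (A : Set P) : D.Sub (D.restr x A) A :=
  ⟨fun _ hs => (D.mem_restr_fst.1 hs).2, fun _ hs => (D.mem_restr_snd.1 hs).2⟩

theorem ext_pair {x y : Finset S × Finset S} (h1 : ∀ s, s ∈ x.1 ↔ s ∈ y.1)
    (h2 : ∀ s, s ∈ x.2 ↔ s ∈ y.2) : x = y :=
  Prod.ext (Finset.ext h1) (Finset.ext h2)

theorem restr_eq_self {x : Finset S × Finset S} {A : Set P} (h : D.Sub x A) :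
    D.restr x A = x :=
  ext_pair (fun s => by rw [mem_restr_fst]; exact ⟨fun h => h.1, fun h' => ⟨h', h.1 s h'⟩⟩)
    (fun s => by rw [mem_restr_snd]; exact ⟨fun h => h.1, fun h' => ⟨h', h.2 s h'⟩⟩)

theorem restr_restr {x : Finset S × Finset S} {A B : Set P} (h : B ⊆ A) :
    D.restr (D.restr x A) B = D.restr x B :=
  ext_pair
    (fun s => by
      rw [mem_restr_fst, mem_restr_fst, mem_restr_fst]
      exact ⟨fun h1 => ⟨h1.1.1, h1.2⟩, fun h1 => ⟨⟨h1.1, D.lab_mono h h1.2⟩, h1.2⟩⟩)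
    (fun s => by
      rw [mem_restr_snd, mem_restr_snd, mem_restr_snd]
      exact ⟨fun h1 => ⟨h1.1.1, h1.2⟩, fun h1 => ⟨⟨h1.1, D.lab_mono h h1.2⟩, h1.2⟩⟩)

theorem root_restr {x : Finset S × Finset S} {A : Set P} (hA : D.Closed A)
    (hc : A.Countable) (hx : D.Good x) (hs : ¬ D.Sub x A) :
    D.Root (D.restr x A) ∨ D.restr x A = (∅, ∅) := by
  rcases A.eq_empty_or_nonempty with rfl | hne
  · right
    refine ext_pair (fun s => ?_) (fun s => ?_)
    · rw [mem_restr_fst]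
      simp [lab]
    · rw [mem_restr_snd]
      simp [lab]
  · left
    have key : ∀ p, p ∉ A → D.Rz x A p → D.Root (D.restr x A) := by
      intro p hp hr
      refine hA.c1 hne _ (D.restr_sub x A) p hp ⟨?_, ?_, ?_, ?_⟩
      · intro s hs
        exact hr.subL (D.mem_restr_fst.1 hs).1
      · intro s hs
        exact hr.subU (D.mem_restr_snd.1 hs).1
      · intro s h1 h2
        exact D.mem_restr_fst.2 ⟨hr.L_lab s h1 h2, h2⟩
      · intro s h1 h2
        exact D.mem_restr_snd.2 ⟨hr.U_lab s h1 h2, h2⟩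
    rcases hx with hx | hx | ⟨p, rfl⟩
    · obtain ⟨p, hp, hr⟩ := hx A hc
      exact key p hp hr
    · exact absurd (by subst hx; simp [Sub]) hs
    · by_cases hp : p ∈ A
      · exact absurd ⟨fun s h => ⟨p, hp, Or.inr h⟩, fun s h => ⟨p, hp, Or.inl h⟩⟩ hs
      · exact key p hp (D.rz_pr A p)

theorem good_restr {x : Finset S × Finset S} {A : Set P} (hA : D.Closed A)
    (hc : A.Countable) (hx : D.Good x) : D.Good (D.restr x A) := by
  by_cases hs : D.Sub x A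
  · rw [D.restr_eq_self hs]
    exact hx
  · rcases D.root_restr hA hc hx hs with h | h
    · exact Or.inl h
    · exact Or.inr (Or.inl h)

theorem Sem.restr {D : LabelSys P S} {a b : Finset S × Finset S} (h : D.Sem a b)
    {A : Set P} (hA : D.Closed A) : D.Sem (D.restr a A) (D.restr b A) := by
  constructor
  · intro p hp
    by_contra hcon
    obtain ⟨q, hq, ⟨s, h1, h2⟩, h3⟩ := hA.c2 ((D.restr a A).1, (D.restr b A).1)
      ⟨(D.restr_sub a A).1, (D.restr_sub b A).1⟩ ⟨p, hp, fun s h1 h2 => hcon ⟨s, h1, h2⟩⟩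
    obtain ⟨t, h4, h5⟩ := h.1 q ⟨s, h1, (D.mem_restr_fst.1 h2).1⟩
    exact h3 t h4 (D.mem_restr_fst.2 ⟨h5, q, hq, Or.inl h4⟩)
  · intro p hp
    by_contra hcon
    obtain ⟨q, hq, ⟨s, h1, h2⟩, h3⟩ := hA.c3 ((D.restr b A).2, (D.restr a A).2)
      ⟨(D.restr_sub b A).2, (D.restr_sub a A).2⟩ ⟨p, hp, fun s h1 h2 => hcon ⟨s, h1, h2⟩⟩
    obtain ⟨t, h4, h5⟩ := h.2 q ⟨s, h1, (D.mem_restr_snd.1 h2).1⟩
    exact h3 t h4 (D.mem_restr_snd.2 ⟨h5, q, hq, Or.inr h4⟩)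

end LabelSys

end Pool.Agent.Helper29.FreeLat
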