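import Pool.Agent.Helper29.AlephOne

/-!
Closures of countable sets, filtrations of posets of size at most `ℵ₁`, and the embedding
theorem.
-/

universe u v w

namespace Pool.Agent.Helper29.FreeLat

namespace LabelSys

variable {P : Type u} [PartialOrder P] {S : Type v} (D : LabelSys P S)

/-- Witness function for closedness. -/
structure Wit (g : Finset S × Finset S → Set P) : Prop where
  ctbl : ∀ x, (g x).Countable
  w1 : ∀ x, ¬ D.Root x → ∀ p, p ∉ g x → ¬ D.Rz x (g x) p
  w2 : ∀ x : Finset S × Finset S, (∃ p, (∃ s ∈ D.U p, s ∈ x.1) ∧ ∀ s ∈ D.U p, s ∉ x.2) →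
    ∃ p ∈ g x, (∃ s ∈ D.U p, s ∈ x.1) ∧ ∀ s ∈ D.U p, s ∉ x.2
  w3 : ∀ x : Finset S × Finset S, (∃ p, (∃ s ∈ D.L p, s ∈ x.1) ∧ ∀ s ∈ D.L p, s ∉ x.2) →
    ∃ p ∈ g x, (∃ s ∈ D.L p, s ∈ x.1) ∧ ∀ s ∈ D.L p, s ∉ x.2

theorem exists_wit : ∃ g, D.Wit g := by
  have h1 : ∀ x, ∃ C : Set P, C.Countable ∧ (¬ D.Root x → ∀ p, p ∉ C → ¬ D.Rz x C p) := by
    intro x
    by_cases hx : D.Root x
    · exact ⟨∅, Set.countable_empty, fun h => absurd hx h⟩
    · unfold Root at hx
      push Not at hx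
      obtain ⟨C, hC, h⟩ := hx
      exact ⟨C, hC, fun _ => h⟩
  have h2 : ∀ x : Finset S × Finset S, ∃ C : Set P, C.Countable ∧
      ((∃ p, (∃ s ∈ D.U p, s ∈ x.1) ∧ ∀ s ∈ D.U p, s ∉ x.2) →
        ∃ p ∈ C, (∃ s ∈ D.U p, s ∈ x.1) ∧ ∀ s ∈ D.U p, s ∉ x.2) := by
    intro x
    by_cases hx : ∃ p, (∃ s ∈ D.U p, s ∈ x.1) ∧ ∀ s ∈ D.U p, s ∉ x.2
    · obtain ⟨p, hp⟩ := hx
      exact ⟨{p}, Set.countable_singleton p, fun _ => ⟨p, rfl, hp⟩⟩
    · exact ⟨∅, Set.countable_empty, fun h => absurd h hx⟩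
  have h3 : ∀ x : Finset S × Finset S, ∃ C : Set P, C.Countable ∧
      ((∃ p, (∃ s ∈ D.L p, s ∈ x.1) ∧ ∀ s ∈ D.L p, s ∉ x.2) →
        ∃ p ∈ C, (∃ s ∈ D.L p, s ∈ x.1) ∧ ∀ s ∈ D.L p, s ∉ x.2) := by
    intro x
    by_cases hx : ∃ p, (∃ s ∈ D.L p, s ∈ x.1) ∧ ∀ s ∈ D.L p, s ∉ x.2
    · obtain ⟨p, hp⟩ := hx
      exact ⟨{p}, Set.countable_singleton p, fun _ => ⟨p, rfl, hp⟩⟩
    · exact ⟨∅, Set.countable_empty, fun h => absurd h hx⟩
  choose C1 hC1 hC1' using h1
  choose C2 hC2 hC2' using h2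
  choose C3 hC3 hC3' using h3
  refine ⟨fun x => C1 x ∪ C2 x ∪ C3 x, fun x => ((hC1 x).union (hC2 x)).union (hC3 x),
    ?_, ?_, ?_⟩
  · intro x hx p hp hr
    refine hC1' x hx p (fun h => hp (Or.inl (Or.inl h))) (hr.mono fun y hy => ?_)
    exact Or.inl (Or.inl hy)
  · intro x hx
    obtain ⟨p, hp, h⟩ := hC2' x hx
    exact ⟨p, Or.inl (Or.inr hp), h⟩
  · intro x hx
    obtain ⟨p, hp, h⟩ := hC3' x hx
    exact ⟨p, Or.inr hp, h⟩

theorem closed_of_wit {g : Finset S × Finset S → Set P} (hg : D.Wit g) {A : Set P}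
    (h : ∀ x, D.Sub x A → A.Nonempty → g x ⊆ A) : D.Closed A := by
  refine ⟨?_, ?_, ?_⟩
  · intro hne x hx p hp hr
    by_contra hcon
    exact hg.w1 x hcon p (fun h' => hp (h x hx hne h')) (hr.mono (h x hx hne))
  · intro x hx hex
    have hne : A.Nonempty := by
      obtain ⟨p, ⟨s, _, hs⟩, _⟩ := hex
      obtain ⟨q, hq, _⟩ := hx.1 s hs
      exact ⟨q, hq⟩
    obtain ⟨p, hp, h'⟩ := hg.w2 x hex
    exact ⟨p, h x hx hne hp, h'⟩
  · intro x hx hex
    have hne : A.Nonempty := by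
      obtain ⟨p, ⟨s, _, hs⟩, _⟩ := hex
      obtain ⟨q, hq, _⟩ := hx.1 s hs
      exact ⟨q, hq⟩
    obtain ⟨p, hp, h'⟩ := hg.w3 x hex
    exact ⟨p, h x hx hne hp, h'⟩

theorem lab_countable {A : Set P} (hA : A.Countable) : (D.lab A).Countable := by
  have : D.lab A = ⋃ p ∈ A, ((D.U p : Set S) ∪ (D.L p : Set S)) := by
    ext s
    simp [lab]
  rw [this]
  exact hA.biUnion fun p _ => ((D.U p).countable_toSet.union (D.L p).countable_toSet)

theorem countable_sub {A : Set P} (hA : A.Countable) :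
    {x : Finset S × Finset S | D.Sub x A}.Countable := by
  have h1 : {J : Finset S | ∀ s ∈ J, s ∈ D.lab A}.Countable := by
    have hc := D.lab_countable hA
    have : Countable (D.lab A) := hc.to_subtype
    refine (Set.countable_range fun t : Finset (D.lab A) =>
      t.map (Function.Embedding.subtype _)).mono ?_
    intro J hJ
    rw [Set.mem_ofPred_eq] at hJ
    classical
    refine ⟨J.subtype (· ∈ D.lab A), ?_⟩
    ext s
    simp only [Finset.mem_map, Finset.mem_subtype, Function.Embedding.coe_subtype,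
      Subtype.exists, exists_and_left, exists_prop]
    constructor
    · rintro ⟨t, ht, _, rfl⟩
      exact ht
    · intro hs
      exact ⟨s, hs, hJ s hs, rfl⟩
  refine (h1.prod h1).mono ?_
  rintro ⟨J, K⟩ h
  rw [Set.mem_ofPred_eq] at h
  exact ⟨Set.mem_ofPred.2 h.1, Set.mem_ofPred.2 h.2⟩

/-- One step of the closure. -/
def step (g : Finset S × Finset S → Set P) (A : Set P) : Set P :=
  A ∪ ⋃ x ∈ {x : Finset S × Finset S | D.Sub x A}, g x

/-- Iterated closure steps. -/
def steps (g : Finset S × Finset S → Set P) (A : Set P) : ℕ → Set P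
  | 0 => A
  | n + 1 => D.step g (steps g A n)

/-- Closure of a set. -/
def clos (g : Finset S × Finset S → Set P) (A : Set P) : Set P := ⋃ n, D.steps g A n

theorem step_mono (g : Finset S × Finset S → Set P) {A B : Set P} (h : A ⊆ B) :
    D.step g A ⊆ D.step g B := by
  refine Set.union_subset_union h ?_
  intro p hp
  obtain ⟨x, hx, hp⟩ := Set.mem_iUnion₂.1 hp
  exact Set.mem_iUnion₂.2 ⟨x, Set.mem_ofPred.2 ((Set.mem_ofPred.1 hx).mono h), hp⟩

theorem clos_mono (g : Finset S × Finset S → Set P) {A B : Set P} (h : A ⊆ B) :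
    D.clos g A ⊆ D.clos g B := by
  have : ∀ n, D.steps g A n ⊆ D.steps g B n := by
    intro n
    induction n with
    | zero => exact h
    | succ n ih => exact D.step_mono g ih
  exact Set.iUnion_mono this

theorem subset_clos (g : Finset S × Finset S → Set P) (A : Set P) : A ⊆ D.clos g A :=
  fun _ hp => Set.mem_iUnion.2 ⟨0, hp⟩

theorem steps_mono (g : Finset S × Finset S → Set P) (A : Set P) :
    Monotone (D.steps g A) :=
  monotone_nat_of_le_succ fun _ _ hp => Or.inl hp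

theorem clos_countable {g : Finset S × Finset S → Set P} (hg : D.Wit g) {A : Set P}
    (hA : A.Countable) : (D.clos g A).Countable := by
  refine Set.countable_iUnion fun n => ?_
  induction n with
  | zero => exact hA
  | succ n ih => exact ih.union ((D.countable_sub ih).biUnion fun x _ => hg.ctbl x)

/-- A pair with labels in the union of a directed family has its labels in a member. -/
theorem sub_iUnion {ι : Type w} [Nonempty ι] {M : ι → Set P}
    (hM : ∀ i j, ∃ k, M i ⊆ M k ∧ M j ⊆ M k) {x : Finset S × Finset S}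
    (h : D.Sub x (⋃ i, M i)) : ∃ i, D.Sub x (M i) := by
  classical
  have key : ∀ J : Finset S, (∀ s ∈ J, s ∈ D.lab (⋃ i, M i)) →
      ∃ i, ∀ s ∈ J, s ∈ D.lab (M i) := by
    intro J
    induction J using Finset.induction_on with
    | empty => exact fun _ => ⟨Classical.arbitrary ι, by simp⟩
    | insert a J _ ih =>
      intro hJ
      obtain ⟨i, hi⟩ := ih fun s hs => hJ s (Finset.mem_insert_of_mem hs)
      obtain ⟨p, hp, hps⟩ := hJ a (Finset.mem_insert_self a J)
      obtain ⟨j, hj⟩ := Set.mem_iUnion.1 hp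
      obtain ⟨k, hik, hjk⟩ := hM i j
      refine ⟨k, fun s hs => ?_⟩
      rcases Finset.mem_insert.1 hs with rfl | hs
      · exact ⟨p, hjk hj, hps⟩
      · exact D.lab_mono hik (hi s hs)
  obtain ⟨i, hi⟩ := key x.1 h.1
  obtain ⟨j, hj⟩ := key x.2 h.2
  obtain ⟨k, hik, hjk⟩ := hM i j
  exact ⟨k, fun s hs => D.lab_mono hik (hi s hs), fun s hs => D.lab_mono hjk (hj s hs)⟩

theorem clos_wit {g : Finset S × Finset S → Set P} {A : Set P} (x : Finset S × Finset S)
    (hx : D.Sub x (D.clos g A)) : g x ⊆ D.clos g A := by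
  obtain ⟨n, hn⟩ := D.sub_iUnion (M := D.steps g A) (fun i j => ⟨max i j,
    D.steps_mono g A (le_max_left i j), D.steps_mono g A (le_max_right i j)⟩) hx
  intro p hp
  exact Set.mem_iUnion.2 ⟨n + 1, Or.inr (Set.mem_iUnion₂.2 ⟨x, Set.mem_ofPred.2 hn, hp⟩)⟩

/-- A filtration of `P` by countable closed sets. -/
structure Filt (r : P → P → Prop) (M : P → Set P) : Prop where
  wo : IsWellOrder P r
  self : ∀ i, i ∈ M i
  ctbl : ∀ i, (M i).Countable
  mono : ∀ i j, r i j → M i ⊆ M j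
  closed : ∀ i, D.Closed (M i)
  closed_lt : ∀ i, D.Closed (⋃ j : {j // r j i}, M j)
  ctbl_lt : ∀ i, (⋃ j : {j // r j i}, M j).Countable

theorem exists_filt (hP : Cardinal.mk P ≤ Cardinal.aleph 1) : ∃ r M, D.Filt r M := by
  obtain ⟨g, hg⟩ := D.exists_wit
  obtain ⟨r, wo, hr⟩ := Cardinal.exists_ord_eq P
  have hseg : ∀ i, {j | r j i}.Countable := by
    intro i
    have h1 : (Ordinal.typein r i).card < Cardinal.mk P := Cardinal.card_typein_lt i hr
    have h2 : (Ordinal.typein r i).card < Cardinal.aleph 1 := h1.trans_le hP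
    have h3 : Cardinal.mk {j | r j i} ≤ Cardinal.aleph0 := by
      have h4 : (Ordinal.typein r i).card = Cardinal.mk {j | r j i} := rfl
      rw [← h4]
      exact Cardinal.lt_aleph_one_iff.1 h2
    exact Cardinal.le_aleph0_iff_set_countable.1 h3
  have hseg' : ∀ i, {j | r j i ∨ j = i}.Countable := by
    intro i
    exact ((hseg i).union (Set.countable_singleton i)).mono (fun j hj => by
      rw [Set.mem_ofPred_eq] at hj
      rcases hj with h | h
      · exact Or.inl (Set.mem_ofPred.2 h)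
      · exact Or.inr h)
  have hmono : ∀ i j, r i j → D.clos g {k | r k i ∨ k = i} ⊆ D.clos g {k | r k j ∨ k = j} := by
    intro i j hij
    refine D.clos_mono g ?_
    intro k hk
    rw [Set.mem_ofPred_eq] at hk ⊢
    rcases hk with h | h
    · exact Or.inl (_root_.trans h hij)
    · exact Or.inl (h ▸ hij)
  refine ⟨r, fun i => D.clos g {j | r j i ∨ j = i}, wo, ?_, ?_, ?_, ?_, ?_, ?_⟩
  · intro i
    exact D.subset_clos g _ (Set.mem_ofPred.2 (Or.inr rfl))
  · intro i
    exact D.clos_countable hg (hseg' i)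
  · exact hmono
  · intro i
    exact D.closed_of_wit hg fun x hx _ => D.clos_wit x hx
  · intro i
    refine D.closed_of_wit hg fun x hx hne => ?_
    obtain ⟨p, hp⟩ := hne
    obtain ⟨j0, _⟩ := Set.mem_iUnion.1 hp
    have : Nonempty {j // r j i} := ⟨j0⟩
    obtain ⟨j, hj⟩ := D.sub_iUnion (M := fun j : {j // r j i} =>
      D.clos g {k | r k j ∨ k = j}) (fun a b => by
        rcases trichotomous_of r a.1 b.1 with h | h | h
        · exact ⟨b, hmono a.1 b.1 h, subset_rfl⟩
        · exact ⟨b, by rw [h], subset_rfl⟩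
        · exact ⟨a, subset_rfl, hmono b.1 a.1 h⟩) hx
    exact (D.clos_wit x hj).trans (Set.subset_iUnion (fun j : {j // r j i} =>
      D.clos g {k | r k j ∨ k = j}) j)
  · intro i
    have : Countable {j // r j i} := (hseg i).to_subtype
    exact Set.countable_iUnion fun j => D.clos_countable hg (hseg' j.1)

end LabelSys

end Pool.Agent.Helper29.FreeLat
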