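import Pool.Agent.Helper29.AlephOneB

/-!
Posets of size at most `ℵ₁` with a finite label system embed into free lattices.
-/

universe u v w

namespace Pool.Agent.Helper29.FreeLat

namespace LabelSys

variable {P : Type u} [PartialOrder P] {S : Type v} {D : LabelSys P S}

theorem Good.sub_M {x : Finset S × Finset S} (hx : D.Good x) {r : P → P → Prop}
    {M : P → Set P} (hF : D.Filt r M) [Nonempty P] : {i | D.Sub x (M i)}.Nonempty := by
  by_cases hne : x = (∅, ∅)
  · subst hne
    exact ⟨Classical.arbitrary P, Set.mem_ofPred.2 (by simp [Sub])⟩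
  · obtain ⟨p, hp⟩ := hx.realise hne Set.countable_empty
    exact ⟨p, Set.mem_ofPred.2 (hp.sub.mono (by rintro _ rfl; exact hF.self _))⟩

theorem exists_twinData (D : LabelSys P S) [Nonempty P]
    (hP : Cardinal.mk P ≤ Cardinal.aleph 1) :
    ∃ (lt E : {x // D.Good x} → {x // D.Good x} → Prop) (b : {x // D.Good x})
      (tw : {x // D.Good x} → {x // D.Good x}) (B : {x // D.Good x} → Finset {x // D.Good x}),
      TwinData lt (fun x y => Arr x.1 y.1) E b tw B := by
  classical
  obtain ⟨r, M, hF⟩ := D.exists_filt hP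
  have wo := hF.wo
  have hwf : WellFounded r := wo.wf
  let Mlt : P → Set P := fun i => ⋃ j : {j // r j i}, M j
  have hMlt : ∀ i, Mlt i ⊆ M i := fun i => Set.iUnion_subset fun j => hF.mono j.1 i j.2
  let O := {x // D.Good x}
  let lev : O → P := fun x => hwf.min {i | D.Sub x.1 (M i)} (x.2.sub_M hF)
  have hlev : ∀ x : O, D.Sub x.1 (M (lev x)) := fun x =>
    Set.mem_ofPred.1 (hwf.min_mem {i | D.Sub x.1 (M i)} (x.2.sub_M hF))
  have hlevmin : ∀ (x : O) (i : P), D.Sub x.1 (M i) → ¬ r i (lev x) := fun x i hi =>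
    hwf.not_lt_min {i | D.Sub x.1 (M i)} (Set.mem_ofPred.2 hi)
  have hidx : ∀ i : P, ∃ g : Finset S × Finset S → ℕ,
      Set.InjOn g {x : Finset S × Finset S | D.Sub x (M i)} := fun i =>
    Set.countable_iff_exists_injOn.1 (D.countable_sub (hF.ctbl i))
  choose idx hidx using hidx
  -- a nonempty pair is not below its level
  have hnot : ∀ x : O, x.1 ≠ (∅, ∅) → ¬ D.Sub x.1 (Mlt (lev x)) := by
    intro x hx hs
    have hne : Nonempty {j // r j (lev x)} := by
      by_contra hcon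
      rw [not_nonempty_iff] at hcon
      apply hx
      have h0 : Mlt (lev x) = ∅ := by
        simp only [Mlt]
        exact Set.iUnion_of_empty _
      rw [h0] at hs
      refine ext_pair (fun s => ⟨fun h => ?_, fun h => by simp at h⟩)
        (fun s => ⟨fun h => ?_, fun h => by simp at h⟩)
      · obtain ⟨p, hp, _⟩ := hs.1 s h
        exact absurd hp (Set.notMem_empty p)
      · obtain ⟨p, hp, _⟩ := hs.2 s h
        exact absurd hp (Set.notMem_empty p)
    obtain ⟨j, hj⟩ := D.sub_iUnion (M := fun j : {j // r j (lev x)} => M j.1) (fun a b => by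
      rcases trichotomous_of r a.1 b.1 with h | h | h
      · exact ⟨b, hF.mono a.1 b.1 h, subset_rfl⟩
      · exact ⟨b, by rw [h], subset_rfl⟩
      · exact ⟨a, subset_rfl, hF.mono b.1 a.1 h⟩) hs
    exact hlevmin x j.1 hj j.2
  let base : O := ⟨(∅, ∅), Or.inr (Or.inl rfl)⟩
  have hbase : ∀ x : O, x = base ↔ x.1 = (∅, ∅) := fun x =>
    ⟨fun h => congrArg Subtype.val h, fun h => Subtype.ext h⟩
  let kk : O → ℕ := fun x => if x.1 = (∅, ∅) then 0 else 1
  let key : O → ℕ × P × ℕ := fun x => (kk x, lev x, idx (lev x) x.1)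
  let lt : O → O → Prop := InvImage (Prod.Lex (· < ·) (Prod.Lex r (· < ·))) key
  have hlt : ∀ x y, lt x y ↔ kk x < kk y ∨ (kk x = kk y ∧ (r (lev x) (lev y) ∨
      (lev x = lev y ∧ idx (lev x) x.1 < idx (lev y) y.1))) := by
    intro x y
    have : lt x y ↔ Prod.Lex (· < ·) (Prod.Lex r (· < ·)) (key x) (key y) := Iff.rfl
    rw [this, Prod.lex_def, Prod.lex_def]
  let tw : O → O := fun x =>
    ⟨D.restr x.1 (Mlt (lev x)), D.good_restr (hF.closed_lt _) (hF.ctbl_lt _) x.2⟩
  have htwlev : ∀ x : O, (tw x).1 ≠ (∅, ∅) → ∃ j, r j (lev x) ∧ ¬ r j (lev (tw x)) := by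
    intro x hx
    have hs : D.Sub (tw x).1 (Mlt (lev x)) := D.restr_sub _ _
    have hne : Nonempty {j // r j (lev x)} := by
      by_contra hcon
      rw [not_nonempty_iff] at hcon
      apply hx
      have h0 : Mlt (lev x) = ∅ := by
        simp only [Mlt]
        exact Set.iUnion_of_empty _
      rw [h0] at hs
      refine ext_pair (fun s => ⟨fun h => ?_, fun h => by simp at h⟩)
        (fun s => ⟨fun h => ?_, fun h => by simp at h⟩)
      · obtain ⟨p, hp, _⟩ := hs.1 s h
        exact absurd hp (Set.notMem_empty p)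
      · obtain ⟨p, hp, _⟩ := hs.2 s h
        exact absurd hp (Set.notMem_empty p)
    obtain ⟨j, hj⟩ := D.sub_iUnion (M := fun j : {j // r j (lev x)} => M j.1) (fun a b => by
      rcases trichotomous_of r a.1 b.1 with h | h | h
      · exact ⟨b, hF.mono a.1 b.1 h, subset_rfl⟩
      · exact ⟨b, by rw [h], subset_rfl⟩
      · exact ⟨a, subset_rfl, hF.mono b.1 a.1 h⟩) hs
    exact ⟨j.1, j.2, hlevmin (tw x) j.1 hj⟩
  have htwr : ∀ x : O, (tw x).1 ≠ (∅, ∅) → r (lev (tw x)) (lev x) := by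
    intro x hx
    obtain ⟨j, h1, h2⟩ := htwlev x hx
    rcases trichotomous_of r j (lev (tw x)) with h | h | h
    · exact absurd h h2
    · rwa [← h]
    · exact _root_.trans h h1
  let E : O → O → Prop := fun x y => y.1 = (∅, ∅) ∨ D.Sem (D.restr x.1 (M (lev y))) y.1
  have hBfin : ∀ x : O, {y : O | x.1 ≠ (∅, ∅) ∧ y.1 ≠ (∅, ∅) ∧ lev y = lev x ∧
      idx (lev y) y.1 < idx (lev x) x.1}.Finite := by
    intro x
    have hinj : Set.InjOn (fun y : O => idx (lev x) y.1)
        {y : O | x.1 ≠ (∅, ∅) ∧ y.1 ≠ (∅, ∅) ∧ lev y = lev x ∧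
          idx (lev y) y.1 < idx (lev x) x.1} := by
      intro a ha c hc hac
      rw [Set.mem_ofPred_eq] at ha hc
      refine Subtype.ext (hidx (lev x) ?_ ?_ hac)
      · have := hlev a
        rw [ha.2.2.1] at this
        exact Set.mem_ofPred.2 this
      · have := hlev c
        rw [hc.2.2.1] at this
        exact Set.mem_ofPred.2 this
    refine Set.Finite.of_finite_image ((Set.finite_lt_nat (idx (lev x) x.1)).subset ?_) hinj
    rintro _ ⟨a, ha, rfl⟩
    rw [Set.mem_ofPred_eq] at ha ⊢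
    have := ha.2.2.2
    rwa [ha.2.2.1] at this
  let B : O → Finset O := fun x => (hBfin x).toFinset
  have hB : ∀ x y, y ∈ B x ↔ x.1 ≠ (∅, ∅) ∧ y.1 ≠ (∅, ∅) ∧ lev y = lev x ∧
      idx (lev y) y.1 < idx (lev x) x.1 := by
    intro x y
    simp only [B, Set.Finite.mem_toFinset, Set.mem_ofPred_eq]
  have hold : ∀ x y : O, x ≠ base → lt y x → y ∉ B x → y.1 ≠ (∅, ∅) →
      D.Sub y.1 (Mlt (lev x)) := by
    intro x y hx h1 h2 hy
    have hx' : x.1 ≠ (∅, ∅) := fun h => hx ((hbase x).2 h)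
    have hk : kk y = kk x := by simp only [kk, if_neg hx', if_neg hy]
    rcases (hlt y x).1 h1 with h3 | ⟨_, h3 | h3⟩
    · omega
    · exact (hlev y).mono (Set.subset_iUnion (fun j : {j // r j (lev x)} => M j.1) ⟨_, h3⟩)
    · exact absurd ((hB x y).2 ⟨hx', hy, h3.1, h3.2⟩) h2
  refine ⟨lt, E, base, tw, B, ?_⟩
  refine
    { wf := InvImage.wf key (WellFounded.prod_lex Nat.lt_wfRel.wf
        (WellFounded.prod_lex hwf Nat.lt_wfRel.wf))
      tri := ?_
      trans := fun x y z => D.arr_trans x.2 y.2 z.2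
      antisymm := fun x y h1 h2 => Subtype.ext (D.arr_antisymm x.2 y.2 h1 h2)
      arr_b := fun x h => Arr.ne_right h rfl
      b_arr := fun x h => Arr.ne_left h rfl
      E_b := fun x => Or.inl rfl
      tw_lt := ?_
      B_lt := ?_
      old_arr := ?_
      arr_old := ?_
      tw_irr := ?_
      arr_E := ?_
      E_arr := ?_
      E_tw := ?_
      arr_tw := ?_ }
  · -- trichotomy
    intro x y
    rw [hlt, hlt]
    by_cases hx : x.1 = (∅, ∅)
    · by_cases hy : y.1 = (∅, ∅)
      · exact Or.inr (Or.inl (Subtype.ext (hx.trans hy.symm)))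
      · exact Or.inl (Or.inl (by simp only [kk, if_pos hx, if_neg hy]; omega))
    · by_cases hy : y.1 = (∅, ∅)
      · exact Or.inr (Or.inr (Or.inl (by simp only [kk, if_pos hy, if_neg hx]; omega)))
      · have hk : kk x = kk y := by simp only [kk, if_neg hx, if_neg hy]
        rcases trichotomous_of r (lev x) (lev y) with h1 | h1 | h1
        · exact Or.inl (Or.inr ⟨hk, Or.inl h1⟩)
        · rcases lt_trichotomy (idx (lev x) x.1) (idx (lev y) y.1) with h2 | h2 | h2
          · exact Or.inl (Or.inr ⟨hk, Or.inr ⟨h1, h2⟩⟩)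
          · refine Or.inr (Or.inl (Subtype.ext ?_))
            have h3 := hlev y
            rw [← h1] at h2 h3
            exact hidx (lev x) (Set.mem_ofPred.2 (hlev x)) (Set.mem_ofPred.2 h3) h2
          · exact Or.inr (Or.inr (Or.inr ⟨hk.symm, Or.inr ⟨h1.symm, h2⟩⟩))
        · exact Or.inr (Or.inr (Or.inr ⟨hk.symm, Or.inl h1⟩))
  · -- twins are earlier
    intro x hx
    have hx' : x.1 ≠ (∅, ∅) := fun h => hx ((hbase x).2 h)
    rw [hlt]
    by_cases hy : (tw x).1 = (∅, ∅)
    · exact Or.inl (by simp only [kk, if_pos hy, if_neg hx']; omega)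
    · have hk : kk (tw x) = kk x := by simp only [kk, if_neg hx', if_neg hy]
      exact Or.inr ⟨hk, Or.inl (htwr x hy)⟩
  · intro x y hy
    obtain ⟨h1, h2, h3, h4⟩ := (hB x y).1 hy
    rw [hlt]
    have hk : kk y = kk x := by simp only [kk, if_neg h1, if_neg h2]
    exact Or.inr ⟨hk, Or.inr ⟨h3, h4⟩⟩
  · intro x y hx h1 h2 h3
    have hs := hold x y hx h1 h2 (Arr.ne_left h3)
    obtain ⟨s, h4, h5⟩ := h3
    exact ⟨s, h4, D.mem_restr_fst.2 ⟨h5, hs.2 s h4⟩⟩
  · intro x y hx h1 h2 h3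
    have hs := hold x y hx h1 h2 (Arr.ne_right h3)
    obtain ⟨s, h4, h5⟩ := h3
    exact ⟨s, D.mem_restr_snd.2 ⟨h4, hs.1 s h5⟩, h5⟩
  · intro x hx h1
    have hx' : x.1 ≠ (∅, ∅) := fun h => hx ((hbase x).2 h)
    rcases D.root_restr (hF.closed_lt _) (hF.ctbl_lt _) x.2 (hnot x hx') with h2 | h2
    · exact h2.not_arr h1
    · exact Arr.ne_left h1 h2
  · intro x y h1
    refine Or.inr ?_
    have hg : D.Good (D.restr x.1 (M (lev y))) := D.good_restr (hF.closed _) (hF.ctbl _) x.2
    refine Arr.sem hg y.2 ?_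
    obtain ⟨s, h2, h3⟩ := h1
    exact ⟨s, D.mem_restr_snd.2 ⟨h2, (hlev y).1 s h3⟩, h3⟩
  · intro x y z h1 h2
    rcases h1 with h1 | h1
    · exact absurd h1 (Arr.ne_left h2)
    · obtain ⟨s, h3, h4⟩ := Sem.arr h1 (hF.ctbl (lev y)) (D.restr_sub _ _) z.2 h2
      exact ⟨s, (D.mem_restr_snd.1 h3).1, h4⟩
  · intro x y hy h1
    by_cases hty : (tw y).1 = (∅, ∅)
    · exact Or.inl hty
    · right
      rcases h1 with h1 | h1
      · exact absurd ((hbase y).2 h1) hy
      · have hr := htwr y hty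
        have h2 := Sem.restr h1 (hF.closed (lev (tw y)))
        rw [D.restr_restr (hF.mono _ _ hr)] at h2
        have h3 : D.restr y.1 (M (lev (tw y))) = (tw y).1 := by
          have h4 := D.restr_eq_self (hlev (tw y))
          rw [← h4]
          change _ = D.restr (D.restr y.1 (Mlt (lev y))) _
          rw [D.restr_restr]
          exact Set.subset_iUnion (fun j : {j // r j (lev y)} => M j.1) ⟨_, hr⟩
        rwa [h3] at h2
  · intro x y hy h1
    obtain ⟨s, h2, h3⟩ := h1
    exact ⟨s, h2, (D.mem_restr_fst.1 h3).1⟩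

/-- Main embedding statement: a poset with at most `ℵ₁` elements and a finite label system
maps order-preservingly into every lattice, controlled by 0-1 homomorphisms. -/
theorem exists_embedding (D : LabelSys P S) (hP : Cardinal.mk P ≤ Cardinal.aleph 1) :
    ∃ X : Type (max u v), Nonempty (P ↪o FLat X) := by
  classical
  rcases isEmpty_or_nonempty P with hE | hne
  · refine ⟨PEmpty, ⟨OrderEmbedding.ofMapLEIff (fun p => hE.elim p) fun p => hE.elim p⟩⟩
  · obtain ⟨lt, E, b, tw, B, H⟩ := exists_twinData D hP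
    let X : Type (max u v) := ULift.{max u v} ({x // D.Good x} × Bool) ⊕ ULift.{max u v} Bool
    let x : {x // D.Good x} → FLat X := fun y => FLat.of (Sum.inl ⟨(y, true)⟩)
    let x' : {x // D.Good x} → FLat X := fun y => FLat.of (Sum.inl ⟨(y, false)⟩)
    let c0 : FLat X := FLat.of (Sum.inr ⟨false⟩)
    let c1 : FLat X := FLat.of (Sum.inr ⟨true⟩)
    obtain ⟨φ, h1, h2⟩ := H.exists_map x x' (c0 ⊓ c1) (c0 ⊔ c1) inf_le_sup
    let ob : P → {x // D.Good x} := fun p => ⟨D.pr p, Or.inr (Or.inr ⟨p, rfl⟩)⟩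
    have hob : ∀ p q, Arr (ob p).1 (ob q).1 ↔ p ≤ q := fun p q => (D.le_iff p q).symm
    refine ⟨X, ⟨OrderEmbedding.ofMapLEIff (fun p => φ (ob p)) fun p q =>
      ⟨fun hpq => ?_, fun hpq => h1 _ _ ((hob p q).2 hpq)⟩⟩⟩
    let v : X → Prop := fun t => Sum.elim
      (fun y => if y.down.2 then Arr (ob p).1 y.down.1.1 else E (ob p) y.down.1)
      (fun y => y.down = true) t
    have h3 := h2 (FLat.lift v) (ob p) ?_ ?_ ?_ ?_
    · have h4 : FLat.lift v (φ (ob p)) ≤ FLat.lift v (φ (ob q)) := OrderHomClass.mono _ hpq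
      rw [h3, h3] at h4
      exact (hob p q).1 (h4 ((hob p p).2 le_rfl))
    · rw [map_inf]
      change ¬ (v (Sum.inr ⟨false⟩) ∧ v (Sum.inr ⟨true⟩))
      simp [v]
    · rw [map_sup]
      change (v (Sum.inr ⟨false⟩) ∨ v (Sum.inr ⟨true⟩))
      simp [v]
    · intro y
      change v (Sum.inl ⟨(y, true)⟩) = _
      simp [v]
    · intro y
      change v (Sum.inl ⟨(y, false)⟩) = _
      simp [v]

end LabelSys

end Pool.Agent.Helper29.FreeLat
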