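import Mathlib

/-!
Bezout rings, RD-purity and purity for right modules over a (noncommutative) ring.
Right `R`-modules are modules over `Rᵐᵒᵖ`; the product `b·r` is `MulOpposite.op r • b`.
-/

namespace Pool.Agent.Helper29

open MulOpposite

/-- Every finitely generated right ideal of `R` is of the form `aR`. -/
def IsRightBezout (R : Type*) [Ring R] : Prop :=
  ∀ I : Submodule Rᵐᵒᵖ R, I.FG → ∃ a : R, ∀ x : R, x ∈ I ↔ ∃ r : R, x = a * r

/-- Every finitely generated left ideal of `R` is of the form `Ra`. -/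
def IsLeftBezout (R : Type*) [Ring R] : Prop :=
  ∀ I : Submodule R R, I.FG → ∃ a : R, ∀ x : R, x ∈ I ↔ ∃ r : R, x = r * a

/-- `A` is an RD-pure submodule of the right module `B`: `Ar = A ∩ Br` for every `r ∈ R`. -/
def IsRDPure {R : Type*} [Ring R] {B : Type*} [AddCommGroup B] [Module Rᵐᵒᵖ B]
    (A : Submodule Rᵐᵒᵖ B) : Prop :=
  ∀ r : R, {x : B | ∃ a ∈ A, x = op r • a} = {x : B | x ∈ A ∧ ∃ b : B, x = op r • b}

/-- `A` is a pure submodule of the right module `B`: every finite system of linear equations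
`∑ i, Xᵢ tᵢⱼ = cⱼ` with coefficients `tᵢⱼ ∈ R` and constants `cⱼ ∈ A` that has a solution in `B`
has a solution in `A`. -/
def IsPure {R : Type*} [Ring R] {B : Type*} [AddCommGroup B] [Module Rᵐᵒᵖ B]
    (A : Submodule Rᵐᵒᵖ B) : Prop :=
  ∀ (m n : ℕ) (t : Fin m → Fin n → R) (c : Fin n → B), (∀ j, c j ∈ A) →
    (∃ b : Fin m → B, ∀ j, ∑ i, op (t i j) • b i = c j) →
    ∃ a : Fin m → B, (∀ i, a i ∈ A) ∧ ∀ j, ∑ i, op (t i j) • a i = c j

/-- `R` is an RD ring: for right `R`-modules, every RD-pure submodule is pure. -/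
def IsRDRing.{u, v} (R : Type u) [Ring R] : Prop :=
  ∀ (B : Type v) [AddCommGroup B] [Module Rᵐᵒᵖ B] (A : Submodule Rᵐᵒᵖ B),
    IsRDPure A → IsPure A

end Pool.Agent.Helper29
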