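import Mathlib

/-!
Skew power series `K[[x;σ]]` over a field `K` with an automorphism `σ`:
formal sums `∑ aₙ xⁿ`, multiplied with the rule `x a = σ(a) x`.
-/

namespace Pool.Agent.Helper29

open Finset

/-- Skew power series: the series `∑ aₙ xⁿ` is stored as its coefficient function `n ↦ aₙ`. -/
@[ext]
structure SkewPS (K : Type*) [Field K] (σ : RingAut K) where
  /-- the coefficients -/
  coeff : ℕ → K

namespace SkewPS

variable {K : Type*} [Field K] {σ : RingAut K}

instance : Zero (SkewPS K σ) := ⟨⟨fun _ => 0⟩⟩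
instance : One (SkewPS K σ) := ⟨⟨fun n => if n = 0 then 1 else 0⟩⟩
instance : Add (SkewPS K σ) := ⟨fun f g => ⟨fun n => f.coeff n + g.coeff n⟩⟩
instance : Neg (SkewPS K σ) := ⟨fun f => ⟨fun n => - f.coeff n⟩⟩
instance : Mul (SkewPS K σ) :=
  ⟨fun f g => ⟨fun n => ∑ p ∈ antidiagonal n, f.coeff p.1 * (σ ^ p.1) (g.coeff p.2)⟩⟩

@[simp] theorem coeff_zero (n : ℕ) : (0 : SkewPS K σ).coeff n = 0 := rfl
theorem coeff_one (n : ℕ) : (1 : SkewPS K σ).coeff n = if n = 0 then 1 else 0 := rfl
@[simp] theorem coeff_one_zero : (1 : SkewPS K σ).coeff 0 = 1 := rfl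
@[simp] theorem coeff_add (f g : SkewPS K σ) (n : ℕ) :
    (f + g).coeff n = f.coeff n + g.coeff n := rfl
@[simp] theorem coeff_neg (f : SkewPS K σ) (n : ℕ) : (-f).coeff n = - f.coeff n := rfl
theorem coeff_mul (f g : SkewPS K σ) (n : ℕ) :
    (f * g).coeff n = ∑ p ∈ antidiagonal n, f.coeff p.1 * (σ ^ p.1) (g.coeff p.2) := rfl

theorem one_mul' (f : SkewPS K σ) : 1 * f = f := by
  ext n
  rw [coeff_mul, Finset.sum_eq_single (0, n)]
  · simp
  · rintro ⟨i, j⟩ hij hne
    have : i ≠ 0 := by
      rintro rfl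
      apply hne
      simp only [HasAntidiagonal.mem_antidiagonal, zero_add] at hij
      simp [hij]
    simp [coeff_one, this]
  · intro h
    simp at h

theorem mul_one' (f : SkewPS K σ) : f * 1 = f := by
  ext n
  rw [coeff_mul, Finset.sum_eq_single (n, 0)]
  · simp
  · rintro ⟨i, j⟩ hij hne
    have : j ≠ 0 := by
      rintro rfl
      apply hne
      simp only [HasAntidiagonal.mem_antidiagonal, add_zero] at hij
      simp [hij]
    simp [coeff_one, this]
  · intro h
    simp at h

theorem mul_assoc' (f g h : SkewPS K σ) : f * g * h = f * (g * h) := by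
  ext n
  simp only [coeff_mul, Finset.sum_mul, Finset.mul_sum, Finset.sum_sigma', map_sum, map_mul]
  apply Finset.sum_nbij' (fun ⟨⟨_i, j⟩, ⟨k, l⟩⟩ ↦ ⟨(k, l + j), (l, j)⟩)
    (fun ⟨⟨i, _j⟩, ⟨k, l⟩⟩ ↦ ⟨(i + k, l), (i, k)⟩)
  · rintro ⟨⟨i, j⟩, ⟨k, l⟩⟩ h
    simp only [mem_sigma, HasAntidiagonal.mem_antidiagonal] at h ⊢
    obtain ⟨h1, h2⟩ := h
    exact ⟨by omega, by trivial⟩
  · rintro ⟨⟨i, j⟩, ⟨k, l⟩⟩ h
    simp only [mem_sigma, HasAntidiagonal.mem_antidiagonal] at h ⊢
    obtain ⟨h1, h2⟩ := h
    exact ⟨by omega, by trivial⟩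
  · rintro ⟨⟨i, j⟩, ⟨k, l⟩⟩ h
    simp only [mem_sigma, HasAntidiagonal.mem_antidiagonal] at h ⊢
    obtain ⟨_, rfl⟩ := h
    rfl
  · rintro ⟨⟨i, j⟩, ⟨k, l⟩⟩ h
    simp only [mem_sigma, HasAntidiagonal.mem_antidiagonal] at h ⊢
    obtain ⟨_, rfl⟩ := h
    rfl
  · rintro ⟨⟨i, j⟩, ⟨k, l⟩⟩ h
    simp only [mem_sigma, HasAntidiagonal.mem_antidiagonal] at h ⊢
    obtain ⟨_, rfl⟩ := h
    simp only [mul_assoc, pow_add]
    rfl

instance : Ring (SkewPS K σ) where
  add_assoc f g h := by ext n; simp [add_assoc]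
  zero_add f := by ext n; simp
  add_zero f := by ext n; simp
  add_comm f g := by ext n; simp [add_comm]
  neg_add_cancel f := by ext n; simp
  nsmul := nsmulRec
  zsmul := zsmulRec
  zero_mul f := by ext n; simp [coeff_mul]
  mul_zero f := by ext n; simp [coeff_mul]
  left_distrib f g h := by
    ext n
    simp only [coeff_mul, coeff_add, map_add, mul_add, Finset.sum_add_distrib]
  right_distrib f g h := by
    ext n
    simp only [coeff_mul, coeff_add, add_mul, Finset.sum_add_distrib]
  one_mul := one_mul'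
  mul_one := mul_one'
  mul_assoc := mul_assoc'

@[simp] theorem coeff_sub (f g : SkewPS K σ) (n : ℕ) :
    (f - g).coeff n = f.coeff n - g.coeff n := by
  rw [sub_eq_add_neg, coeff_add, coeff_neg, sub_eq_add_neg]

@[simp] theorem coeff_mul_zero (f g : SkewPS K σ) :
    (f * g).coeff 0 = f.coeff 0 * g.coeff 0 := by
  simp [coeff_mul]

theorem coeff_mul_one (f g : SkewPS K σ) :
    (f * g).coeff 1 = f.coeff 0 * g.coeff 1 + f.coeff 1 * σ (g.coeff 0) := by
  simp [coeff_mul, Finset.Nat.antidiagonal_succ]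

/-- `f` has all coefficients below `n` equal to zero. -/
def OrdGE (f : SkewPS K σ) (n : ℕ) : Prop := ∀ i < n, f.coeff i = 0

theorem coeff_mul_of_ordGE {f g : SkewPS K σ} {n m : ℕ} (hf : f.OrdGE n) (hg : g.OrdGE m) :
    (f * g).coeff (n + m) = f.coeff n * (σ ^ n) (g.coeff m) := by
  rw [coeff_mul, Finset.sum_eq_single (n, m)]
  · rintro ⟨i, j⟩ hij hne
    simp only [HasAntidiagonal.mem_antidiagonal] at hij
    rcases lt_trichotomy i n with h | h | h
    · simp [hf i h]
    · exfalso
      apply hne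
      subst h
      have : j = m := by omega
      simp [this]
    · have : j < m := by omega
      simp [hg j this]
  · intro h
    simp at h

theorem ordGE_mul {f g : SkewPS K σ} {n m : ℕ} (hf : f.OrdGE n) (hg : g.OrdGE m) :
    (f * g).OrdGE (n + m) := by
  intro k hk
  rw [coeff_mul]
  apply Finset.sum_eq_zero
  rintro ⟨i, j⟩ hij
  simp only [HasAntidiagonal.mem_antidiagonal] at hij
  by_cases h : i < n
  · simp [hf i h]
  · have : j < m := by omega
    simp [hg j this]

theorem exists_ord {f : SkewPS K σ} (hf : f ≠ 0) : ∃ n, f.OrdGE n ∧ f.coeff n ≠ 0 := by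
  classical
  have h : ∃ n, f.coeff n ≠ 0 := by
    by_contra h
    push Not at h
    apply hf
    ext n
    simp [h n]
  refine ⟨Nat.find h, ?_, Nat.find_spec h⟩
  intro i hi
  have := Nat.find_min h hi
  push Not at this
  exact this

instance : NoZeroDivisors (SkewPS K σ) where
  eq_zero_or_eq_zero_of_mul_eq_zero := by
    intro f g hfg
    by_contra hne
    push Not at hne
    obtain ⟨n, hn, hn'⟩ := exists_ord hne.1
    obtain ⟨m, hm, hm'⟩ := exists_ord hne.2
    have := coeff_mul_of_ordGE hn hm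
    rw [hfg, coeff_zero] at this
    have h2 : f.coeff n * (σ ^ n) (g.coeff m) ≠ 0 := by
      apply mul_ne_zero hn'
      exact (map_ne_zero_iff _ (σ ^ n).injective).mpr hm'
    exact h2 this.symm

instance : Nontrivial (SkewPS K σ) :=
  ⟨⟨0, 1, fun h => by
    have := congrArg (fun f => SkewPS.coeff f 0) h
    simp at this⟩⟩

/-- Right division: if `f` has order exactly `n` and `g` has order at least `n` then
`g = f * h` for some `h`. -/
theorem exists_right_quot {f g : SkewPS K σ} {n : ℕ} (hf : f.OrdGE n) (hf' : f.coeff n ≠ 0)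
    (hg : g.OrdGE n) : ∃ h : SkewPS K σ, g = f * h := by
  classical
  -- the coefficients of `h`, by strong recursion
  let F : (m : ℕ) → ((k : ℕ) → k < m → K) → K := fun m rec =>
    (σ ^ n)⁻¹ ((g.coeff (n + m) - ∑ j : Fin m,
      f.coeff (n + m - j) * (σ ^ (n + m - j)) (rec j j.2)) / f.coeff n)
  let c : ℕ → K := fun m => Nat.strongRec (motive := fun _ => K) F m
  have hc : ∀ m, c m = (σ ^ n)⁻¹ ((g.coeff (n + m) - ∑ j : Fin m,
      f.coeff (n + m - j) * (σ ^ (n + m - j)) (c j)) / f.coeff n) := by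
    intro m
    show Nat.strongRec (motive := fun _ => K) F m = _
    rw [Nat.strongRec_eq]
  refine ⟨⟨c⟩, ?_⟩
  ext k
  by_cases hk : k < n
  · rw [hg k hk, coeff_mul]
    symm
    apply Finset.sum_eq_zero
    rintro ⟨i, j⟩ hij
    simp only [HasAntidiagonal.mem_antidiagonal] at hij
    have : i < n := by omega
    simp [hf i this]
  · obtain ⟨m, rfl⟩ := Nat.exists_eq_add_of_le (not_lt.mp hk)
    rw [coeff_mul]
    -- only the terms with first index at least n matter
    have h1 : ∑ p ∈ antidiagonal (n + m), f.coeff p.1 * (σ ^ p.1) (c p.2)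
        = ∑ j ∈ Finset.range (m + 1), f.coeff (n + m - j) * (σ ^ (n + m - j)) (c j) := by
      rw [← Finset.sum_subset (s₁ := (Finset.range (m + 1)).image (fun j => (n + m - j, j)))]
      · rw [Finset.sum_image]
        intro a _ b _ hab
        simp only [Prod.mk.injEq] at hab
        exact hab.2
      · intro p hp
        simp only [Finset.mem_image, Finset.mem_range] at hp
        obtain ⟨j, hj, rfl⟩ := hp
        simp only [HasAntidiagonal.mem_antidiagonal]
        omega
      · rintro ⟨i, j⟩ hij hne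
        simp only [HasAntidiagonal.mem_antidiagonal] at hij
        simp only [Finset.mem_image, Finset.mem_range, not_exists, not_and] at hne
        have : i < n := by
          by_contra hi
          apply hne j (by omega)
          simp only [Prod.mk.injEq, and_true]
          omega
        simp [hf i this]
    rw [h1, Finset.sum_range_succ]
    have h2 : n + m - m = n := by omega
    rw [h2]
    have h3 := hc m
    have h4 : (σ ^ n) (c m) = (g.coeff (n + m) - ∑ j : Fin m,
      f.coeff (n + m - j) * (σ ^ (n + m - j)) (c j)) / f.coeff n := by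
      conv_lhs => rw [h3]
      rw [← RingAut.mul_apply, mul_inv_cancel, RingAut.one_apply]
    rw [h4, mul_div_cancel₀ _ hf', Finset.sum_range (fun j => f.coeff (n + m - j) * (σ ^ (n + m - j)) (c j))]
    ring

/-- Left division: if `f` has order exactly `n` and `g` has order at least `n` then
`g = h * f` for some `h`. -/
theorem exists_left_quot {f g : SkewPS K σ} {n : ℕ} (hf : f.OrdGE n) (hf' : f.coeff n ≠ 0)
    (hg : g.OrdGE n) : ∃ h : SkewPS K σ, g = h * f := by
  classical
  let F : (m : ℕ) → ((k : ℕ) → k < m → K) → K := fun m rec =>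
    (g.coeff (n + m) - ∑ j : Fin m,
      rec j j.2 * (σ ^ (j : ℕ)) (f.coeff (n + m - j))) / (σ ^ m) (f.coeff n)
  let c : ℕ → K := fun m => Nat.strongRec (motive := fun _ => K) F m
  have hc : ∀ m, c m = (g.coeff (n + m) - ∑ j : Fin m,
      c j * (σ ^ (j : ℕ)) (f.coeff (n + m - j))) / (σ ^ m) (f.coeff n) := by
    intro m
    show Nat.strongRec (motive := fun _ => K) F m = _
    rw [Nat.strongRec_eq]
  refine ⟨⟨c⟩, ?_⟩
  ext k
  by_cases hk : k < n
  · rw [hg k hk, coeff_mul]
    symm
    apply Finset.sum_eq_zero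
    rintro ⟨i, j⟩ hij
    simp only [HasAntidiagonal.mem_antidiagonal] at hij
    have : j < n := by omega
    simp [hf j this]
  · obtain ⟨m, rfl⟩ := Nat.exists_eq_add_of_le (not_lt.mp hk)
    rw [coeff_mul]
    have h1 : ∑ p ∈ antidiagonal (n + m), c p.1 * (σ ^ p.1) (f.coeff p.2)
        = ∑ j ∈ Finset.range (m + 1), c j * (σ ^ j) (f.coeff (n + m - j)) := by
      rw [← Finset.sum_subset (s₁ := (Finset.range (m + 1)).image (fun j => (j, n + m - j)))]
      · rw [Finset.sum_image]
        intro a _ b _ hab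
        simp only [Prod.mk.injEq] at hab
        exact hab.1
      · intro p hp
        simp only [Finset.mem_image, Finset.mem_range] at hp
        obtain ⟨j, hj, rfl⟩ := hp
        simp only [HasAntidiagonal.mem_antidiagonal]
        omega
      · rintro ⟨i, j⟩ hij hne
        simp only [HasAntidiagonal.mem_antidiagonal] at hij
        simp only [Finset.mem_image, Finset.mem_range, not_exists, not_and] at hne
        have : j < n := by
          by_contra hi
          apply hne i (by omega)
          simp only [Prod.mk.injEq, true_and]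
          omega
        simp [hf j this]
    rw [h1, Finset.sum_range_succ]
    have h2 : n + m - m = n := by omega
    rw [h2]
    have h5 : (σ ^ m) (f.coeff n) ≠ 0 := (map_ne_zero_iff _ (σ ^ m).injective).mpr hf'
    have h3 := hc m
    have h4 : c m * (σ ^ m) (f.coeff n) = (g.coeff (n + m) - ∑ j : Fin m,
      c j * (σ ^ (j : ℕ)) (f.coeff (n + m - j))) := by
      conv_lhs => rw [h3]
      rw [div_mul_cancel₀ _ h5]
    rw [h4, Finset.sum_range (fun j => c j * (σ ^ j) (f.coeff (n + m - j)))]
    ring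

end SkewPS

end Pool.Agent.Helper29
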