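import Mathlib
import Pool.Agent.Helper29.RDDefs
import Pool.Agent.Helper29.SkewPS

/-!
The subring `D + K x + K x² + ⋯` of `K[[x;σ]]` and its Bezout property.
-/

namespace Pool.Agent.Helper29

open Finset MulOpposite

theorem isRightBezout_of_pairs {R : Type*} [Ring R]
    (h : ∀ a b : R, ∃ c u v s t : R, a = c * s ∧ b = c * t ∧ c = a * u + b * v) :
    IsRightBezout R := by
  intro I hI
  refine Submodule.fg_induction (R := Rᵐᵒᵖ) (M := R)
    (motive := fun I _ => ∃ a : R, ∀ x : R, x ∈ I ↔ ∃ r : R, x = a * r) ?_ ?_ I hI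
  · intro a
    refine ⟨a, fun x => ?_⟩
    rw [Submodule.mem_span_singleton]
    constructor
    · rintro ⟨r, rfl⟩
      exact ⟨r.unop, rfl⟩
    · rintro ⟨r, rfl⟩
      exact ⟨op r, rfl⟩
  · rintro I₁ I₂ - - ⟨a, ha⟩ ⟨b, hb⟩
    obtain ⟨c, u, v, s, t, h1, h2, h3⟩ := h a b
    refine ⟨c, fun x => ?_⟩
    rw [Submodule.mem_sup]
    constructor
    · rintro ⟨y, hy, z, hz, rfl⟩
      obtain ⟨r, rfl⟩ := (ha y).1 hy
      obtain ⟨r', rfl⟩ := (hb z).1 hz
      refine ⟨s * r + t * r', ?_⟩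
      rw [mul_add, ← mul_assoc, ← mul_assoc, ← h1, ← h2]
    · rintro ⟨r, rfl⟩
      refine ⟨a * (u * r), (ha _).2 ⟨_, rfl⟩, b * (v * r), (hb _).2 ⟨_, rfl⟩, ?_⟩
      rw [← mul_assoc, ← mul_assoc, ← add_mul, ← h3]

theorem isLeftBezout_of_pairs {R : Type*} [Ring R]
    (h : ∀ a b : R, ∃ c u v s t : R, a = s * c ∧ b = t * c ∧ c = u * a + v * b) :
    IsLeftBezout R := by
  intro I hI
  refine Submodule.fg_induction (R := R) (M := R)
    (motive := fun I _ => ∃ a : R, ∀ x : R, x ∈ I ↔ ∃ r : R, x = r * a) ?_ ?_ I hI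
  · intro a
    refine ⟨a, fun x => ?_⟩
    rw [Submodule.mem_span_singleton]
    constructor
    · rintro ⟨r, rfl⟩
      exact ⟨r, rfl⟩
    · rintro ⟨r, rfl⟩
      exact ⟨r, rfl⟩
  · rintro I₁ I₂ - - ⟨a, ha⟩ ⟨b, hb⟩
    obtain ⟨c, u, v, s, t, h1, h2, h3⟩ := h a b
    refine ⟨c, fun x => ?_⟩
    rw [Submodule.mem_sup]
    constructor
    · rintro ⟨y, hy, z, hz, rfl⟩
      obtain ⟨r, rfl⟩ := (ha y).1 hy
      obtain ⟨r', rfl⟩ := (hb z).1 hz
      refine ⟨r * s + r' * t, ?_⟩
      rw [add_mul, mul_assoc, mul_assoc, ← h1, ← h2]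
    · rintro ⟨r, rfl⟩
      refine ⟨r * u * a, (ha _).2 ⟨_, rfl⟩, r * v * b, (hb _).2 ⟨_, rfl⟩, ?_⟩
      rw [mul_assoc, mul_assoc, ← mul_add, ← h3]

namespace SkewPS

variable {K : Type*} [Field K] {σ : RingAut K}

/-- The subring `D + K x + K x² + ⋯` of `K[[x;σ]]`. -/
def withConst (σ : RingAut K) (D : Subring K) : Subring (SkewPS K σ) where
  carrier := {f | f.coeff 0 ∈ D}
  mul_mem' := by
    intro a b ha hb
    simp only [Set.mem_ofPred_eq, coeff_mul_zero] at *
    exact D.mul_mem ha hb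
  one_mem' := by
    simp only [Set.mem_ofPred_eq, coeff_one_zero]
    exact D.one_mem
  add_mem' := by
    intro a b ha hb
    simp only [Set.mem_ofPred_eq, coeff_add] at *
    exact D.add_mem ha hb
  zero_mem' := by
    simp only [Set.mem_ofPred_eq, coeff_zero]
    exact D.zero_mem
  neg_mem' := by
    intro a ha
    simp only [Set.mem_ofPred_eq, coeff_neg] at *
    exact D.neg_mem ha

theorem mem_withConst {D : Subring K} {f : SkewPS K σ} : f ∈ withConst σ D ↔ f.coeff 0 ∈ D :=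
  Iff.rfl

/-- The monomial `a xⁿ`. -/
def mono (σ : RingAut K) (n : ℕ) (a : K) : SkewPS K σ := ⟨fun m => if m = n then a else 0⟩

theorem coeff_mono (n m : ℕ) (a : K) : (mono σ n a).coeff m = if m = n then a else 0 := rfl

theorem coeff_mul_const (f : SkewPS K σ) (u : K) (n : ℕ) :
    (f * mono σ 0 u).coeff n = f.coeff n * (σ ^ n) u := by
  rw [coeff_mul, Finset.sum_eq_single (n, 0)]
  · simp [coeff_mono]
  · rintro ⟨i, j⟩ hij hne
    have : j ≠ 0 := by
      rintro rfl
      apply hne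
      simp only [HasAntidiagonal.mem_antidiagonal, add_zero] at hij
      simp [hij]
    simp [coeff_mono, this]
  · intro h
    simp at h

theorem coeff_const_mul (f : SkewPS K σ) (u : K) (n : ℕ) :
    (mono σ 0 u * f).coeff n = u * f.coeff n := by
  rw [coeff_mul, Finset.sum_eq_single (0, n)]
  · simp [coeff_mono]
  · rintro ⟨i, j⟩ hij hne
    have : i ≠ 0 := by
      rintro rfl
      apply hne
      simp only [HasAntidiagonal.mem_antidiagonal, zero_add] at hij
      simp [hij]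
    simp [coeff_mono, this]
  · intro h
    simp at h

/-- `D` is a Bezout domain with field of fractions `K`, in the form used below. -/
def FracBezout (D : Subring K) : Prop :=
  ∀ a b : K, ∃ c u v s t : K, u ∈ D ∧ v ∈ D ∧ s ∈ D ∧ t ∈ D ∧
    a = c * s ∧ b = c * t ∧ c = a * u + b * v

theorem exists_right_quot_mem {D : Subring K} {f g : SkewPS K σ} {n : ℕ}
    (hf : f.OrdGE n) (hf' : f.coeff n ≠ 0) (hg : g.OrdGE n) {s : K} (hs : s ∈ D)
    (h : g.coeff n = f.coeff n * (σ ^ n) s) : ∃ q ∈ withConst σ D, g = f * q := by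
  obtain ⟨q, rfl⟩ := exists_right_quot hf hf' hg
  refine ⟨q, ?_, rfl⟩
  have h0 : q.OrdGE 0 := fun i hi => absurd hi (Nat.not_lt_zero i)
  have := coeff_mul_of_ordGE hf h0
  rw [add_zero, h] at this
  have h2 := (σ ^ n).injective (mul_left_cancel₀ hf' this)
  rw [mem_withConst, ← h2]
  exact hs

theorem exists_left_quot_mem {D : Subring K} {f g : SkewPS K σ} {n : ℕ}
    (hf : f.OrdGE n) (hf' : f.coeff n ≠ 0) (hg : g.OrdGE n) {s : K} (hs : s ∈ D)
    (h : g.coeff n = s * f.coeff n) : ∃ q ∈ withConst σ D, g = q * f := by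
  obtain ⟨q, rfl⟩ := exists_left_quot hf hf' hg
  refine ⟨q, ?_, rfl⟩
  have h0 : q.OrdGE 0 := fun i hi => absurd hi (Nat.not_lt_zero i)
  have := coeff_mul_of_ordGE h0 hf
  rw [zero_add, h, pow_zero, RingAut.one_apply] at this
  have h2 := mul_right_cancel₀ hf' this
  rw [mem_withConst, ← h2]
  exact hs

theorem isRightBezout_withConst {D : Subring K} (hD : FracBezout D) :
    IsRightBezout (withConst σ D) := by
  apply isRightBezout_of_pairs
  -- the case where the order of `f` is at most the order of `g`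
  have key : ∀ f g : withConst σ D, ∀ n : ℕ, (f : SkewPS K σ).OrdGE n →
      (f : SkewPS K σ).coeff n ≠ 0 → (g : SkewPS K σ).OrdGE n →
      ∃ c u v s t : withConst σ D, f = c * s ∧ g = c * t ∧ c = f * u + g * v := by
    intro f g n hf hf' hg
    obtain ⟨c, u, v, s, t, hu, hv, hs, ht, h1, h2, h3⟩ :=
      hD ((σ ^ n)⁻¹ ((f : SkewPS K σ).coeff n)) ((σ ^ n)⁻¹ ((g : SkewPS K σ).coeff n))
    have hc : c ≠ 0 := by
      rintro rfl
      rw [zero_mul] at h1
      apply hf'
      exact (map_eq_zero_iff _ ((σ ^ n)⁻¹).injective).mp h1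
    have inv : ∀ z : K, (σ ^ n) ((σ ^ n)⁻¹ z) = z := by
      intro z
      rw [← RingAut.mul_apply, mul_inv_cancel, RingAut.one_apply]
    have h1' : (f : SkewPS K σ).coeff n = (σ ^ n) c * (σ ^ n) s := by
      rw [← map_mul, ← h1, inv]
    have h2' : (g : SkewPS K σ).coeff n = (σ ^ n) c * (σ ^ n) t := by
      rw [← map_mul, ← h2, inv]
    have h3' : (σ ^ n) c = (f : SkewPS K σ).coeff n * (σ ^ n) u
        + (g : SkewPS K σ).coeff n * (σ ^ n) v := by
      conv_lhs => rw [h3]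
      rw [map_add, map_mul, map_mul, inv, inv]
    have memu : mono σ 0 u ∈ withConst σ D := by
      rw [mem_withConst, coeff_mono]; simpa using hu
    have memv : mono σ 0 v ∈ withConst σ D := by
      rw [mem_withConst, coeff_mono]; simpa using hv
    set e : withConst σ D := f * ⟨_, memu⟩ + g * ⟨_, memv⟩ with he
    have hecoeff : ∀ m, (e : SkewPS K σ).coeff m =
        (f : SkewPS K σ).coeff m * (σ ^ m) u + (g : SkewPS K σ).coeff m * (σ ^ m) v := by
      intro m
      rw [he]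
      simp only [Subring.coe_add, Subring.coe_mul, coeff_add, coeff_mul_const]
    have heord : (e : SkewPS K σ).OrdGE n := by
      intro i hi
      rw [hecoeff, hf i hi, hg i hi, zero_mul, zero_mul, add_zero]
    have hen : (e : SkewPS K σ).coeff n = (σ ^ n) c := by
      rw [hecoeff, h3']
    have hen0 : (e : SkewPS K σ).coeff n ≠ 0 := by
      rw [hen]
      exact (map_ne_zero_iff _ (σ ^ n).injective).mpr hc
    obtain ⟨q1, hq1, hfq⟩ := exists_right_quot_mem (D := D) heord hen0 hf hs (by rw [hen]; exact h1')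
    obtain ⟨q2, hq2, hgq⟩ := exists_right_quot_mem (D := D) heord hen0 hg ht (by rw [hen]; exact h2')
    refine ⟨e, ⟨_, memu⟩, ⟨_, memv⟩, ⟨q1, hq1⟩, ⟨q2, hq2⟩, Subtype.ext hfq, Subtype.ext hgq, he⟩
  intro f g
  by_cases hf0 : f = 0
  · exact ⟨g, 0, 1, 0, 1, by simp [hf0], by simp, by simp⟩
  by_cases hg0 : g = 0
  · exact ⟨f, 1, 0, 1, 0, by simp, by simp [hg0], by simp⟩
  obtain ⟨n, hn, hn'⟩ := exists_ord (f := (f : SkewPS K σ)) (by simpa using hf0)
  obtain ⟨m, hm, hm'⟩ := exists_ord (f := (g : SkewPS K σ)) (by simpa using hg0)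
  rcases le_total n m with h | h
  · exact key f g n hn hn' (fun i hi => hm i (lt_of_lt_of_le hi h))
  · obtain ⟨c, u, v, s, t, h1, h2, h3⟩ := key g f m hm hm' (fun i hi => hn i (lt_of_lt_of_le hi h))
    exact ⟨c, v, u, t, s, h2, h1, by rw [add_comm]; exact h3⟩

theorem isLeftBezout_withConst {D : Subring K} (hD : FracBezout D) :
    IsLeftBezout (withConst σ D) := by
  apply isLeftBezout_of_pairs
  have key : ∀ f g : withConst σ D, ∀ n : ℕ, (f : SkewPS K σ).OrdGE n →
      (f : SkewPS K σ).coeff n ≠ 0 → (g : SkewPS K σ).OrdGE n →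
      ∃ c u v s t : withConst σ D, f = s * c ∧ g = t * c ∧ c = u * f + v * g := by
    intro f g n hf hf' hg
    obtain ⟨c, u, v, s, t, hu, hv, hs, ht, h1, h2, h3⟩ :=
      hD ((f : SkewPS K σ).coeff n) ((g : SkewPS K σ).coeff n)
    have hc : c ≠ 0 := by
      rintro rfl
      rw [zero_mul] at h1
      exact hf' h1
    have memu : mono σ 0 u ∈ withConst σ D := by
      rw [mem_withConst, coeff_mono]; simpa using hu
    have memv : mono σ 0 v ∈ withConst σ D := by
      rw [mem_withConst, coeff_mono]; simpa using hv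
    set e : withConst σ D := ⟨_, memu⟩ * f + ⟨_, memv⟩ * g with he
    have hecoeff : ∀ m, (e : SkewPS K σ).coeff m =
        u * (f : SkewPS K σ).coeff m + v * (g : SkewPS K σ).coeff m := by
      intro m
      rw [he]
      simp only [Subring.coe_add, Subring.coe_mul, coeff_add, coeff_const_mul]
    have heord : (e : SkewPS K σ).OrdGE n := by
      intro i hi
      rw [hecoeff, hf i hi, hg i hi, mul_zero, mul_zero, add_zero]
    have hen : (e : SkewPS K σ).coeff n = c := by
      rw [hecoeff, h3]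
      ring
    have hen0 : (e : SkewPS K σ).coeff n ≠ 0 := by
      rw [hen]
      exact hc
    obtain ⟨q1, hq1, hfq⟩ := exists_left_quot_mem (D := D) heord hen0 hf hs
      (by rw [hen, h1]; ring)
    obtain ⟨q2, hq2, hgq⟩ := exists_left_quot_mem (D := D) heord hen0 hg ht
      (by rw [hen, h2]; ring)
    refine ⟨e, ⟨_, memu⟩, ⟨_, memv⟩, ⟨q1, hq1⟩, ⟨q2, hq2⟩, Subtype.ext hfq, Subtype.ext hgq, he⟩
  intro f g
  by_cases hf0 : f = 0
  · exact ⟨g, 0, 1, 0, 1, by simp [hf0], by simp, by simp⟩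
  by_cases hg0 : g = 0
  · exact ⟨f, 1, 0, 1, 0, by simp, by simp [hg0], by simp⟩
  obtain ⟨n, hn, hn'⟩ := exists_ord (f := (f : SkewPS K σ)) (by simpa using hf0)
  obtain ⟨m, hm, hm'⟩ := exists_ord (f := (g : SkewPS K σ)) (by simpa using hg0)
  rcases le_total n m with h | h
  · exact key f g n hn hn' (fun i hi => hm i (lt_of_lt_of_le hi h))
  · obtain ⟨c, u, v, s, t, h1, h2, h3⟩ := key g f m hm hm' (fun i hi => hn i (lt_of_lt_of_le hi h))
    exact ⟨c, v, u, t, s, h2, h1, by rw [add_comm]; exact h3⟩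

end SkewPS

end Pool.Agent.Helper29
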