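import Mathlib
import Pool.Agent.Helper29.RDDefs

/-!
RD-purity and purity for right modules, and a criterion for a ring not to be an RD ring.
Right `R`-modules are modules over `Rᵐᵒᵖ`; the product `b·r` is `MulOpposite.op r • b`.
-/

namespace Pool.Agent.Helper29

open Finset MulOpposite

section criterion

variable {R : Type*} [Ring R]

/-- the map `t ↦ m·t` -/
def spanMap {M : Type*} [AddCommGroup M] [Module Rᵐᵒᵖ M] (m : M) : R →ₗ[Rᵐᵒᵖ] M where
  toFun t := op t • m
  map_add' a b := by rw [op_add, add_smul]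
  map_smul' c t := by
    rw [RingHom.id_apply, ← mul_smul]
    rfl

theorem spanMap_apply {M : Type*} [AddCommGroup M] [Module Rᵐᵒᵖ M] (m : M) (t : R) :
    spanMap m t = op t • m := rfl

/-- the right module generated by two elements `e₀, e₁` with relations
`e₀ x = 0`, `e₀ y + e₁ x = 0`, as a quotient of `R²` by the following submodule. -/
def relMod (x y : R) : Submodule Rᵐᵒᵖ (R × R) where
  carrier := {w | ∃ v0 v1 : R, w = (x * v0 + y * v1, x * v1)}
  add_mem' := by
    rintro _ _ ⟨v0, v1, rfl⟩ ⟨u0, u1, rfl⟩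
    refine ⟨v0 + u0, v1 + u1, ?_⟩
    ext
    · simp only [Prod.mk_add_mk, mul_add]; abel
    · simp only [Prod.mk_add_mk, mul_add]
  zero_mem' := ⟨0, 0, by simp only [mul_zero, add_zero]; rfl⟩
  smul_mem' := by
    rintro c _ ⟨v0, v1, rfl⟩
    refine ⟨v0 * c.unop, v1 * c.unop, ?_⟩
    ext
    · simp [mul_assoc]
    · simp [mul_assoc]

variable {M : Type*} [AddCommGroup M] [Module Rᵐᵒᵖ M]

/-- index set: pairs `(r, m)` with `m·r = 0` -/
def Idx (R : Type*) [Ring R] (M : Type*) [AddCommGroup M] [Module Rᵐᵒᵖ M] : Type _ :=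
  {l : R × M // op l.1 • l.2 = 0}

/-- the relations `⊕ r R` inside the free module on the index set -/
def relN (R : Type*) [Ring R] (M : Type*) [AddCommGroup M] [Module Rᵐᵒᵖ M] :
    Submodule Rᵐᵒᵖ (Idx R M →₀ R) where
  carrier := {f | ∀ l : Idx R M, ∃ t : R, f l = l.1.1 * t}
  add_mem' := by
    intro f g hf hg l
    obtain ⟨t, ht⟩ := hf l
    obtain ⟨u, hu⟩ := hg l
    exact ⟨t + u, by rw [Finsupp.add_apply, ht, hu, mul_add]⟩
  zero_mem' := fun l => ⟨0, by simp⟩
  smul_mem' := by
    intro c f hf l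
    obtain ⟨t, ht⟩ := hf l
    exact ⟨t * c.unop, by rw [Finsupp.smul_apply, ht, ← mul_assoc]; rfl⟩

/-- the map from the free module on the index set to `M` -/
noncomputable def phi (R : Type*) [Ring R] (M : Type*) [AddCommGroup M] [Module Rᵐᵒᵖ M] :
    (Idx R M →₀ R) →ₗ[Rᵐᵒᵖ] M :=
  Finsupp.lsum ℕ (fun l : Idx R M => spanMap (R := R) l.1.2)

theorem phi_apply (f : Idx R M →₀ R) :
    phi R M f = f.sum (fun l t => op t • l.1.2) := by
  rw [phi, Finsupp.lsum_apply]
  rfl

theorem phi_single (l : Idx R M) (t : R) :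
    phi R M (Finsupp.single l t) = op t • l.1.2 := by
  rw [phi, Finsupp.lsum_single]
  rfl

theorem relN_le_ker : relN R M ≤ LinearMap.ker (phi R M) := by
  intro f hf
  rw [LinearMap.mem_ker, phi_apply]
  apply Finset.sum_eq_zero
  intro l _
  obtain ⟨t, ht⟩ := hf l
  show op (f l) • l.1.2 = 0
  rw [ht, op_mul, mul_smul, l.2, smul_zero]

/-- the canonical map from `⊕ R/rR` to `M` -/
noncomputable def can (R : Type*) [Ring R] (M : Type*) [AddCommGroup M] [Module Rᵐᵒᵖ M] :
    ((Idx R M →₀ R) ⧸ relN R M) →ₗ[Rᵐᵒᵖ] M :=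
  (relN R M).liftQ (phi R M) relN_le_ker

theorem can_mk (f : Idx R M →₀ R) : can R M (Submodule.Quotient.mk f) = phi R M f :=
  Submodule.liftQ_apply _ _ _

theorem isRDPure_ker_can : IsRDPure (LinearMap.ker (can R M)) := by
  classical
  intro r
  ext z
  constructor
  · rintro ⟨a, ha, rfl⟩
    exact ⟨Submodule.smul_mem _ _ ha, a, rfl⟩
  · rintro ⟨hz, b, rfl⟩
    rw [LinearMap.mem_ker, map_smul] at hz
    let l : Idx R M := ⟨(r, can R M b), hz⟩
    refine ⟨b - Submodule.Quotient.mk (Finsupp.single l 1), ?_, ?_⟩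
    · rw [LinearMap.mem_ker, map_sub, can_mk, phi_single, op_one, one_smul, sub_self]
    · rw [smul_sub]
      have : (op r : Rᵐᵒᵖ) • (Submodule.Quotient.mk (Finsupp.single l (1 : R)) :
          (Idx R M →₀ R) ⧸ relN R M) = 0 := by
        rw [← Submodule.Quotient.mk_smul, Submodule.Quotient.mk_eq_zero]
        intro l'
        by_cases h : l' = l
        · subst h
          refine ⟨1, ?_⟩
          rw [Finsupp.smul_apply, Finsupp.single_eq_same]
          simp [l]
        · refine ⟨0, ?_⟩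
          rw [Finsupp.smul_apply, Finsupp.single_apply, if_neg (Ne.symm h)]
          simp
      rw [this, sub_zero]

/-- If a certain no-rank-one-projection condition holds then `R` is not an RD ring. -/
theorem not_isRDRing_of {F : Type*} [AddCommGroup F] (e : R →+ F) (he1 : e 1 ≠ 0) (x y : R)
    (hx : ∀ u, e (x * u) = 0) (hy : ∀ u, e (y * u) = 0)
    (H : ∀ h0 h1 s0 s1 r w0 w1 z0 z1 : R, s0 * x = r * w0 → s0 * y + s1 * x = r * w1 →
      h0 * r = x * z0 + y * z1 → h1 * r = x * z1 → e (h0 * s0) = 0) :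
    ¬ ∀ A : Submodule Rᵐᵒᵖ ((Idx R ((R × R) ⧸ relMod x y) →₀ R) ⧸ relN R ((R × R) ⧸ relMod x y)),
      IsRDPure A → IsPure A := by
  classical
  intro hRD
  set M := (R × R) ⧸ relMod x y with hM
  have hpure := hRD (LinearMap.ker (can R M)) isRDPure_ker_can
  -- the generators of `M`
  let e0 : M := Submodule.Quotient.mk ((1, 0) : R × R)
  let e1 : M := Submodule.Quotient.mk ((0, 1) : R × R)
  have rel0 : op x • e0 = 0 := by
    show op x • (Submodule.Quotient.mk ((1, 0) : R × R) : M) = 0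
    rw [← Submodule.Quotient.mk_smul, Submodule.Quotient.mk_eq_zero]
    exact ⟨1, 0, by simp⟩
  have rel1 : op y • e0 + op x • e1 = 0 := by
    show op y • (Submodule.Quotient.mk ((1, 0) : R × R) : M) +
      op x • (Submodule.Quotient.mk ((0, 1) : R × R) : M) = 0
    rw [← Submodule.Quotient.mk_smul, ← Submodule.Quotient.mk_smul, ← Submodule.Quotient.mk_add,
      Submodule.Quotient.mk_eq_zero]
    exact ⟨0, 1, by simp⟩
  -- lifts of the generators
  let l0 : Idx R M := ⟨(0, e0), by simp⟩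
  let l1 : Idx R M := ⟨(0, e1), by simp⟩
  let b0 : (Idx R M →₀ R) ⧸ relN R M := Submodule.Quotient.mk (Finsupp.single l0 1)
  let b1 : (Idx R M →₀ R) ⧸ relN R M := Submodule.Quotient.mk (Finsupp.single l1 1)
  have hb0 : can R M b0 = e0 := by
    show can R M (Submodule.Quotient.mk (Finsupp.single l0 1)) = e0
    rw [can_mk, phi_single, op_one, one_smul]
  have hb1 : can R M b1 = e1 := by
    show can R M (Submodule.Quotient.mk (Finsupp.single l1 1)) = e1
    rw [can_mk, phi_single, op_one, one_smul]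
  -- the system of equations
  have hsol := hpure 2 2 ![![x, y], ![0, x]] ![op x • b0, op y • b0 + op x • b1] (by
      intro j
      fin_cases j
      · show op x • b0 ∈ LinearMap.ker (can R M)
        rw [LinearMap.mem_ker, map_smul, hb0, rel0]
      · show op y • b0 + op x • b1 ∈ LinearMap.ker (can R M)
        rw [LinearMap.mem_ker, map_add, map_smul, map_smul, hb0, hb1, rel1])
    ⟨![b0, b1], by
      intro j
      fin_cases j
      · simp [Fin.sum_univ_two]
      · simp [Fin.sum_univ_two]⟩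
  obtain ⟨a, ha, hsys⟩ := hsol
  have hs0 := hsys 0
  have hs1 := hsys 1
  simp only [Fin.sum_univ_two, Matrix.cons_val_zero, Matrix.cons_val_one, op_zero, zero_smul,
    add_zero] at hs0 hs1
  -- corrected lifts
  obtain ⟨f0, hf0⟩ := Submodule.Quotient.mk_surjective _ (b0 - a 0)
  obtain ⟨f1, hf1⟩ := Submodule.Quotient.mk_surjective _ (b1 - a 1)
  have hc0 : phi R M f0 = e0 := by
    rw [← can_mk, hf0, map_sub, hb0, LinearMap.mem_ker.mp (ha 0), sub_zero]
  have hc1 : phi R M f1 = e1 := by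
    rw [← can_mk, hf1, map_sub, hb1, LinearMap.mem_ker.mp (ha 1), sub_zero]
  have hr0 : (op x : Rᵐᵒᵖ) • f0 ∈ relN R M := by
    rw [← Submodule.Quotient.mk_eq_zero, Submodule.Quotient.mk_smul, hf0, smul_sub, hs0, sub_self]
  have hr1 : (op y : Rᵐᵒᵖ) • f0 + (op x : Rᵐᵒᵖ) • f1 ∈ relN R M := by
    rw [← Submodule.Quotient.mk_eq_zero, Submodule.Quotient.mk_add, Submodule.Quotient.mk_smul,
      Submodule.Quotient.mk_smul, hf0, hf1, smul_sub, smul_sub]
    rw [show op y • b0 - op y • a 0 + (op x • b1 - op x • a 1) =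
      (op y • b0 + op x • b1) - (op y • a 0 + op x • a 1) by abel, hs1, sub_self]
  -- representatives of the elements of `M` in the index set
  have hrep : ∀ l : Idx R M, ∃ h : R × R, (Submodule.Quotient.mk h : M) = l.1.2 :=
    fun l => Submodule.Quotient.mk_surjective _ _
  choose h hh using hrep
  have hcoeff : ∀ l : Idx R M, e ((h l).1 * f0 l) = 0 := by
    intro l
    obtain ⟨w0, hw0⟩ := hr0 l
    obtain ⟨w1, hw1⟩ := hr1 l
    obtain ⟨z0, z1, hz0, hz1⟩ : ∃ z0 z1 : R,
        (h l).1 * l.1.1 = x * z0 + y * z1 ∧ (h l).2 * l.1.1 = x * z1 := by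
      have h3 := l.2
      rw [← hh l, ← Submodule.Quotient.mk_smul, Submodule.Quotient.mk_eq_zero] at h3
      obtain ⟨z0, z1, hz⟩ := h3
      exact ⟨z0, z1, congrArg Prod.fst hz, congrArg Prod.snd hz⟩
    exact H (h l).1 (h l).2 (f0 l) (f1 l) l.1.1 w0 w1 z0 z1 hw0 hw1 hz0 hz1
  -- the first generator
  have hfin : ((1, 0) : R × R) - f0.sum (fun l t => op t • h l) ∈ relMod x y := by
    rw [← Submodule.Quotient.mk_eq_zero, Submodule.Quotient.mk_sub]
    have : (Submodule.Quotient.mk (f0.sum (fun l t => (op t : Rᵐᵒᵖ) • h l)) : M) = e0 := by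
      rw [← hc0, phi_apply]
      show (relMod x y).mkQ _ = _
      rw [Finsupp.sum, map_sum]
      apply Finset.sum_congr rfl
      intro l _
      rw [map_smul]
      show op (f0 l) • (Submodule.Quotient.mk (h l) : M) = _
      rw [hh l]
    rw [this, sub_self]
  obtain ⟨v0, v1, hv⟩ := hfin
  have hv1 := congrArg Prod.fst hv
  simp only [Prod.fst_sub] at hv1
  have hsum : (f0.sum (fun l t => (op t : Rᵐᵒᵖ) • h l)).1 = ∑ l ∈ f0.support, (h l).1 * f0 l := by
    rw [Finsupp.sum, Prod.fst_sum]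
    rfl
  rw [hsum] at hv1
  apply he1
  have h1 : (1 : R) = x * v0 + y * v1 + ∑ l ∈ f0.support, (h l).1 * f0 l := by
    rw [← hv1]; abel
  rw [h1, map_add, map_add, hx, hy, map_sum, Finset.sum_eq_zero (fun l _ => hcoeff l)]
  simp

end criterion

end Pool.Agent.Helper29
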