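import Mathlib
import Pool.Agent.Helper29.SkewPS
import Pool.Agent.Helper29.BezoutPullback
import Pool.Agent.Helper29.RDPurity

/-!
The field `K = ℚ(y)` with the automorphism `y ↦ 1/y`, its subring `D = ℚ[y]`, and the ring
`R = D + K x + K x² + ⋯ ⊆ K[[x;σ]]`.
-/

namespace Pool.Agent.Helper29

open Polynomial LaurentPolynomial

theorem toLaurent_coeff_nat (P : ℚ[X]) (n : ℕ) : (toLaurent P).coeff (n : ℤ) = P.coeff n := by
  rw [coeff_toLaurent]
  exact Finsupp.mapDomain_apply Nat.castEmbedding.injective _ n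

theorem toLaurent_coeff_neg (P : ℚ[X]) (n : ℕ) :
    (toLaurent P).coeff (-((n + 1 : ℕ) : ℤ)) = 0 := by
  rw [coeff_toLaurent]
  apply Finsupp.mapDomain_of_notMem_range
  rintro ⟨m, hm⟩
  have h2 : ((m : ℕ) : ℤ) = -((n + 1 : ℕ) : ℤ) := hm
  omega

theorem const_of_eq_invert {P C : ℚ[X]} (h : toLaurent P = invert (toLaurent C)) :
    P = Polynomial.C (P.coeff 0) := by
  ext n
  rcases n with _ | n
  · simp
  · rw [← toLaurent_coeff_nat, h, invert_apply, toLaurent_coeff_neg, Polynomial.coeff_C]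
    simp

theorem const_of_eq_invert' {P C : ℚ[X]} (h : toLaurent P = invert (toLaurent C)) :
    C = Polynomial.C (P.coeff 0) := by
  have h2 : toLaurent C = invert (toLaurent P) := by
    rw [h, involutive_invert]
  have h3 := const_of_eq_invert h2
  have h4 : C.coeff 0 = P.coeff 0 := by
    have h5 := toLaurent_coeff_nat C 0
    have h6 := toLaurent_coeff_nat P 0
    rw [← h5, ← h6, h2, invert_apply]
    simp
  rw [← h4]
  exact h3

/-- The field of fractions of the Laurent polynomial ring, i.e. the rational function field. -/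
abbrev KK : Type := FractionRing ℚ[T;T⁻¹]

/-- The automorphism `y ↦ 1/y` of the rational function field. -/
noncomputable def sig : RingAut KK :=
  IsFractionRing.ringEquivOfRingEquiv (invert (R := ℚ)).toRingEquiv

theorem sig_algebraMap (l : ℚ[T;T⁻¹]) :
    sig (algebraMap ℚ[T;T⁻¹] KK l) = algebraMap ℚ[T;T⁻¹] KK (invert l) :=
  IsFractionRing.ringEquivOfRingEquiv_algebraMap _ _

/-- The inclusion of polynomials. -/
noncomputable def inc : ℚ[X] →+* KK := (algebraMap ℚ[T;T⁻¹] KK).comp toLaurent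

theorem inc_apply (P : ℚ[X]) : inc P = algebraMap ℚ[T;T⁻¹] KK (toLaurent P) := rfl

theorem algebraMap_inj {a b : ℚ[T;T⁻¹]} :
    algebraMap ℚ[T;T⁻¹] KK a = algebraMap ℚ[T;T⁻¹] KK b ↔ a = b :=
  (IsFractionRing.injective ℚ[T;T⁻¹] KK).eq_iff

theorem inc_injective : Function.Injective inc := by
  intro a b h
  rw [inc_apply, inc_apply, algebraMap_inj] at h
  exact toLaurent_injective h

/-- The subring `ℚ[y]` of `ℚ(y)`. -/
noncomputable def DD : Subring KK := inc.range

theorem exists_frac (a : KK) : ∃ P Q : ℚ[X], Q ≠ 0 ∧ a = inc P / inc Q := by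
  obtain ⟨l, m, hm, rfl⟩ := IsFractionRing.div_surjective (A := ℚ[T;T⁻¹]) a
  obtain ⟨n, P, hP⟩ := exists_T_pow l
  obtain ⟨k, Q, hQ⟩ := exists_T_pow m
  have hm0 : m ≠ 0 := nonZeroDivisors.ne_zero hm
  have hT : ∀ j : ℤ, (T j : ℚ[T;T⁻¹]) ≠ 0 := fun j => (isUnit_T j).ne_zero
  have hQ0 : Q ≠ 0 := by
    rw [← toLaurent_ne_zero, hQ]
    exact mul_ne_zero hm0 (hT _)
  refine ⟨P * X ^ k, Q * X ^ n, mul_ne_zero hQ0 (pow_ne_zero _ X_ne_zero), ?_⟩
  have hA : ∀ {z : ℚ[T;T⁻¹]}, z ≠ 0 → algebraMap ℚ[T;T⁻¹] KK z ≠ 0 := by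
    intro z hz
    rw [← map_zero (algebraMap ℚ[T;T⁻¹] KK), Ne, algebraMap_inj]
    exact hz
  have e1 : toLaurent (P * X ^ k) = l * T n * T k := by
    rw [map_mul, hP, toLaurent_X_pow]
  have e2 : toLaurent (Q * X ^ n) = m * T k * T n := by
    rw [map_mul, hQ, toLaurent_X_pow]
  rw [inc_apply, inc_apply, e1, e2,
    div_eq_div_iff (hA hm0) (hA (mul_ne_zero (mul_ne_zero hm0 (hT _)) (hT _))), ← map_mul,
    ← map_mul]
  congr 1
  ring

theorem fracBezout_DD : SkewPS.FracBezout DD := by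
  intro a b
  obtain ⟨P, Q, hQ, rfl⟩ := exists_frac a
  obtain ⟨P', Q', hQ', rfl⟩ := exists_frac b
  have hq : inc Q ≠ 0 := by
    rw [← map_zero inc]; exact fun h => hQ (inc_injective h)
  have hq' : inc Q' ≠ 0 := by
    rw [← map_zero inc]; exact fun h => hQ' (inc_injective h)
  set A := P * Q' with hA
  set B := P' * Q with hB
  set g := EuclideanDomain.gcd A B with hg
  obtain ⟨s, hs⟩ := EuclideanDomain.gcd_dvd_left A B
  obtain ⟨t, ht⟩ := EuclideanDomain.gcd_dvd_right A B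
  have hgab := EuclideanDomain.gcd_eq_gcd_ab A B
  refine ⟨inc g / (inc Q * inc Q'), inc (EuclideanDomain.gcdA A B), inc (EuclideanDomain.gcdB A B),
    inc s, inc t, ⟨_, rfl⟩, ⟨_, rfl⟩, ⟨_, rfl⟩, ⟨_, rfl⟩, ?_, ?_, ?_⟩
  · have : inc P * inc Q' = inc g * inc s := by
      rw [← map_mul, ← map_mul, ← hA, ← hs]
    field_simp
    linear_combination this
  · have : inc P' * inc Q = inc g * inc t := by
      rw [← map_mul, ← map_mul, ← hB, ← ht]
    field_simp
    linear_combination this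
  · have : inc g = inc P * inc Q' * inc (EuclideanDomain.gcdA A B) +
        inc P' * inc Q * inc (EuclideanDomain.gcdB A B) := by
      rw [← map_mul, ← map_mul, ← map_mul, ← map_mul, ← map_add, ← hA, ← hB, ← hgab]
    field_simp
    linear_combination this

/-- The element `1/(y-1)`. -/
noncomputable def ff : KK := (algebraMap ℚ[T;T⁻¹] KK (T 1 - 1))⁻¹

theorem T_sub_one_ne : (T 1 - 1 : ℚ[T;T⁻¹]) ≠ 0 := by
  rw [← T_zero, ← toLaurent_X, sub_ne_zero]
  intro h
  have h1 : toLaurent (X : ℚ[X]) = toLaurent (1 : ℚ[X]) := by rw [h, toLaurent_one, T_zero]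
  exact X_ne_C (R := ℚ) 1 (by simpa using toLaurent_injective h1)

theorem ff_mul : ff * algebraMap ℚ[T;T⁻¹] KK (T 1 - 1) = 1 := by
  apply inv_mul_cancel₀
  rw [← map_zero (algebraMap ℚ[T;T⁻¹] KK), Ne, algebraMap_inj]
  exact T_sub_one_ne

/-- evaluation at `y = 1` -/
noncomputable def evOne : ℚ[T;T⁻¹] →+* ℚ := LaurentPolynomial.eval₂ (RingHom.id ℚ) (1 : ℚˣ)

theorem evOne_T_sub : evOne (T 1 - 1) = 0 := by
  rw [map_sub, evOne, eval₂_T, map_one]
  simp

theorem evOne_C (a : ℚ) : evOne (LaurentPolynomial.C a) = a := by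
  rw [evOne, LaurentPolynomial.eval₂_C]
  rfl

/-- the key rigidity statement -/
theorem rigid : ∀ p q r s a b c d : KK, p ∈ DD → q ∈ DD → r ∈ DD → s ∈ DD → a ∈ DD → b ∈ DD →
    c ∈ DD → d ∈ DD → p = sig a + ff * sig c → p * ff + q = sig b + ff * sig d →
    r = sig c → r * ff + s = sig d → r = 0 ∧ p = s := by
  rintro _ _ _ _ _ _ _ _ ⟨P, rfl⟩ ⟨Q, rfl⟩ ⟨R, rfl⟩ ⟨S, rfl⟩ ⟨A, rfl⟩ ⟨B, rfl⟩ ⟨C, rfl⟩ ⟨D, rfl⟩
    h1 h2 h3 h4
  have hff := ff_mul
  simp only [inc_apply, sig_algebraMap] at *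
  -- first: `R` is constant and vanishes
  rw [algebraMap_inj] at h3
  have hR := const_of_eq_invert h3
  have e1 : algebraMap ℚ[T;T⁻¹] KK ((T 1 - 1) * (toLaurent P - invert (toLaurent A))) =
      algebraMap ℚ[T;T⁻¹] KK (toLaurent R) := by
    rw [map_mul, map_sub _ (toLaurent P), h1, h3]
    linear_combination (algebraMap ℚ[T;T⁻¹] KK (invert (toLaurent C))) * hff
  rw [algebraMap_inj] at e1
  have e2 := congrArg evOne e1
  rw [map_mul, evOne_T_sub, zero_mul, hR, toLaurent_C, evOne_C] at e2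
  have hR0 : R = 0 := by rw [hR, ← e2, Polynomial.C_0]
  subst hR0
  have hC0 : toLaurent C = 0 := by
    have : invert (toLaurent C) = 0 := by rw [← h3, map_zero]
    have h5 := congrArg invert this
    rwa [involutive_invert, map_zero] at h5
  rw [hC0] at h1
  simp only [map_zero, mul_zero, add_zero, zero_mul, zero_add] at h1 h4
  rw [algebraMap_inj] at h1 h4
  have hP := const_of_eq_invert h1
  have hS := const_of_eq_invert h4
  have e3 : algebraMap ℚ[T;T⁻¹] KK ((T 1 - 1) * (invert (toLaurent B) - toLaurent Q)) =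
      algebraMap ℚ[T;T⁻¹] KK (toLaurent P - toLaurent S) := by
    rw [← h4] at h2
    rw [map_mul, map_sub _ (invert (toLaurent B)), map_sub _ (toLaurent P)]
    linear_combination (algebraMap ℚ[T;T⁻¹] KK (toLaurent P) -
      algebraMap ℚ[T;T⁻¹] KK (toLaurent S)) * hff - algebraMap ℚ[T;T⁻¹] KK (T 1 - 1) * h2
  rw [algebraMap_inj] at e3
  have e4 := congrArg evOne e3
  rw [map_mul, evOne_T_sub, zero_mul, map_sub, hP, hS, toLaurent_C, toLaurent_C, evOne_C,
    evOne_C] at e4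
  refine ⟨by simp, ?_⟩
  rw [hP, hS, show P.coeff 0 = S.coeff 0 by linarith]

end Pool.Agent.Helper29
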