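import Pool.Agent.Helper29.EmbDefs

/-!
An intrinsic characterisation of the posets that order-embed into free lattices: cut systems.
-/

universe u v

namespace Pool.Agent.Helper29.FreeLat

theorem HasCutSystem.embeds {P : Type u} [PartialOrder P] (h : HasCutSystem P) :
    Nonempty (P ↪o FLat (Set P × Set P)) := by
  classical
  obtain ⟨W, hfin, hcut, hW⟩ := h
  let KK : P → Set (Set (Set P × Set P)) := fun p =>
    {K | ∃ (C : Set P) (a : P), C.Finite ∧ IsChain (· ≤ ·) C ∧ IsLeast C a ∧ IsGreatest C p ∧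
      K = {c | (∀ x ∈ C, c ∈ W x) ∧ a ∈ c.1}}
  have hKsub : ∀ p, ∀ K ∈ KK p, K ⊆ W p := by
    rintro p _ ⟨C, a, h1, h2, h3, h4, rfl⟩ c hc
    exact hc.1 p h4.1
  have hKfin : ∀ p, ∀ K ∈ KK p, K.Finite := fun p K hK => (hfin p).subset (hKsub p K hK)
  have hKKfin : ∀ p, (KK p).Finite := fun p => (hfin p).finite_subsets.subset (hKsub p)
  have hmem : ∀ p, ∀ K ∈ KK p, ∃ c ∈ K, p ∈ c.2 := by
    rintro p _ ⟨C, a, h1, h2, h3, h4, rfl⟩
    obtain ⟨c, hc1, hc2, hc3⟩ := hW C a p h1 h2 h3 h4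
    exact ⟨c, ⟨hc1, hc2⟩, hc3⟩
  have hself : ∀ p, {c | (∀ x ∈ ({p} : Set P), c ∈ W x) ∧ p ∈ c.1} ∈ KK p := fun p =>
    ⟨{p}, p, Set.finite_singleton p, IsChain.singleton, isLeast_singleton, isGreatest_singleton, rfl⟩
  have hstep : ∀ p q, p ≤ q → ∀ K ∈ KK p, ∃ K' ∈ KK q, K' ⊆ K := by
    rintro p q hpq _ ⟨C, a, h1, h2, h3, h4, rfl⟩
    refine ⟨_, ⟨insert q C, a, h1.insert q, ?_, ?_, ?_, rfl⟩, ?_⟩
    · exact h2.insert fun x hx _ => Or.inr ((h4.2 hx).trans hpq)
    · refine ⟨Set.mem_insert_of_mem _ h3.1, ?_⟩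
      rintro x (rfl | hx)
      · exact (h3.2 h4.1).trans hpq
      · exact h3.2 hx
    · refine ⟨Set.mem_insert _ _, ?_⟩
      rintro x (rfl | hx)
      · exact le_rfl
      · exact (h4.2 hx).trans hpq
    · rintro c ⟨hc1, hc2⟩
      exact ⟨fun x hx => hc1 x (Set.mem_insert_of_mem _ hx), hc2⟩
  -- meets
  have hmeet : ∀ K : Set (Set P × Set P), K.Finite → K.Nonempty → ∃ z : FLat (Set P × Set P),
      (∀ c ∈ K, z ≤ FLat.of c) ∧ (∀ z', (∀ c ∈ K, z' ≤ FLat.of c) → z' ≤ z) ∧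
      ∀ h : LatticeHom (FLat (Set P × Set P)) Prop, (∀ c ∈ K, h (FLat.of c)) → h z := by
    intro K hK hne
    have hne' : hK.toFinset.Nonempty := by rwa [Set.Finite.toFinset_nonempty]
    refine ⟨hK.toFinset.inf' hne' FLat.of, ?_, ?_, ?_⟩
    · intro c hc
      exact Finset.inf'_le _ (hK.mem_toFinset.2 hc)
    · intro z' hz'
      exact Finset.le_inf' _ _ fun c hc => hz' c (hK.mem_toFinset.1 hc)
    · intro h hh
      refine Finset.inf'_induction hne' (p := fun z => h z) FLat.of ?_ ?_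
      · intro a ha b hb
        rw [map_inf]
        exact ⟨ha, hb⟩
      · exact fun c hc => hh c (hK.mem_toFinset.1 hc)
  have hKne : ∀ p, ∀ K ∈ KK p, K.Nonempty := fun p K hK => by
    obtain ⟨c, hc, _⟩ := hmem p K hK
    exact ⟨c, hc⟩
  let m : Set (Set P × Set P) → FLat (Set P × Set P) := fun K =>
    if hK : K.Finite ∧ K.Nonempty then (hmeet K hK.1 hK.2).choose else FLat.of (∅, ∅)
  have hm : ∀ p, ∀ K ∈ KK p, (∀ c ∈ K, m K ≤ FLat.of c) ∧
      (∀ z', (∀ c ∈ K, z' ≤ FLat.of c) → z' ≤ m K) ∧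
      ∀ h : LatticeHom (FLat (Set P × Set P)) Prop, (∀ c ∈ K, h (FLat.of c)) → h (m K) := by
    intro p K hK
    have h1 : K.Finite ∧ K.Nonempty := ⟨hKfin p K hK, hKne p K hK⟩
    simp only [m, dif_pos h1]
    exact (hmeet K h1.1 h1.2).choose_spec
  have hKKne : ∀ p, (hKKfin p).toFinset.Nonempty := fun p =>
    ⟨_, (hKKfin p).mem_toFinset.2 (hself p)⟩
  let φ : P → FLat (Set P × Set P) := fun p => (hKKfin p).toFinset.sup' (hKKne p) m
  have hφle : ∀ p, ∀ K ∈ KK p, m K ≤ φ p := fun p K hK =>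
    Finset.le_sup' m ((hKKfin p).mem_toFinset.2 hK)
  refine ⟨OrderEmbedding.ofMapLEIff φ fun p q => ⟨fun hpq => ?_, fun hpq => ?_⟩⟩
  · let V : Set P × Set P → Prop := fun c => c ∈ W p ∧ p ∈ c.1
    let h : LatticeHom (FLat (Set P × Set P)) Prop := FLat.lift V
    have h1 : h (φ p) := by
      have h2 : h (m _) := (hm p _ (hself p)).2.2 h fun c hc =>
        (show V c from ⟨hc.1 p rfl, hc.2⟩)
      exact OrderHomClass.mono h (hφle p _ (hself p)) h2
    have h2 : h (φ q) := OrderHomClass.mono h hpq h1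
    by_contra hcon
    refine Finset.sup'_induction (hKKne q) (p := fun z => ¬ h z) m ?_ ?_ h2
    · intro a ha b hb
      rw [map_sup]
      rintro (h3 | h3)
      · exact ha h3
      · exact hb h3
    · intro K hK h3
      have hK' := (hKKfin q).mem_toFinset.1 hK
      obtain ⟨c, hc1, hc2⟩ := hmem q K hK'
      have h4 : h (FLat.of c) := OrderHomClass.mono h ((hm q K hK').1 c hc1) h3
      have h5 : V c := h4
      exact hcon (hcut p c h5.1 p h5.2 q hc2)
  · refine Finset.sup'_le _ _ fun K hK => ?_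
    have hK' := (hKKfin p).mem_toFinset.1 hK
    obtain ⟨K', hK1, hK2⟩ := hstep p q hpq K hK'
    refine le_trans ?_ (hφle q K' hK1)
    exact (hm q K' hK1).2.1 _ fun c hc => (hm p K hK').1 c (hK2 hc)

/-- Closure under the finite cuts. -/
def Reach {Q : Type u} (L U : Q → Finset Q) : Q → Q → Prop :=
  Relation.ReflTransGen fun a b => b ∈ L a ∨ b ∈ U a

theorem reach_finite {Q : Type u} [PartialOrder Q] {r : Q → Q → Prop} {L U : Q → Finset Q}
    (H : FinCuts r L U) (q : Q) : {s | Reach L U q s}.Finite := by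
  induction q using H.wf.induction with
  | _ q ih =>
    have h1 : {s | Reach L U q s} ⊆ {q} ∪ ((⋃ l ∈ (L q : Set Q), {s | Reach L U l s}) ∪
        ⋃ l ∈ (U q : Set Q), {s | Reach L U l s}) := by
      intro s hs
      rcases Relation.ReflTransGen.cases_head_iff.1 hs with h | ⟨l, hl | hl, h⟩
      · exact Or.inl h.symm
      · exact Or.inr (Or.inl (Set.mem_iUnion₂.2 ⟨l, hl, h⟩))
      · exact Or.inr (Or.inr (Set.mem_iUnion₂.2 ⟨l, hl, h⟩))
    refine Set.Finite.subset ((Set.finite_singleton q).union (Set.Finite.union ?_ ?_)) h1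
    · exact (L q).finite_toSet.biUnion fun l hl => ih l (H.L_lt q l hl).1
    · exact (U q).finite_toSet.biUnion fun l hl => ih l (H.U_lt q l hl).1

theorem reach_interp {Q : Type u} [PartialOrder Q] {r : Q → Q → Prop} {L U : Q → Finset Q}
    (H : FinCuts r L U) {p q : Q} (hpq : p ≤ q) :
    ∃ s, Reach L U p s ∧ Reach L U q s ∧ p ≤ s ∧ s ≤ q := by
  let G : Q → Q → Prop := fun a b => ∃ s, Reach L U a s ∧ Reach L U b s ∧ a ≤ s ∧ s ≤ b
  have hrefl : ∀ a, G a a := fun a => ⟨a, .refl, .refl, le_rfl, le_rfl⟩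
  have key : ∀ z, ∀ y, r y z → (y ≤ z → G y z) ∧ (z ≤ y → G z y) := by
    intro z
    induction z using H.wf.induction with
    | _ z ih =>
      have ih' : ∀ a b, r a z → r b z → a ≤ b → G a b := by
        intro a b ha hb hab
        rcases H.tri a b with h1 | h1 | h1
        · exact (ih b hb a h1).1 hab
        · rw [h1]
          exact hrefl b
        · exact (ih a ha b h1).2 hab
      intro y hy
      constructor
      · intro hyz
        obtain ⟨l, hl, hyl⟩ := H.L_cof y z hy hyz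
        obtain ⟨s, h1, h2, h3, h4⟩ := ih' y l hy (H.L_lt z l hl).1 hyl
        exact ⟨s, h1, .head (Or.inl hl) h2, h3, h4.trans (H.L_lt z l hl).2⟩
      · intro hzy
        obtain ⟨x, hx, hxy⟩ := H.U_cof y z hy hzy
        obtain ⟨s, h1, h2, h3, h4⟩ := ih' x y (H.U_lt z x hx).1 hy hxy
        exact ⟨s, .head (Or.inr hx) h1, h2, (H.U_lt z x hx).2.trans h3, h4⟩
  rcases H.tri p q with h1 | h1 | h1
  · exact (key q p h1).1 hpq
  · rw [h1]
    exact hrefl q
  · exact (key p q h1).2 hpq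

theorem reach_chain {Q : Type u} [PartialOrder Q] {r : Q → Q → Prop} {L U : Q → Finset Q}
    (H : FinCuts r L U) : ∀ (n : ℕ) (C : Finset Q) (a b : Q), C.card = n →
      IsChain (· ≤ ·) (C : Set Q) → IsLeast (C : Set Q) a → IsGreatest (C : Set Q) b →
      ∃ s, (∀ x ∈ C, Reach L U x s) ∧ a ≤ s ∧ s ≤ b := by
  classical
  intro n
  induction n with
  | zero =>
    intro C a b h0 _ h1 _
    rw [Finset.card_eq_zero] at h0
    rw [h0] at h1
    exact absurd h1.1 (by simp)
  | succ n ih =>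
    intro C a b hcard hC ha hb
    have hbC : b ∈ C := hb.1
    by_cases hne : (C.erase b).Nonempty
    · obtain ⟨b', hb'⟩ := (C.erase b).exists_maximal hne
      have hb'C : b' ∈ C := Finset.mem_of_mem_erase hb'.1
      have hgr : IsGreatest ((C.erase b : Finset Q) : Set Q) b' := by
        refine ⟨hb'.1, fun x hx => ?_⟩
        rcases hC.total (Finset.mem_of_mem_erase hx) hb'C with h1 | h1
        · exact h1
        · exact hb'.2 hx h1
      have hab : a ≠ b := by
        intro hab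
        refine Finset.ne_of_mem_erase hb'.1 (le_antisymm (hb.2 hb'C) ?_)
        rw [← hab]
        exact ha.2 hb'C
      have ha' : IsLeast ((C.erase b : Finset Q) : Set Q) a :=
        ⟨Finset.mem_erase.2 ⟨hab, ha.1⟩, fun x hx => ha.2 (Finset.mem_of_mem_erase hx)⟩
      obtain ⟨s, hs1, hs2, hs3⟩ := ih (C.erase b) a b'
        (by rw [Finset.card_erase_of_mem hbC, hcard]; rfl)
        (hC.mono fun x hx => Finset.mem_of_mem_erase hx) ha' hgr
      obtain ⟨t, ht1, ht2, ht3, ht4⟩ := reach_interp H (hs3.trans (hb.2 hb'C))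
      refine ⟨t, fun x hx => ?_, hs2.trans ht3, ht4⟩
      by_cases hxb : x = b
      · rw [hxb]
        exact ht2
      · exact (hs1 x (Finset.mem_erase.2 ⟨hxb, hx⟩)).trans ht1
    · rw [Finset.not_nonempty_iff_eq_empty] at hne
      have h1 : ∀ x ∈ C, x = b := by
        intro x hx
        by_contra hxb
        have : x ∈ C.erase b := Finset.mem_erase.2 ⟨hxb, hx⟩
        rw [hne] at this
        exact absurd this (by simp)
      refine ⟨b, fun x hx => ?_, ha.2 hbC, le_rfl⟩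
      rw [h1 x hx]
      exact .refl

theorem EmbedsInOnePointBuilt.hasCutSystem {P : Type u} [PartialOrder P]
    (h : EmbedsInOnePointBuilt P) : HasCutSystem P := by
  classical
  obtain ⟨Q, iQ, ⟨r, L, U, H⟩, ⟨e⟩⟩ := h
  let cut : Q → Set P × Set P := fun s => ({x | e x ≤ s}, {x | s ≤ e x})
  refine ⟨fun p => cut '' {s | Reach L U (e p) s}, fun p => (reach_finite H (e p)).image _, ?_, ?_⟩
  · rintro p _ ⟨s, _, rfl⟩ x hx y hy
    have hx' : e x ≤ s := hx
    have hy' : s ≤ e y := hy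
    exact e.le_iff_le.1 (hx'.trans hy')
  · intro C a b hfin hC ha hb
    have h1 : IsChain (· ≤ ·) ((hfin.toFinset.image e : Finset Q) : Set Q) := by
      rw [Finset.coe_image, Set.Finite.coe_toFinset]
      rintro _ ⟨x, hx, rfl⟩ _ ⟨y, hy, rfl⟩ _
      rcases hC.total hx hy with h | h
      · exact Or.inl (e.le_iff_le.2 h)
      · exact Or.inr (e.le_iff_le.2 h)
    have h2 : IsLeast ((hfin.toFinset.image e : Finset Q) : Set Q) (e a) := by
      rw [Finset.coe_image, Set.Finite.coe_toFinset]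
      refine ⟨⟨a, ha.1, rfl⟩, ?_⟩
      rintro _ ⟨x, hx, rfl⟩
      exact e.le_iff_le.2 (ha.2 hx)
    have h3 : IsGreatest ((hfin.toFinset.image e : Finset Q) : Set Q) (e b) := by
      rw [Finset.coe_image, Set.Finite.coe_toFinset]
      refine ⟨⟨b, hb.1, rfl⟩, ?_⟩
      rintro _ ⟨x, hx, rfl⟩
      exact e.le_iff_le.2 (hb.2 hx)
    obtain ⟨s, hs1, hs2, hs3⟩ := reach_chain H _ _ (e a) (e b) rfl h1 h2 h3
    refine ⟨cut s, fun p hp => ⟨s, ?_, rfl⟩, hs2, hs3⟩
    exact hs1 (e p) (Finset.mem_image.2 ⟨p, hfin.mem_toFinset.2 hp, rfl⟩)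

end Pool.Agent.Helper29.FreeLat
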