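import Pool.Agent.Helper29.FreeDistrib

/-!
The free Boolean algebra on a set, with its universal property.
-/

universe u v w

namespace Pool.Agent.Helper29.FreeLat

/-- Boolean terms over the set `X`. -/
inductive BTerm (X : Type u) : Type u
  | var : X → BTerm X
  | bot : BTerm X
  | compl : BTerm X → BTerm X
  | sup : BTerm X → BTerm X → BTerm X

open FLat

variable {X : Type u}

/-- Evaluation of Boolean terms. -/
def beval {M : Type v} [BooleanAlgebra M] (f : X → M) : BTerm X → M
  | .var x => f x
  | .bot => ⊥
  | .compl a => (beval f a)ᶜ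
  | .sup a b => beval f a ⊔ beval f b

/-- Separation by prime ideals, in the form of valuations. -/
theorem exists_bvaluation {M : Type v} [BooleanAlgebra M] {f : X → M} {s t : BTerm X}
    (h : ¬ beval f s ≤ beval f t) :
    ∃ v : X → Prop, beval v s ∧ ¬ beval v t := by
  have hd : Disjoint ((Order.PFilter.principal (beval f s) : Order.PFilter M) : Set M)
      ((Order.Ideal.principal (beval f t) : Order.Ideal M) : Set M) := by
    rw [Set.disjoint_left]
    intro a ha hb
    exact h ((Order.PFilter.mem_principal.1 ha).trans (Order.Ideal.mem_principal.1 hb))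
  obtain ⟨J, hJ, hJI, hJF⟩ := DistribLattice.prime_ideal_of_disjoint_filter_ideal hd
  refine ⟨fun x => f x ∉ J, ?_⟩
  have hbot : (⊥ : M) ∈ J := J.bot_mem
  have key : ∀ r : BTerm X, beval (fun x => f x ∉ J) r ↔ beval f r ∉ J := by
    intro r
    induction r with
    | var x => exact Iff.rfl
    | bot =>
      change False ↔ (⊥ : M) ∉ J
      tauto
    | compl a iha =>
      change ¬ (beval _ a) ↔ (beval f a)ᶜ ∉ J
      rw [iha, not_not]
      constructor
      · intro h1 h2
        have h3 : (⊤ : M) ∈ J := by
          have := (Order.Ideal.sup_mem_iff (I := J)).2 ⟨h1, h2⟩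
          rwa [sup_compl_eq_top] at this
        exact hJ.toIsProper.top_notMem h3
      · intro h1
        have h2 : (beval f a) ⊓ (beval f a)ᶜ ∈ J := by
          rw [inf_compl_eq_bot]
          exact hbot
        rcases hJ.mem_or_mem h2 with h3 | h3
        · exact h3
        · exact absurd h3 h1
    | sup a b iha ihb =>
      change (beval _ a ∨ beval _ b) ↔ beval f a ⊔ beval f b ∉ J
      rw [iha, ihb, Order.Ideal.sup_mem_iff]
      tauto
  refine ⟨(key s).2 fun h1 => ?_, fun h1 => (key t).1 h1 ?_⟩
  · exact Set.disjoint_left.1 hJF (Order.PFilter.mem_principal.2 le_rfl) h1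
  · exact hJI (Order.Ideal.mem_principal.2 le_rfl)

/-- The truth set of a Boolean term. -/
def truth (t : BTerm X) : Set (Set X) := {v | beval (fun x => x ∈ v) t}

theorem mem_truth {t : BTerm X} {v : Set X} : v ∈ truth t ↔ beval (fun x => x ∈ v) t := Iff.rfl

theorem truth_sup (s t : BTerm X) : truth (.sup s t) = truth s ⊔ truth t := by
  ext v
  exact Iff.rfl

theorem truth_compl (s : BTerm X) : truth (.compl s) = (truth s)ᶜ := by
  ext v
  exact Iff.rfl

theorem truth_bot : truth (.bot : BTerm X) = ⊥ := by
  ext v
  exact Iff.rfl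

/-- The free Boolean algebra, as an algebra of sets of subsets of `X`. -/
def FBool (X : Type u) : BooleanSubalgebra (Set (Set X)) where
  carrier := Set.range truth
  supClosed' := by
    rintro _ ⟨s, rfl⟩ _ ⟨t, rfl⟩
    exact ⟨.sup s t, truth_sup s t⟩
  infClosed' := by
    rintro _ ⟨s, rfl⟩ _ ⟨t, rfl⟩
    refine ⟨.compl (.sup (.compl s) (.compl t)), ?_⟩
    rw [truth_compl, truth_sup, truth_compl, truth_compl, compl_sup, compl_compl, compl_compl]
  compl_mem' := by
    rintro _ ⟨s, rfl⟩
    exact ⟨.compl s, truth_compl s⟩
  bot_mem' := ⟨.bot, truth_bot⟩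

namespace FBool

/-- The class of a term. -/
def mk (t : BTerm X) : FBool X := ⟨truth t, t, rfl⟩

/-- The free generators. -/
def of (x : X) : FBool X := mk (.var x)

theorem mk_surjective : Function.Surjective (mk : BTerm X → FBool X) := by
  rintro ⟨_, t, rfl⟩
  exact ⟨t, rfl⟩

theorem mk_le_mk {M : Type v} [BooleanAlgebra M] (f : X → M) {s t : BTerm X}
    (h : mk s ≤ mk t) : beval f s ≤ beval f t := by
  by_contra h1
  obtain ⟨v, h2, h3⟩ := exists_bvaluation h1
  have h4 : truth s ⊆ truth t := h
  exact h3 (h4 (a := {x | v x}) h2)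

theorem mk_eq_mk {M : Type v} [BooleanAlgebra M] (f : X → M) {s t : BTerm X}
    (h : mk s = mk t) : beval f s = beval f t :=
  le_antisymm (mk_le_mk f h.le) (mk_le_mk f h.ge)

theorem mk_sup (s t : BTerm X) : mk (.sup s t) = mk s ⊔ mk t :=
  Subtype.ext (truth_sup s t)

theorem mk_compl (s : BTerm X) : mk (.compl s) = (mk s)ᶜ :=
  Subtype.ext (truth_compl s)

theorem mk_bot : mk (.bot : BTerm X) = ⊥ := Subtype.ext truth_bot

/-- A chosen term. -/
noncomputable def term (a : FBool X) : BTerm X := (mk_surjective a).choose

theorem mk_term (a : FBool X) : mk (term a) = a := (mk_surjective a).choose_spec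

/-- Universal property, existence. -/
noncomputable def lift {M : Type v} [BooleanAlgebra M] (f : X → M) :
    BoundedLatticeHom (FBool X) M where
  toFun a := beval f (term a)
  map_sup' a b := by
    change _ = beval f (.sup (term a) (term b))
    apply mk_eq_mk
    rw [mk_sup, mk_term, mk_term, mk_term]
  map_inf' a b := by
    have : beval f (.compl (.sup (.compl (term a)) (.compl (term b)))) =
        beval f (term a) ⊓ beval f (term b) := by
      change ((beval f (term a))ᶜ ⊔ (beval f (term b))ᶜ)ᶜ = _
      rw [compl_sup, compl_compl, compl_compl]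
    rw [← this]
    apply mk_eq_mk
    rw [mk_compl, mk_sup, mk_compl, mk_compl, mk_term, mk_term, mk_term, compl_sup, compl_compl,
      compl_compl]
  map_top' := by
    have : beval f (.compl .bot) = (⊤ : M) := by
      change (⊥ : M)ᶜ = ⊤
      exact compl_bot
    rw [← this]
    apply mk_eq_mk
    rw [mk_term, mk_compl, mk_bot, compl_bot]
  map_bot' := by
    change _ = beval f .bot
    apply mk_eq_mk
    rw [mk_term, mk_bot]

theorem lift_mk {M : Type v} [BooleanAlgebra M] (f : X → M) (t : BTerm X) :
    lift f (mk t) = beval f t := mk_eq_mk f (mk_term _)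

theorem lift_of {M : Type v} [BooleanAlgebra M] (f : X → M) (x : X) : lift f (of x) = f x :=
  lift_mk f _

theorem hom_ext {M : Type v} [BooleanAlgebra M] {g h : BoundedLatticeHom (FBool X) M}
    (H : ∀ x, g (of x) = h (of x)) : g = h := by
  ext a
  obtain ⟨a, rfl⟩ := mk_surjective a
  induction a with
  | var x => exact H x
  | bot => rw [mk_bot, map_bot, map_bot]
  | compl a iha => rw [mk_compl, map_compl', map_compl', iha]
  | sup a b iha ihb => rw [mk_sup, map_sup, map_sup, iha, ihb]

/-- The universal property of the free Boolean algebra. -/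
theorem universal {M : Type v} [BooleanAlgebra M] (f : X → M) :
    ∃! g : BoundedLatticeHom (FBool X) M, ∀ x, g (of x) = f x :=
  ⟨lift f, lift_of f, fun g hg => hom_ext fun x => by rw [hg x, lift_of]⟩

end FBool

/-- The set of variables of a term. -/
def bvars [DecidableEq X] : BTerm X → Finset X
  | .var x => {x}
  | .bot => ∅
  | .compl a => bvars a
  | .sup a b => bvars a ∪ bvars b

theorem beval_congr [DecidableEq X] {v w : X → Prop} (a : BTerm X)
    (h : ∀ x ∈ bvars a, v x ↔ w x) : beval v a ↔ beval w a := by
  induction a with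
  | var x => exact h x (Finset.mem_singleton_self x)
  | bot => exact Iff.rfl
  | compl a iha => exact not_congr (iha h)
  | sup a b iha ihb =>
    exact or_congr (iha fun x hx => h x (Finset.mem_union_left _ hx))
      (ihb fun x hx => h x (Finset.mem_union_right _ hx))

/-- The free Boolean algebra consists of sets depending on finitely many coordinates. -/
theorem fBool_embeds (X : Type u) : Nonempty (FBool X ↪o FinDep X) := by
  classical
  refine ⟨OrderEmbedding.ofMapLEIff (fun a : FBool X => (⟨a.1, ?_⟩ : FinDep X)) ?_⟩
  · obtain ⟨t, ht⟩ := a.2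
    exact ⟨bvars t, fun v w h => by
      rw [← ht]
      exact beval_congr t h⟩
  · intro a b
    exact Iff.rfl

/-- The free distributive lattice sits inside the free Boolean algebra. -/
theorem fdLat_embeds_fBool (X : Type u) : Nonempty (FDLat X ↪o FBool X) := by
  refine ⟨OrderEmbedding.ofMapLEIff (FDLat.lift (FBool.of : X → FBool X)) fun a b => ?_⟩
  constructor
  · intro h
    obtain ⟨a, rfl⟩ := FDLat.mk_surjective a
    obtain ⟨b, rfl⟩ := FDLat.mk_surjective b
    intro v hv
    have key : ∀ t : LTerm X, ∀ v : X → Prop, ({x | v x} : Set X) ∈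
        (FDLat.lift (FBool.of : X → FBool X) (FDLat.mk t)).1 ↔ eval v t := by
      intro t v
      induction t with
      | var x => exact Iff.rfl
      | sup a b iha ihb =>
        rw [FDLat.mk_sup, map_sup]
        change (_ ∨ _) ↔ (_ ∨ _)
        rw [← iha, ← ihb]
      | inf a b iha ihb =>
        rw [FDLat.mk_inf, map_inf]
        change (_ ∧ _) ↔ (_ ∧ _)
        rw [← iha, ← ihb]
    have h1 := (key a v).2 hv
    exact (key b v).1 (h h1)
  · intro h
    exact OrderHomClass.mono _ h

end Pool.Agent.Helper29.FreeLat
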