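import Pool.Agent.Helper29.FNEmbed

/-!
Free distributive lattices and the algebra of subsets of `2 ^ X` depending on finitely many
coordinates (the free Boolean algebra).
-/

universe u v w

namespace Pool.Agent.Helper29.FreeLat

open FLat

variable {X : Type u}

/-- Separation by prime ideals, in the form of valuations. -/
theorem exists_valuation {M : Type v} [DistribLattice M] {f : X → M} {s t : LTerm X}
    (h : ¬ eval f s ≤ eval f t) : ∃ v : X → Prop, eval v s ∧ ¬ eval v t := by
  have hd : Disjoint ((Order.PFilter.principal (eval f s) : Order.PFilter M) : Set M)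
      ((Order.Ideal.principal (eval f t) : Order.Ideal M) : Set M) := by
    rw [Set.disjoint_left]
    intro a ha hb
    exact h ((Order.PFilter.mem_principal.1 ha).trans (Order.Ideal.mem_principal.1 hb))
  obtain ⟨J, hJ, hJI, hJF⟩ := DistribLattice.prime_ideal_of_disjoint_filter_ideal hd
  refine ⟨fun x => f x ∉ J, ?_⟩
  have key : ∀ r : LTerm X, eval (fun x => f x ∉ J) r ↔ eval f r ∉ J := by
    intro r
    induction r with
    | var x => exact Iff.rfl
    | sup a b iha ihb =>
      change (eval _ a ∨ eval _ b) ↔ eval f a ⊔ eval f b ∉ J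
      rw [iha, ihb, Order.Ideal.sup_mem_iff]
      tauto
    | inf a b iha ihb =>
      change (eval _ a ∧ eval _ b) ↔ eval f a ⊓ eval f b ∉ J
      rw [iha, ihb]
      constructor
      · rintro ⟨h1, h2⟩ h3
        rcases hJ.mem_or_mem h3 with h4 | h4
        · exact h1 h4
        · exact h2 h4
      · intro h3
        exact ⟨fun h4 => h3 (J.lower inf_le_left h4), fun h4 => h3 (J.lower inf_le_right h4)⟩
  refine ⟨(key s).2 fun h1 => ?_, fun h1 => (key t).1 h1 ?_⟩
  · exact Set.disjoint_left.1 hJF (Order.PFilter.mem_principal.2 le_rfl) h1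
  · exact hJI (Order.Ideal.mem_principal.2 le_rfl)

/-- Semantic equivalence of lattice terms. -/
def dsetoid (X : Type u) : Setoid (LTerm X) where
  r a b := ∀ v : X → Prop, eval v a ↔ eval v b
  iseqv :=
    { refl := fun a v => Iff.rfl
      symm := fun h v => (h v).symm
      trans := fun h1 h2 v => (h1 v).trans (h2 v) }

/-- The free distributive lattice on `X`. -/
def FDLat (X : Type u) : Type u := Quotient (dsetoid X)

namespace FDLat

/-- The class of a term. -/
def mk (a : LTerm X) : FDLat X := Quotient.mk (dsetoid X) a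

/-- The free generators. -/
def of (x : X) : FDLat X := mk (.var x)

theorem mk_surjective : Function.Surjective (mk : LTerm X → FDLat X) := Quotient.exists_rep

instance : DistribLattice (FDLat X) where
  le := Quotient.lift₂ (fun a b => ∀ v : X → Prop, eval v a → eval v b) (by
    intro a b c d h1 h2
    exact propext ⟨fun h v h3 => (h2 v).1 (h v ((h1 v).2 h3)),
      fun h v h3 => (h2 v).2 (h v ((h1 v).1 h3))⟩)
  le_refl := by
    intro a
    obtain ⟨a, rfl⟩ := mk_surjective a
    exact fun v => id
  le_trans := by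
    intro a b c
    obtain ⟨a, rfl⟩ := mk_surjective a
    obtain ⟨b, rfl⟩ := mk_surjective b
    obtain ⟨c, rfl⟩ := mk_surjective c
    exact fun h1 h2 v h3 => h2 v (h1 v h3)
  le_antisymm := by
    intro a b
    obtain ⟨a, rfl⟩ := mk_surjective a
    obtain ⟨b, rfl⟩ := mk_surjective b
    exact fun h1 h2 => Quotient.sound fun v => ⟨h1 v, h2 v⟩
  sup := Quotient.map₂ LTerm.sup (by
    intro a b h c d h' v
    exact or_congr (h v) (h' v))
  inf := Quotient.map₂ LTerm.inf (by
    intro a b h c d h' v
    exact and_congr (h v) (h' v))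
  le_sup_left := by
    intro a b
    obtain ⟨a, rfl⟩ := mk_surjective a
    obtain ⟨b, rfl⟩ := mk_surjective b
    exact fun v h => Or.inl h
  le_sup_right := by
    intro a b
    obtain ⟨a, rfl⟩ := mk_surjective a
    obtain ⟨b, rfl⟩ := mk_surjective b
    exact fun v h => Or.inr h
  sup_le := by
    intro a b c
    obtain ⟨a, rfl⟩ := mk_surjective a
    obtain ⟨b, rfl⟩ := mk_surjective b
    obtain ⟨c, rfl⟩ := mk_surjective c
    exact fun h1 h2 v h => Or.elim h (h1 v) (h2 v)
  inf_le_left := by
    intro a b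
    obtain ⟨a, rfl⟩ := mk_surjective a
    obtain ⟨b, rfl⟩ := mk_surjective b
    exact fun v h => h.1
  inf_le_right := by
    intro a b
    obtain ⟨a, rfl⟩ := mk_surjective a
    obtain ⟨b, rfl⟩ := mk_surjective b
    exact fun v h => h.2
  le_inf := by
    intro a b c
    obtain ⟨a, rfl⟩ := mk_surjective a
    obtain ⟨b, rfl⟩ := mk_surjective b
    obtain ⟨c, rfl⟩ := mk_surjective c
    exact fun h1 h2 v h => ⟨h1 v h, h2 v h⟩
  le_sup_inf := by
    intro a b c
    obtain ⟨a, rfl⟩ := mk_surjective a
    obtain ⟨b, rfl⟩ := mk_surjective b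
    obtain ⟨c, rfl⟩ := mk_surjective c
    intro v h
    have h' : (eval v a ∨ eval v b) ∧ (eval v a ∨ eval v c) := h
    change eval v a ∨ (eval v b ∧ eval v c)
    tauto

theorem mk_sup (a b : LTerm X) : mk (.sup a b) = mk a ⊔ mk b := rfl

theorem mk_inf (a b : LTerm X) : mk (.inf a b) = mk a ⊓ mk b := rfl

/-- The homomorphism given by the universal property. -/
def lift {M : Type v} [DistribLattice M] (f : X → M) : LatticeHom (FDLat X) M where
  toFun := Quotient.lift (eval f) (by
    intro a b h
    refine le_antisymm ?_ ?_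
    · by_contra h1
      obtain ⟨v, h2, h3⟩ := exists_valuation h1
      exact h3 ((h v).1 h2)
    · by_contra h1
      obtain ⟨v, h2, h3⟩ := exists_valuation h1
      exact h3 ((h v).2 h2))
  map_sup' := by
    intro a b
    obtain ⟨a, rfl⟩ := mk_surjective a
    obtain ⟨b, rfl⟩ := mk_surjective b
    rfl
  map_inf' := by
    intro a b
    obtain ⟨a, rfl⟩ := mk_surjective a
    obtain ⟨b, rfl⟩ := mk_surjective b
    rfl

theorem lift_of {M : Type v} [DistribLattice M] (f : X → M) (x : X) :
    lift f (of x) = f x := rfl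

theorem hom_ext {M : Type v} [DistribLattice M] {g h : LatticeHom (FDLat X) M}
    (H : ∀ x, g (of x) = h (of x)) : g = h := by
  ext a
  obtain ⟨a, rfl⟩ := mk_surjective a
  induction a with
  | var x => exact H x
  | sup a b iha ihb => rw [mk_sup, map_sup, map_sup, iha, ihb]
  | inf a b iha ihb => rw [mk_inf, map_inf, map_inf, iha, ihb]

/-- The universal property of the free distributive lattice. -/
theorem universal {M : Type v} [DistribLattice M] (f : X → M) :
    ∃! g : LatticeHom (FDLat X) M, ∀ x, g (of x) = f x :=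
  ⟨lift f, lift_of f, fun g hg => hom_ext fun x => by rw [hg x, lift_of]⟩

end FDLat

/-- A set `A` of subsets of `X` depends only on the coordinates in `F`. -/
def DependsOn (A : Set (Set X)) (F : Finset X) : Prop :=
  ∀ v w : Set X, (∀ x ∈ F, x ∈ v ↔ x ∈ w) → (v ∈ A ↔ w ∈ A)

/-- The free Boolean algebra on `X`: the sets of subsets of `X` that depend on finitely
many coordinates, ordered by inclusion. -/
def FinDep (X : Type u) : Type u := {A : Set (Set X) // ∃ F : Finset X, DependsOn A F}

instance : PartialOrder (FinDep X) := inferInstanceAs (PartialOrder {A : Set (Set X) // _})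

theorem DependsOn.mono {A : Set (Set X)} {F G : Finset X} (h : DependsOn A F) (hFG : F ⊆ G) :
    DependsOn A G := fun v w hvw => h v w fun x hx => hvw x (hFG hx)

theorem finite_dependsOn (F : Finset X) : {A : FinDep X | DependsOn A.1 F}.Finite := by
  classical
  have : Set.InjOn (fun A : FinDep X => {G : Finset X | G ∈ F.powerset ∧ (G : Set X) ∈ A.1})
      {A : FinDep X | DependsOn A.1 F} := by
    intro A hA B hB hAB
    rw [Set.mem_ofPred_eq] at hA hB
    refine Subtype.ext (Set.ext fun v => ?_)
    have h1 : (v ∈ A.1 ↔ ((F.filter (· ∈ v) : Finset X) : Set X) ∈ A.1) := hA _ _ (by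
      intro x hx
      simp [hx])
    have h2 : (v ∈ B.1 ↔ ((F.filter (· ∈ v) : Finset X) : Set X) ∈ B.1) := hB _ _ (by
      intro x hx
      simp [hx])
    rw [h1, h2]
    have h3 := Set.ext_iff.1 hAB (F.filter (· ∈ v))
    rw [Set.mem_ofPred_eq, Set.mem_ofPred_eq, Finset.mem_powerset] at h3
    simpa [Finset.filter_subset] using h3
  refine Set.Finite.of_finite_image ?_ this
  refine (Set.Finite.finite_subsets (F.powerset.finite_toSet)).subset ?_
  rintro _ ⟨A, _, rfl⟩
  intro G hG
  exact (Set.mem_ofPred.1 hG).1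

theorem finDep_FN (X : Type u) : FNProp (FinDep X) := by
  classical
  choose F hF using fun A : FinDep X => A.2
  refine ⟨fun A => {B | DependsOn B.1 (F A)}, fun A => finite_dependsOn (F A), ?_⟩
  intro A B hAB
  let C : Set (Set X) := {v | ∃ w ∈ A.1, ∀ x ∈ F A ∩ F B, x ∈ v ↔ x ∈ w}
  have hC : DependsOn C (F A ∩ F B) := by
    intro v w hvw
    constructor
    · rintro ⟨z, hz, h⟩
      exact ⟨z, hz, fun x hx => (hvw x hx).symm.trans (h x hx)⟩
    · rintro ⟨z, hz, h⟩
      exact ⟨z, hz, fun x hx => (hvw x hx).trans (h x hx)⟩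
  refine ⟨⟨C, _, hC⟩, ?_, ?_, ?_, ?_⟩
  · exact Set.mem_ofPred.2 (hC.mono Finset.inter_subset_left)
  · exact Set.mem_ofPred.2 (hC.mono Finset.inter_subset_right)
  · intro v hv
    exact ⟨v, hv, fun x _ => Iff.rfl⟩
  · rintro v ⟨w, hw, h⟩
    let z : Set X := {x | (x ∈ F A ∧ x ∈ w) ∨ (x ∉ F A ∧ x ∈ v)}
    have hz1 : z ∈ A.1 := (hF A z w fun x hx => by
      simp only [z, Set.mem_ofPred_eq]
      tauto).2 hw
    have hz2 : z ∈ B.1 := hAB hz1
    refine (hF B z v fun x hx => ?_).1 hz2
    by_cases hxA : x ∈ F A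
    · have := h x (Finset.mem_inter.2 ⟨hxA, hx⟩)
      simp only [z, Set.mem_ofPred_eq]
      tauto
    · simp only [z, Set.mem_ofPred_eq]
      tauto

theorem FNProp.exists_finDep {Q : Type u} [PartialOrder Q] (h : OnePointBuilt Q) :
    Nonempty (Q ↪o FLat Q) ∧ Nonempty (Q ↪o FDLat Q) := by
  obtain ⟨r, L, U, H⟩ := h
  constructor
  · obtain ⟨φ, h1, h2⟩ := exists_map H (FLat.of : Q → FLat Q)
    refine ⟨OrderEmbedding.ofMapLEIff φ fun p q => ⟨fun hpq => ?_, h1 p q⟩⟩
    let W : Set Q := {q | p ≤ q}
    have h3 := h2 (FLat.lift fun q => q ∈ W) W (fun a ha b hab => le_trans ha hab) (fun q => rfl)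
    have h4 : (FLat.lift fun q => q ∈ W) (φ p) ≤ (FLat.lift fun q => q ∈ W) (φ q) :=
      OrderHomClass.mono _ hpq
    rw [h3, h3] at h4
    exact h4 le_rfl
  · obtain ⟨φ, h1, h2⟩ := exists_map H (FDLat.of : Q → FDLat Q)
    refine ⟨OrderEmbedding.ofMapLEIff φ fun p q => ⟨fun hpq => ?_, h1 p q⟩⟩
    let W : Set Q := {q | p ≤ q}
    have h3 := h2 (FDLat.lift fun q => q ∈ W) W (fun a ha b hab => le_trans ha hab)
      (fun q => rfl)
    have h4 : (FDLat.lift fun q => q ∈ W) (φ p) ≤ (FDLat.lift fun q => q ∈ W) (φ q) :=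
      OrderHomClass.mono _ hpq
    rw [h3, h3] at h4
    exact h4 le_rfl

/-- The set of variables of a term. -/
def vars [DecidableEq X] : LTerm X → Finset X
  | .var x => {x}
  | .sup a b => vars a ∪ vars b
  | .inf a b => vars a ∪ vars b

theorem eval_congr [DecidableEq X] {v w : X → Prop} (a : LTerm X)
    (h : ∀ x ∈ vars a, v x ↔ w x) : eval v a ↔ eval w a := by
  induction a with
  | var x => exact h x (Finset.mem_singleton_self x)
  | sup a b iha ihb =>
    exact or_congr (iha fun x hx => h x (Finset.mem_union_left _ hx))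
      (ihb fun x hx => h x (Finset.mem_union_right _ hx))
  | inf a b iha ihb =>
    exact and_congr (iha fun x hx => h x (Finset.mem_union_left _ hx))
      (ihb fun x hx => h x (Finset.mem_union_right _ hx))

/-- The free distributive lattice sits inside the free Boolean algebra. -/
theorem fdLat_embeds (X : Type u) : Nonempty (FDLat X ↪o FinDep X) := by
  classical
  let g : LTerm X → FinDep X := fun a =>
    ⟨{v : Set X | eval (fun x => x ∈ v) a}, vars a, fun v w h => eval_congr a h⟩
  refine ⟨OrderEmbedding.ofMapLEIff (Quotient.lift g ?_) ?_⟩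
  · intro a b h
    exact Subtype.ext (Set.ext fun v => h fun x => x ∈ v)
  · intro a b
    obtain ⟨a, rfl⟩ := FDLat.mk_surjective a
    obtain ⟨b, rfl⟩ := FDLat.mk_surjective b
    constructor
    · intro h v hv
      exact h (a := {x | v x}) hv
    · intro h v hv
      exact h _ hv

theorem fLat_FN (X : Type u) : FNProp (FLat X) := by
  choose t ht using FLat.mk_surjective (X := X)
  refine ⟨fun q => FLat.lowSet (t q) ∪ FLat.upSet (t q),
    fun q => (FLat.lowSet_finite _).union (FLat.upSet_finite _), ?_⟩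
  intro p q hpq
  rw [← ht p, ← ht q, FLat.mk_le_mk] at hpq
  obtain ⟨r, h1, h2⟩ := FLat.interpolate hpq.wh
  refine ⟨r, Or.inr h1, Or.inl h2, ?_, ?_⟩
  · have := FLat.le_upSet (t p) r h1
    rwa [ht] at this
  · have := FLat.lowSet_le (t q) r h2
    rwa [ht] at this

end Pool.Agent.Helper29.FreeLat
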