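import Pool.Agent.Helper29.AlephOneC
import Pool.Agent.Helper29.FreeDistrib

/-!
Posets without four-element chains: the two-level finite label condition suffices for an
order embedding into a free lattice, in every cardinality.
-/

universe u v w

namespace Pool.Agent.Helper29.FreeLat

open FLat

section lists

variable {M : Type v} [Lattice M] {S : Type w}

theorem foldr_sup_finset_le {x c : M} {s : Finset S} {f : S → M} :
    (s.toList.map f).foldr (fun a b => a ⊔ b) x ≤ c ↔ x ≤ c ∧ ∀ a ∈ s, f a ≤ c := by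
  rw [foldr_sup_le]
  simp

theorem le_foldr_inf_finset {x c : M} {s : Finset S} {f : S → M} :
    c ≤ (s.toList.map f).foldr (fun a b => a ⊓ b) x ↔ c ≤ x ∧ ∀ a ∈ s, c ≤ f a := by
  rw [le_foldr_inf]
  simp

theorem map_foldr_sup (h : LatticeHom M Prop) (x : M) (s : Finset S) (f : S → M) :
    h ((s.toList.map f).foldr (fun a b => a ⊔ b) x) ↔ (h x ∨ ∃ a ∈ s, h (f a)) := by
  have : ∀ l : List S, h ((l.map f).foldr (fun a b => a ⊔ b) x) ↔ (h x ∨ ∃ a ∈ l, h (f a)) := by
    intro l
    induction l with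
    | nil => simp
    | cons a l ih =>
      rw [List.map_cons, List.foldr_cons, map_sup]
      change (h (f a) ∨ _) ↔ _
      rw [ih]
      simp only [List.mem_cons, exists_eq_or_imp]
      tauto
  rw [this]
  simp

theorem map_foldr_inf (h : LatticeHom M Prop) (x : M) (s : Finset S) (f : S → M) :
    h ((s.toList.map f).foldr (fun a b => a ⊓ b) x) ↔ (h x ∧ ∀ a ∈ s, h (f a)) := by
  have : ∀ l : List S, h ((l.map f).foldr (fun a b => a ⊓ b) x) ↔ (h x ∧ ∀ a ∈ l, h (f a)) := by
    intro l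
    induction l with
    | nil => simp
    | cons a l ih =>
      rw [List.map_cons, List.foldr_cons, map_inf]
      change (h (f a) ∧ _) ↔ _
      rw [ih]
      simp only [List.mem_cons, forall_eq_or_imp]
      tauto
  rw [this]
  simp

end lists

/-- A two-level finite label system. -/
structure LabelSys2 (P : Type u) [PartialOrder P] (S : Type v) (T : Type w) extends
    LabelSys P S where
  u : S → Finset T
  l : S → Finset T
  link : ∀ e s t, s ∈ L e → t ∈ U e → ∃ r, r ∈ u s ∧ r ∈ l t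
  sound : ∀ p q s t r, s ∈ U p → t ∈ L q → r ∈ u s → r ∈ l t → p ≤ q

/-- Generators used in the embedding. -/
inductive Gen (P : Type u) (S : Type v) (T : Type w) : Type (max u v w)
  | x : P → Gen P S T
  | w : S → Gen P S T
  | w' : S → Gen P S T
  | y : S → Gen P S T
  | z : T → Gen P S T

theorem LabelSys2.embeds {P : Type u} [PartialOrder P] {S : Type v} {T : Type w}
    (D : LabelSys2 P S T) (hP : ∀ a b c d : P, a < b → b < c → c < d → False) :
    Nonempty (P ↪o FLat (Gen P S T)) := by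
  classical
  -- middle elements and lower elements
  let mid : P → Prop := fun p => (∃ a, a < p) ∧ ∃ b, p < b
  let low : P → Prop := fun p => (¬ ∃ a, a < p) ∧ ∃ b, p < b
  let M := FLat (Gen P S T)
  let X : P → M := fun p => of (.x p)
  let Y : S → M := fun s => of (.y s)
  let Z : T → M := fun r => of (.z r)
  let m : S → M := fun s => ((D.u s).toList.map Z).foldr (fun a b => a ⊓ b) (of (.w s))
  let j : S → M := fun s => ((D.l s).toList.map Z).foldr (fun a b => a ⊔ b) (of (.w' s))
  have hmj : ∀ s t r, r ∈ D.u s → r ∈ D.l t → m s ≤ j t := by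
    intro s t r h1 h2
    exact ((le_foldr_inf_finset.1 le_rfl).2 r h1).trans
      ((foldr_sup_finset_le.1 le_rfl).2 r h2)
  let φ : P → M := fun p =>
    if mid p then
      ((D.L p).toList.map m).foldr (fun a b => a ⊔ b)
        (((D.U p).toList.map j).foldr (fun a b => a ⊓ b) (X p))
    else if low p then
      ((D.U p).toList.map m).foldr (fun a b => a ⊓ b)
        (((D.U p).toList.map Y).foldr (fun a b => a ⊓ b) (X p))
    else
      ((D.L p).toList.map j).foldr (fun a b => a ⊔ b)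
        (((D.L p).toList.map Y).foldr (fun a b => a ⊔ b) (X p))
  have φmid : ∀ p, mid p → φ p = ((D.L p).toList.map m).foldr (fun a b => a ⊔ b)
        (((D.U p).toList.map j).foldr (fun a b => a ⊓ b) (X p)) := by
    intro p h
    simp only [φ, if_pos h]
  have φlow : ∀ p, ¬ mid p → low p → φ p = ((D.U p).toList.map m).foldr (fun a b => a ⊓ b)
        (((D.U p).toList.map Y).foldr (fun a b => a ⊓ b) (X p)) := by
    intro p h h'
    simp only [φ, if_neg h, if_pos h']
  have φtop : ∀ p, ¬ mid p → ¬ low p → φ p = ((D.L p).toList.map j).foldr (fun a b => a ⊔ b)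
        (((D.L p).toList.map Y).foldr (fun a b => a ⊔ b) (X p)) := by
    intro p h h'
    simp only [φ, if_neg h, if_neg h']
  have hmax : ∀ p, ¬ mid p → ¬ low p → ∀ b, ¬ p < b := by
    intro p h1 h2 b hb
    by_cases h : ∃ a, a < p
    · exact h1 ⟨h, b, hb⟩
    · exact h2 ⟨h, b, hb⟩
  have hlowmid : ∀ p, low p → ¬ mid p := fun p h h' => h.1 h'.1
  -- order preservation
  have hmono : ∀ p q, p < q → φ p ≤ φ q := by
    intro p q hpq
    obtain ⟨s, hs1, hs2⟩ := (D.le_iff p q).1 hpq.le
    by_cases hp : mid p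
    · obtain ⟨a, ha⟩ := hp.1
      have hq : ∀ b, ¬ q < b := fun b hb => hP a p q b ha hpq hb
      have hq1 : ¬ mid q := fun h => hq _ h.2.choose_spec
      have hq2 : ¬ low q := fun h => hq _ h.2.choose_spec
      rw [φmid p hp, φtop q hq1 hq2]
      have h1 : j s ≤ ((D.L q).toList.map j).foldr (fun a b => a ⊔ b)
        (((D.L q).toList.map Y).foldr (fun a b => a ⊔ b) (X q)) :=
        (foldr_sup_finset_le.1 le_rfl).2 s hs2
      refine le_trans ?_ h1
      rw [foldr_sup_finset_le]
      refine ⟨(le_foldr_inf_finset.1 le_rfl).2 s hs1, ?_⟩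
      intro t ht
      obtain ⟨r, hr1, hr2⟩ := D.link p t s ht hs1
      exact hmj t s r hr1 hr2
    · have hp' : low p := by
        by_contra h
        exact hmax p hp h q hpq
      rw [φlow p hp hp']
      by_cases hq : mid q
      · rw [φmid q hq]
        exact ((le_foldr_inf_finset.1 le_rfl).2 s hs1).trans
          ((foldr_sup_finset_le.1 le_rfl).2 s hs2)
      · have hq' : ¬ low q := fun h => h.1 ⟨p, hpq⟩
        rw [φtop q hq hq']
        refine ((le_foldr_inf_finset.1 le_rfl).1).trans ?_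
        refine le_trans ?_ ((foldr_sup_finset_le.1 le_rfl).1)
        exact ((le_foldr_inf_finset.1 le_rfl).2 s hs1).trans
          ((foldr_sup_finset_le.1 le_rfl).2 s hs2)
  -- reflection
  refine ⟨OrderEmbedding.ofMapLEIff φ fun p q => ⟨fun hpq => ?_, fun hpq => ?_⟩⟩
  swap
  · rcases hpq.eq_or_lt with h | h
    · rw [h]
    · exact hmono p q h
  by_contra hcon
  let V : Gen P S T → Prop := fun g =>
    match g with
    | .x q => p ≤ q
    | .w s => low p ∧ s ∈ D.U p
    | .w' s => mid p ∧ s ∈ D.U p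
    | .y s => low p ∧ s ∈ D.U p
    | .z r => low p ∧ ∃ s ∈ D.U p, r ∈ D.u s
  let h : LatticeHom M Prop := FLat.lift V
  have hX : ∀ q, h (X q) ↔ p ≤ q := fun q => Iff.rfl
  have hY : ∀ s, h (Y s) ↔ low p ∧ s ∈ D.U p := fun s => Iff.rfl
  have hZ : ∀ r, h (Z r) ↔ low p ∧ ∃ s ∈ D.U p, r ∈ D.u s := fun s => Iff.rfl
  have hm : ∀ s, h (m s) ↔ low p ∧ s ∈ D.U p := by
    intro s
    rw [map_foldr_inf]
    change ((low p ∧ s ∈ D.U p) ∧ _) ↔ _
    constructor
    · exact fun h1 => h1.1
    · exact fun h1 => ⟨h1, fun r hr => (hZ r).2 ⟨h1.1, s, h1.2, hr⟩⟩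
  have hj : ∀ s, h (j s) ↔ (mid p ∧ s ∈ D.U p) ∨
      ∃ r ∈ D.l s, low p ∧ ∃ t ∈ D.U p, r ∈ D.u t := by
    intro s
    rw [map_foldr_sup]
    exact Iff.rfl
  have h1 : h (φ p) := by
    by_cases hp : mid p
    · rw [φmid p hp, map_foldr_sup, map_foldr_inf]
      exact Or.inl ⟨(hX p).2 le_rfl, fun s hs => (hj s).2 (Or.inl ⟨hp, hs⟩)⟩
    · by_cases hp' : low p
      · rw [φlow p hp hp', map_foldr_inf, map_foldr_inf]
        exact ⟨⟨(hX p).2 le_rfl, fun s hs => (hY s).2 ⟨hp', hs⟩⟩, fun s hs => (hm s).2 ⟨hp', hs⟩⟩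
      · rw [φtop p hp hp', map_foldr_sup, map_foldr_sup]
        exact Or.inl (Or.inl ((hX p).2 le_rfl))
  have h2 : ¬ h (φ q) := by
    by_cases hq : mid q
    · rw [φmid q hq, map_foldr_sup, map_foldr_inf]
      rintro (⟨h3, _⟩ | ⟨s, h3, h4⟩)
      · exact hcon h3
      · exact hcon ((D.le_iff p q).2 ⟨s, ((hm s).1 h4).2, h3⟩)
    · by_cases hq' : low q
      · rw [φlow q hq hq', map_foldr_inf, map_foldr_inf]
        rintro ⟨⟨h3, _⟩, _⟩
        exact hcon h3
      · rw [φtop q hq hq', map_foldr_sup, map_foldr_sup]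
        rintro ((h3 | ⟨s, h3, h4⟩) | ⟨s, h3, h4⟩)
        · exact hcon h3
        · exact hcon ((D.le_iff p q).2 ⟨s, ((hY s).1 h4).2, h3⟩)
        · rcases (hj s).1 h4 with ⟨_, h5⟩ | ⟨r, hr, _, t, ht, hrt⟩
          · exact hcon ((D.le_iff p q).2 ⟨s, h5, h3⟩)
          · exact hcon (D.sound p q t s r ht h3 hrt hr)
  have h3 : h (φ p) ≤ h (φ q) := OrderHomClass.mono h hpq
  exact h2 (h3 h1)

/-- Posets without three-element chains: a finite label system suffices. -/
theorem LabelSys.embeds_of_no_three_chain {P : Type u} [PartialOrder P] {S : Type v}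
    (D : LabelSys P S) (hP : ∀ a b c : P, a < b → b < c → False) :
    Nonempty (P ↪o FLat (P ⊕ S)) := by
  classical
  let low : P → Prop := fun p => ∃ b, p < b
  let M := FLat (P ⊕ S)
  let X : P → M := fun p => of (Sum.inl p)
  let Y : S → M := fun s => of (Sum.inr s)
  let φ : P → M := fun p =>
    if low p then ((D.U p).toList.map Y).foldr (fun a b => a ⊓ b) (X p)
    else ((D.L p).toList.map Y).foldr (fun a b => a ⊔ b) (X p)
  have φlow : ∀ p, low p → φ p = ((D.U p).toList.map Y).foldr (fun a b => a ⊓ b) (X p) := by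
    intro p h
    simp only [φ, if_pos h]
  have φtop : ∀ p, ¬ low p → φ p = ((D.L p).toList.map Y).foldr (fun a b => a ⊔ b) (X p) := by
    intro p h
    simp only [φ, if_neg h]
  have hmono : ∀ p q, p < q → φ p ≤ φ q := by
    intro p q hpq
    obtain ⟨s, hs1, hs2⟩ := (D.le_iff p q).1 hpq.le
    have hq : ¬ low q := fun ⟨b, hb⟩ => hP p q b hpq hb
    rw [φlow p ⟨q, hpq⟩, φtop q hq]
    exact ((le_foldr_inf_finset.1 le_rfl).2 s hs1).trans ((foldr_sup_finset_le.1 le_rfl).2 s hs2)
  refine ⟨OrderEmbedding.ofMapLEIff φ fun p q => ⟨fun hpq => ?_, fun hpq => ?_⟩⟩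
  swap
  · rcases hpq.eq_or_lt with h | h
    · rw [h]
    · exact hmono p q h
  by_contra hcon
  let h : LatticeHom M Prop := FLat.lift (fun g => Sum.elim (fun q => p ≤ q) (fun s => s ∈ D.U p ∧ low p) g)
  have hX : ∀ q, h (X q) ↔ p ≤ q := fun q => Iff.rfl
  have hY : ∀ s, h (Y s) ↔ s ∈ D.U p ∧ low p := fun s => Iff.rfl
  have h1 : h (φ p) := by
    by_cases hp : low p
    · rw [φlow p hp, map_foldr_inf]
      exact ⟨(hX p).2 le_rfl, fun s hs => (hY s).2 ⟨hs, hp⟩⟩
    · rw [φtop p hp, map_foldr_sup]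
      exact Or.inl ((hX p).2 le_rfl)
  have h2 : ¬ h (φ q) := by
    by_cases hq : low q
    · rw [φlow q hq, map_foldr_inf]
      rintro ⟨h3, _⟩
      exact hcon h3
    · rw [φtop q hq, map_foldr_sup]
      rintro (h3 | ⟨s, h3, h4⟩)
      · exact hcon h3
      · exact hcon ((D.le_iff p q).2 ⟨s, ((hY s).1 h4).1, h3⟩)
  have h3 : h (φ p) ≤ h (φ q) := OrderHomClass.mono h hpq
  exact h2 (h3 h1)

end Pool.Agent.Helper29.FreeLat
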