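import Pool.Agent.Helper29.PosetDefs
import Pool.Agent.Helper29.FreeBool
import Pool.Agent.Helper29.LowHeight

/-!
Order embeddings into free lattices, free distributive lattices and free Boolean algebras:
definitions by universal properties, and the equivalence of the three notions.
-/

universe u

namespace Pool.Agent.Helper29.FreeLat

theorem FLat.isFree (X : Type u) : IsFreeLattice (FLat.of : X → FLat X) :=
  fun _ _ f => FLat.universal f

theorem FDLat.isFree (X : Type u) : IsFreeDistribLattice (FDLat.of : X → FDLat X) :=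
  fun _ _ f => FDLat.universal f

theorem FBool.isFree (X : Type u) : IsFreeBooleanAlgebra (FBool.of : X → FBool X) :=
  fun _ _ f => FBool.universal f

theorem IsFreeLattice.embeds {X L : Type u} [Lattice L] {ι : X → L} (h : IsFreeLattice ι) :
    Nonempty (L ↪o FLat X) := by
  obtain ⟨g, hg, _⟩ := h (FLat X) FLat.of
  obtain ⟨k, _, hk⟩ := h L ι
  have h1 : (FLat.lift ι).comp g = k := hk _ fun x => by
    rw [LatticeHom.comp_apply, hg, FLat.lift_of]
  have h2 : LatticeHom.id L = k := hk _ fun x => rfl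
  have h3 : ∀ a, FLat.lift ι (g a) = a := fun a => by
    rw [← LatticeHom.comp_apply, h1, ← h2]
    rfl
  refine ⟨OrderEmbedding.ofMapLEIff g fun a b => ⟨fun hab => ?_, fun hab => ?_⟩⟩
  · have := OrderHomClass.mono (FLat.lift ι) hab
    rwa [h3, h3] at this
  · exact OrderHomClass.mono g hab

theorem IsFreeDistribLattice.embeds {X L : Type u} [DistribLattice L] {ι : X → L}
    (h : IsFreeDistribLattice ι) : Nonempty (L ↪o FDLat X) := by
  obtain ⟨g, hg, _⟩ := h (FDLat X) FDLat.of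
  obtain ⟨k, _, hk⟩ := h L ι
  have h1 : (FDLat.lift ι).comp g = k := hk _ fun x => by
    rw [LatticeHom.comp_apply, hg, FDLat.lift_of]
  have h2 : LatticeHom.id L = k := hk _ fun x => rfl
  have h3 : ∀ a, FDLat.lift ι (g a) = a := fun a => by
    rw [← LatticeHom.comp_apply, h1, ← h2]
    rfl
  refine ⟨OrderEmbedding.ofMapLEIff g fun a b => ⟨fun hab => ?_, fun hab => ?_⟩⟩
  · have := OrderHomClass.mono (FDLat.lift ι) hab
    rwa [h3, h3] at this
  · exact OrderHomClass.mono g hab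

theorem IsFreeBooleanAlgebra.embeds {X B : Type u} [BooleanAlgebra B] {ι : X → B}
    (h : IsFreeBooleanAlgebra ι) : Nonempty (B ↪o FBool X) := by
  obtain ⟨g, hg, _⟩ := h (FBool X) FBool.of
  obtain ⟨k, _, hk⟩ := h B ι
  have h1 : (FBool.lift ι).comp g = k := hk _ fun x => by
    rw [BoundedLatticeHom.comp_apply, hg, FBool.lift_of]
  have h2 : BoundedLatticeHom.id B = k := hk _ fun x => rfl
  have h3 : ∀ a, FBool.lift ι (g a) = a := fun a => by
    rw [← BoundedLatticeHom.comp_apply, h1, ← h2]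
    rfl
  refine ⟨OrderEmbedding.ofMapLEIff g fun a b => ⟨fun hab => ?_, fun hab => ?_⟩⟩
  · have := OrderHomClass.mono (FBool.lift ι) hab
    rwa [h3, h3] at this
  · exact OrderHomClass.mono g hab

/-- `P` embeds in a poset with the Freese-Nation property. -/
def EmbedsInFN (P : Type u) [PartialOrder P] : Prop :=
  ∃ (Q : Type u) (_ : PartialOrder Q), FNProp Q ∧ Nonempty (P ↪o Q)

theorem embeds_tfae (P : Type u) [PartialOrder P] :
    List.TFAE [EmbedsInFreeLattice P, EmbedsInFreeDistribLattice P,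
      EmbedsInFreeBooleanAlgebra P, EmbedsInFN P] := by
  tfae_have 1 → 4 := by
    rintro ⟨X, L, iL, ι, hι, ⟨e⟩⟩
    obtain ⟨e'⟩ := hι.embeds
    exact ⟨FLat X, inferInstance, fLat_FN X, ⟨e.trans e'⟩⟩
  tfae_have 4 → 1 := by
    rintro ⟨Q, iQ, hQ, ⟨e⟩⟩
    obtain ⟨e'⟩ := (FNProp.exists_finDep hQ.onePointBuilt).1
    exact ⟨Q, FLat Q, inferInstance, FLat.of, FLat.isFree Q, ⟨e.trans e'⟩⟩
  tfae_have 4 → 2 := by
    rintro ⟨Q, iQ, hQ, ⟨e⟩⟩
    obtain ⟨e'⟩ := (FNProp.exists_finDep hQ.onePointBuilt).2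
    exact ⟨Q, FDLat Q, inferInstance, FDLat.of, FDLat.isFree Q, ⟨e.trans e'⟩⟩
  tfae_have 2 → 3 := by
    rintro ⟨X, L, iL, ι, hι, ⟨e⟩⟩
    obtain ⟨e'⟩ := hι.embeds
    obtain ⟨e''⟩ := fdLat_embeds_fBool X
    exact ⟨X, FBool X, inferInstance, FBool.of, FBool.isFree X, ⟨(e.trans e').trans e''⟩⟩
  tfae_have 3 → 4 := by
    rintro ⟨X, B, iB, ι, hι, ⟨e⟩⟩
    obtain ⟨e'⟩ := hι.embeds
    obtain ⟨e''⟩ := fBool_embeds X
    exact ⟨FinDep X, inferInstance, finDep_FN X, ⟨(e.trans e').trans e''⟩⟩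
  tfae_finish

/-- `P` embeds in a poset that is built by transfinitely adding single points with finitely
generated cuts. -/
def EmbedsInOnePointBuilt (P : Type u) [PartialOrder P] : Prop :=
  ∃ (Q : Type u) (_ : PartialOrder Q), OnePointBuilt Q ∧ Nonempty (P ↪o Q)

theorem embeds_tfae' (P : Type u) [PartialOrder P] :
    List.TFAE [EmbedsInFreeLattice P, EmbedsInFreeDistribLattice P,
      EmbedsInFreeBooleanAlgebra P, EmbedsInFN P, EmbedsInOnePointBuilt P] := by
  have h := embeds_tfae P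
  tfae_have 1 ↔ 2 := h.out 0 1
  tfae_have 1 ↔ 3 := h.out 0 2
  tfae_have 1 ↔ 4 := h.out 0 3
  tfae_have 4 → 5 := by
    rintro ⟨Q, iQ, hQ, e⟩
    exact ⟨Q, iQ, hQ.onePointBuilt, e⟩
  tfae_have 5 → 1 := by
    rintro ⟨Q, iQ, hQ, ⟨e⟩⟩
    obtain ⟨e'⟩ := (FNProp.exists_finDep hQ).1
    exact ⟨Q, FLat Q, inferInstance, FLat.of, FLat.isFree Q, ⟨e.trans e'⟩⟩
  tfae_finish

/-- The one-level label condition: every `p` in `P` has finite sets `U p` and `L p` of labels
such that `p ≤ q` holds iff `U p` meets `L q`. -/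
def OneLevel (P : Type u) [PartialOrder P] : Prop :=
  ∃ (S : Type u) (U L : P → Finset S), ∀ p q, p ≤ q ↔ ∃ s, s ∈ U p ∧ s ∈ L q

/-- The two-level label condition: in addition, labels `s` have finite sets `u s`, `l s` of
labels of a second kind such that `u s` meets `l t` if `s ∈ L e`, `t ∈ U e` for some `e`, and
such that `p ≤ q` whenever `s ∈ U p`, `t ∈ L q` and `u s` meets `l t`. -/
def TwoLevel (P : Type u) [PartialOrder P] : Prop :=
  ∃ (S T : Type u) (U L : P → Finset S) (u l : S → Finset T),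
    (∀ p q, p ≤ q ↔ ∃ s, s ∈ U p ∧ s ∈ L q) ∧
    (∀ e s t, s ∈ L e → t ∈ U e → ∃ r, r ∈ u s ∧ r ∈ l t) ∧
    (∀ p q s t r, s ∈ U p → t ∈ L q → r ∈ u s → r ∈ l t → p ≤ q)

theorem EmbedsInFN.twoLevel {P : Type u} [PartialOrder P] (h : EmbedsInFN P) : TwoLevel P := by
  classical
  obtain ⟨Q, iQ, ⟨f, hfin, hf⟩, ⟨e⟩⟩ := h
  refine ⟨Q, Q, fun p => (hfin (e p)).toFinset.filter (fun s => e p ≤ s),
    fun p => (hfin (e p)).toFinset.filter (fun s => s ≤ e p),
    fun s => (hfin s).toFinset.filter (fun r => s ≤ r),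
    fun s => (hfin s).toFinset.filter (fun r => r ≤ s), ?_, ?_, ?_⟩
  · intro p q
    simp only [Finset.mem_filter, Set.Finite.mem_toFinset]
    constructor
    · intro h
      obtain ⟨r, h1, h2, h3, h4⟩ := hf (e p) (e q) (e.le_iff_le.2 h)
      exact ⟨r, ⟨h1, h3⟩, h2, h4⟩
    · rintro ⟨s, ⟨_, h1⟩, _, h2⟩
      exact e.le_iff_le.1 (h1.trans h2)
  · intro a s t
    simp only [Finset.mem_filter, Set.Finite.mem_toFinset]
    rintro ⟨_, h1⟩ ⟨_, h2⟩
    obtain ⟨r, h3, h4, h5, h6⟩ := hf s t (h1.trans h2)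
    exact ⟨r, ⟨h3, h5⟩, h4, h6⟩
  · intro p q s t r
    simp only [Finset.mem_filter, Set.Finite.mem_toFinset]
    rintro ⟨_, h1⟩ ⟨_, h2⟩ ⟨_, h3⟩ ⟨_, h4⟩
    exact e.le_iff_le.1 (h1.trans (h3.trans (h4.trans h2)))

theorem TwoLevel.oneLevel {P : Type u} [PartialOrder P] (h : TwoLevel P) : OneLevel P := by
  obtain ⟨S, T, U, L, u, l, h1, _, _⟩ := h
  exact ⟨S, U, L, h1⟩

theorem OneLevel.iff_pairCutSystem {P : Type u} [PartialOrder P] :
    OneLevel P ↔ HasPairCutSystem P := by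
  classical
  constructor
  · rintro ⟨S, U, L, h⟩
    refine ⟨fun p => (fun s : S => (({x | s ∈ U x}, {y | s ∈ L y}) : Set P × Set P)) ''
      ((U p ∪ L p : Finset S) : Set S), fun p => (Finset.finite_toSet _).image _, ?_, ?_⟩
    · rintro p _ ⟨s, _, rfl⟩ x hx y hy
      exact (h x y).2 ⟨s, hx, hy⟩
    · intro a b hab
      obtain ⟨s, h1, h2⟩ := (h a b).1 hab
      exact ⟨_, ⟨s, Finset.mem_union_left _ h1, rfl⟩, ⟨s, Finset.mem_union_right _ h2, rfl⟩,
        h1, h2⟩
  · rintro ⟨W, hfin, hcut, hW⟩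
    refine ⟨Set P × Set P, fun p => (hfin p).toFinset.filter fun c => p ∈ c.1,
      fun p => (hfin p).toFinset.filter fun c => p ∈ c.2, fun p q => ?_⟩
    simp only [Finset.mem_filter, Set.Finite.mem_toFinset]
    constructor
    · intro h
      obtain ⟨c, h1, h2, h3, h4⟩ := hW p q h
      exact ⟨c, ⟨h1, h3⟩, h2, h4⟩
    · rintro ⟨c, ⟨h1, h3⟩, _, h4⟩
      exact hcut p c h1 p h3 q h4

/-- Order embeddings into some `FLat X` give `EmbedsInFreeLattice`. -/
theorem EmbedsInFreeLattice.of_fLat {P X : Type u} [PartialOrder P] (h : Nonempty (P ↪o FLat X)) :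
    EmbedsInFreeLattice P := ⟨X, FLat X, inferInstance, FLat.of, FLat.isFree X, h⟩

theorem OneLevel.embeds_of_aleph_one {P : Type u} [PartialOrder P] (h : OneLevel P)
    (hP : Cardinal.mk P ≤ Cardinal.aleph 1) : EmbedsInFreeLattice P := by
  obtain ⟨S, U, L, h1⟩ := h
  obtain ⟨X, hX⟩ := LabelSys.exists_embedding (⟨U, L, h1⟩ : LabelSys P S) hP
  exact EmbedsInFreeLattice.of_fLat hX

theorem OneLevel.embeds_of_no_three_chain {P : Type u} [PartialOrder P] (h : OneLevel P)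
    (hP : ∀ a b c : P, a < b → b < c → False) : EmbedsInFreeLattice P := by
  obtain ⟨S, U, L, h1⟩ := h
  exact EmbedsInFreeLattice.of_fLat
    (LabelSys.embeds_of_no_three_chain (⟨U, L, h1⟩ : LabelSys P S) hP)

theorem TwoLevel.embeds_of_no_four_chain {P : Type u} [PartialOrder P] (h : TwoLevel P)
    (hP : ∀ a b c d : P, a < b → b < c → c < d → False) : EmbedsInFreeLattice P := by
  obtain ⟨S, T, U, L, u, l, h1, h2, h3⟩ := h
  exact EmbedsInFreeLattice.of_fLat
    (LabelSys2.embeds ⟨⟨U, L, h1⟩, u, l, h2, h3⟩ hP)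

end Pool.Agent.Helper29.FreeLat
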