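import Pool.Agent.Helper29.FreeLat

/-!
The Freese-Nation property and order embeddings into free lattices.
-/

universe u v w

namespace Pool.Agent.Helper29.FreeLat

/-- The Freese-Nation property of a partially ordered set: there is a map `f` to finite
subsets such that `p ≤ q` always implies `p ≤ r ≤ q` for some `r` in `f p ∩ f q`. -/
def FNProp (Q : Type u) [PartialOrder Q] : Prop :=
  ∃ f : Q → Set Q, (∀ q, (f q).Finite) ∧
    ∀ p q, p ≤ q → ∃ r, r ∈ f p ∧ r ∈ f q ∧ p ≤ r ∧ r ≤ q

/-- A transfinite enumeration `r` of `Q` (a strict well-order) such that the cut of each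
element `q` over its predecessors is generated by the finite sets `L q`, `U q`. -/
structure FinCuts {Q : Type u} [PartialOrder Q] (r : Q → Q → Prop) (L U : Q → Finset Q) :
    Prop where
  wf : WellFounded r
  tri : ∀ p q, r p q ∨ p = q ∨ r q p
  L_lt : ∀ q, ∀ l ∈ L q, r l q ∧ l ≤ q
  U_lt : ∀ q, ∀ x ∈ U q, r x q ∧ q ≤ x
  L_cof : ∀ p q, r p q → p ≤ q → ∃ l ∈ L q, p ≤ l
  U_cof : ∀ p q, r p q → q ≤ p → ∃ x ∈ U q, x ≤ p

/-- The poset `Q` is obtained by transfinitely adding single points with finitely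
generated cuts. -/
def OnePointBuilt (Q : Type u) [PartialOrder Q] : Prop :=
  ∃ (r : Q → Q → Prop) (L U : Q → Finset Q), FinCuts r L U

section closure

variable {Q : Type u} (f : Q → Set Q)

/-- Iterates of a set-valued map. -/
def layer (q : Q) : ℕ → Set Q
  | 0 => {q}
  | n + 1 => ⋃ r ∈ layer q n, f r

/-- Closure of a point under a set-valued map. -/
def cl (q : Q) : Set Q := ⋃ n, layer f q n

theorem layer_finite (hf : ∀ q, (f q).Finite) (q : Q) (n : ℕ) : (layer f q n).Finite := by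
  induction n with
  | zero => exact Set.finite_singleton q
  | succ n ih => exact ih.biUnion fun r _ => hf r

theorem cl_countable (hf : ∀ q, (f q).Finite) (q : Q) : (cl f q).Countable :=
  Set.countable_iUnion fun n => (layer_finite f hf q n).countable

theorem mem_cl_self (q : Q) : q ∈ cl f q := Set.mem_iUnion.2 ⟨0, rfl⟩

theorem cl_closed {q r s : Q} (hr : r ∈ cl f q) (hs : s ∈ f r) : s ∈ cl f q := by
  obtain ⟨n, hn⟩ := Set.mem_iUnion.1 hr
  exact Set.mem_iUnion.2 ⟨n + 1, Set.mem_iUnion₂.2 ⟨r, hn, hs⟩⟩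

end closure

theorem FNProp.onePointBuilt {Q : Type u} [PartialOrder Q] (h : FNProp Q) :
    OnePointBuilt Q := by
  classical
  obtain ⟨f, hfin, hf⟩ := h
  have hwf : WellFounded (WellOrderingRel : Q → Q → Prop) := IsWellFounded.wf
  have hne : ∀ q : Q, {q' : Q | q ∈ cl f q'}.Nonempty := fun q => ⟨q, mem_cl_self f q⟩
  let ρ : Q → Q := fun q => hwf.min {q' | q ∈ cl f q'} (hne q)
  have hρ : ∀ q, q ∈ cl f (ρ q) := fun q => hwf.min_mem {q' | q ∈ cl f q'} (hne q)
  have hρmin : ∀ q q', q ∈ cl f q' → ¬ WellOrderingRel q' (ρ q) := fun q q' hq =>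
    hwf.not_lt_min {q' | q ∈ cl f q'} hq
  have hinj : ∀ q : Q, ∃ g : Q → ℕ, Set.InjOn g (cl f q) := fun q =>
    Set.countable_iff_exists_injOn.1 (cl_countable f hfin q)
  choose g hg using hinj
  let e : Q → Q × ℕ := fun q => (ρ q, g (ρ q) q)
  have he : Function.Injective e := by
    intro p q hpq
    have h1 : ρ p = ρ q := congrArg Prod.fst hpq
    have h2 : g (ρ p) p = g (ρ q) q := congrArg Prod.snd hpq
    rw [h1] at h2
    exact hg (ρ q) (h1 ▸ hρ p) (hρ q) h2
  let r : Q → Q → Prop := InvImage (Prod.Lex WellOrderingRel (· < ·)) e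
  have hr : ∀ p q, r p q ↔ WellOrderingRel (ρ p) (ρ q) ∨
      (ρ p = ρ q ∧ g (ρ p) p < g (ρ q) q) := by
    intro p q
    exact Prod.lex_def
  -- the finite set of predecessors in the same block
  have hblock : ∀ q, {p : Q | ρ p = ρ q ∧ g (ρ p) p < g (ρ q) q}.Finite := by
    intro q
    have : Set.InjOn (g (ρ q)) {p : Q | ρ p = ρ q ∧ g (ρ p) p < g (ρ q) q} := by
      intro a ha b hb hab
      rw [Set.mem_ofPred_eq] at ha hb
      exact hg (ρ q) (ha.1 ▸ hρ a) (hb.1 ▸ hρ b) hab
    refine Set.Finite.of_finite_image ((Set.finite_lt_nat (g (ρ q) q)).subset ?_) this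
    rintro _ ⟨a, ha, rfl⟩
    rw [Set.mem_ofPred_eq] at ha ⊢
    rw [← ha.1]
    rw [← ha.1] at ha
    exact ha.2
  have hfinL : ∀ q, {p : Q | (p ∈ f q ∨ (ρ p = ρ q ∧ g (ρ p) p < g (ρ q) q)) ∧ r p q ∧ p ≤ q}.Finite :=
    fun q => ((hfin q).union (hblock q)).subset fun p hp => (Set.mem_ofPred.1 hp).1
  have hfinU : ∀ q, {p : Q | (p ∈ f q ∨ (ρ p = ρ q ∧ g (ρ p) p < g (ρ q) q)) ∧ r p q ∧ q ≤ p}.Finite :=
    fun q => ((hfin q).union (hblock q)).subset fun p hp => (Set.mem_ofPred.1 hp).1
  refine ⟨r, fun q => (hfinL q).toFinset, fun q => (hfinU q).toFinset, ?_, ?_, ?_, ?_, ?_, ?_⟩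
  · exact InvImage.wf e (WellFounded.prod_lex hwf Nat.lt_wfRel.wf)
  · intro p q
    by_cases hpq : p = q
    · exact Or.inr (Or.inl hpq)
    · rcases trichotomous_of WellOrderingRel (ρ p) (ρ q) with h1 | h1 | h1
      · exact Or.inl ((hr p q).2 (Or.inl h1))
      · rcases lt_trichotomy (g (ρ p) p) (g (ρ q) q) with h2 | h2 | h2
        · exact Or.inl ((hr p q).2 (Or.inr ⟨h1, h2⟩))
        · exact absurd (he (Prod.ext h1 h2)) hpq
        · exact Or.inr (Or.inr ((hr q p).2 (Or.inr ⟨h1.symm, h2⟩)))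
      · exact Or.inr (Or.inr ((hr q p).2 (Or.inl h1)))
  · intro q l hl
    rw [Set.Finite.mem_toFinset, Set.mem_ofPred_eq] at hl
    exact hl.2
  · intro q l hl
    rw [Set.Finite.mem_toFinset, Set.mem_ofPred_eq] at hl
    exact hl.2
  · intro p q hpq hle
    rcases (hr p q).1 hpq with h1 | h1
    · obtain ⟨s, hs1, hs2, hs3, hs4⟩ := hf p q hle
      refine ⟨s, ?_, hs3⟩
      rw [Set.Finite.mem_toFinset, Set.mem_ofPred_eq]
      refine ⟨Or.inl hs2, (hr s q).2 (Or.inl ?_), hs4⟩
      have h2 : ¬ WellOrderingRel (ρ p) (ρ s) := hρmin s (ρ p) (cl_closed f (hρ p) hs1)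
      rcases trichotomous_of WellOrderingRel (ρ p) (ρ s) with h3 | h3 | h3
      · exact absurd h3 h2
      · rwa [← h3]
      · exact _root_.trans h3 h1
    · refine ⟨p, ?_, le_rfl⟩
      rw [Set.Finite.mem_toFinset, Set.mem_ofPred_eq]
      exact ⟨Or.inr h1, hpq, hle⟩
  · intro p q hpq hle
    rcases (hr p q).1 hpq with h1 | h1
    · obtain ⟨s, hs1, hs2, hs3, hs4⟩ := hf q p hle
      refine ⟨s, ?_, hs4⟩
      rw [Set.Finite.mem_toFinset, Set.mem_ofPred_eq]
      refine ⟨Or.inl hs1, (hr s q).2 (Or.inl ?_), hs3⟩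
      have h2 : ¬ WellOrderingRel (ρ p) (ρ s) := hρmin s (ρ p) (cl_closed f (hρ p) hs2)
      rcases trichotomous_of WellOrderingRel (ρ p) (ρ s) with h3 | h3 | h3
      · exact absurd h3 h2
      · rwa [← h3]
      · exact _root_.trans h3 h1
    · refine ⟨p, ?_, le_rfl⟩
      rw [Set.Finite.mem_toFinset, Set.mem_ofPred_eq]
      exact ⟨Or.inr h1, hpq, hle⟩

section folds

variable {M : Type v} [Lattice M]

theorem foldr_sup_le {x c : M} {l : List M} :
    l.foldr (fun a b => a ⊔ b) x ≤ c ↔ x ≤ c ∧ ∀ a ∈ l, a ≤ c := by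
  induction l with
  | nil => simp
  | cons a l ih =>
    simp only [List.foldr_cons, sup_le_iff, ih, List.mem_cons, forall_eq_or_imp]
    tauto

theorem le_foldr_inf {x c : M} {l : List M} :
    c ≤ l.foldr (fun a b => a ⊓ b) x ↔ c ≤ x ∧ ∀ a ∈ l, c ≤ a := by
  induction l with
  | nil => simp
  | cons a l ih =>
    simp only [List.foldr_cons, le_inf_iff, ih, List.mem_cons, forall_eq_or_imp]
    tauto

end folds

/-- A one-point built poset maps to every lattice with an arbitrary assignment of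
generators, in such a way that the order is preserved and 0-1 homomorphisms given by
up-sets are respected. -/
theorem exists_map {Q : Type u} [PartialOrder Q] {r : Q → Q → Prop} {L U : Q → Finset Q}
    (H : FinCuts r L U) {M : Type v} [Lattice M] (ι : Q → M) :
    ∃ φ : Q → M, (∀ p q, p ≤ q → φ p ≤ φ q) ∧
      ∀ (h : LatticeHom M Prop) (W : Set Q), (∀ p ∈ W, ∀ q, p ≤ q → q ∈ W) →
        (∀ q, h (ι q) = (q ∈ W)) → ∀ q, h (φ q) = (q ∈ W) := by
  classical
  let F : (q : Q) → ((p : Q) → r p q → M) → M := fun q ih =>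
    ((L q).toList.attach.map fun l =>
        ih l.1 (H.L_lt q l.1 (Finset.mem_toList.1 l.2)).1).foldr (fun a b => a ⊔ b)
      (((U q).toList.attach.map fun l =>
        ih l.1 (H.U_lt q l.1 (Finset.mem_toList.1 l.2)).1).foldr (fun a b => a ⊓ b) (ι q))
  let φ : Q → M := H.wf.fix F
  have hφ : ∀ q, φ q = ((L q).toList.map φ).foldr (fun a b => a ⊔ b)
      (((U q).toList.map φ).foldr (fun a b => a ⊓ b) (ι q)) := by
    intro q
    have h1 : φ q = F q (fun p _ => φ p) := H.wf.fix_eq F q
    rw [h1]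
    simp only [F]
    rw [List.attach_map_val, List.attach_map_val]
  have hLφ : ∀ q, ∀ l ∈ L q, φ l ≤ φ q := by
    intro q l hl
    rw [hφ q]
    exact (foldr_sup_le.1 le_rfl).2 _ (List.mem_map.2 ⟨l, Finset.mem_toList.2 hl, rfl⟩)
  have hle : ∀ q c, φ q ≤ c ↔ (((U q).toList.map φ).foldr (fun a b => a ⊓ b) (ι q)) ≤ c ∧
      ∀ l ∈ L q, φ l ≤ c := by
    intro q c
    rw [hφ q, foldr_sup_le]
    simp
  -- monotonicity
  have hmono : ∀ z, (∀ y, r y z → (y ≤ z → φ y ≤ φ z) ∧ (z ≤ y → φ z ≤ φ y)) := by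
    intro z
    induction z using H.wf.induction with
    | _ z ih =>
      have ih' : ∀ a b, r a z → r b z → a ≤ b → φ a ≤ φ b := by
        intro a b ha hb hab
        rcases H.tri a b with h1 | h1 | h1
        · exact (ih b hb a h1).1 hab
        · rw [h1]
        · exact (ih a ha b h1).2 hab
      intro y hy
      constructor
      · intro hyz
        obtain ⟨l, hl, hyl⟩ := H.L_cof y z hy hyz
        exact (ih' y l hy (H.L_lt z l hl).1 hyl).trans (hLφ z l hl)
      · intro hzy
        obtain ⟨x, hx, hxy⟩ := H.U_cof y z hy hzy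
        have hxz := H.U_lt z x hx
        refine le_trans ?_ (ih' x y hxz.1 hy hxy)
        rw [hle]
        refine ⟨?_, ?_⟩
        · exact (le_foldr_inf.1 le_rfl).2 _ (List.mem_map.2 ⟨x, Finset.mem_toList.2 hx, rfl⟩)
        · intro l hl
          have hlz := H.L_lt z l hl
          exact ih' l x hlz.1 hxz.1 (hlz.2.trans hxz.2)
  refine ⟨φ, ?_, ?_⟩
  · intro p q hpq
    rcases H.tri p q with h1 | h1 | h1
    · exact (hmono q p h1).1 hpq
    · rw [h1]
    · exact (hmono p q h1).2 hpq
  · intro h W hW hι q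
    induction q using H.wf.induction with
    | _ q ih =>
      have key1 : ∀ l : List M, ∀ x : M, h (l.foldr (fun a b => a ⊔ b) x) =
          (h x ∨ ∃ a ∈ l, h a) := by
        intro l x
        induction l with
        | nil => simp
        | cons a l ihl =>
          rw [List.foldr_cons, map_sup, ihl]
          change (h a ∨ (h x ∨ ∃ a ∈ l, h a)) = _
          simp only [List.mem_cons, exists_eq_or_imp, eq_iff_iff]
          tauto
      have key2 : ∀ l : List M, ∀ x : M, h (l.foldr (fun a b => a ⊓ b) x) =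
          (h x ∧ ∀ a ∈ l, h a) := by
        intro l x
        induction l with
        | nil => simp
        | cons a l ihl =>
          rw [List.foldr_cons, map_inf, ihl]
          change (h a ∧ (h x ∧ ∀ a ∈ l, h a)) = _
          simp only [List.mem_cons, forall_eq_or_imp, eq_iff_iff]
          tauto
      rw [hφ q, key1, key2]
      have hL : ∀ l ∈ L q, h (φ l) = (l ∈ W) := fun l hl => ih l (H.L_lt q l hl).1
      have hU : ∀ l ∈ U q, h (φ l) = (l ∈ W) := fun l hl => ih l (H.U_lt q l hl).1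
      rw [eq_iff_iff]
      constructor
      · rintro (⟨h1, h2⟩ | ⟨a, ha, h1⟩)
        · rw [hι] at h1
          exact h1
        · obtain ⟨l, hl, rfl⟩ := List.mem_map.1 ha
          rw [Finset.mem_toList] at hl
          rw [hL l hl] at h1
          exact hW l h1 q (H.L_lt q l hl).2
      · intro hq
        refine Or.inl ⟨?_, ?_⟩
        · rw [hι]
          exact hq
        · intro a ha
          obtain ⟨l, hl, rfl⟩ := List.mem_map.1 ha
          rw [Finset.mem_toList] at hl
          rw [hU l hl]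
          exact hW q hq l (H.U_lt q l hl).2

end Pool.Agent.Helper29.FreeLat
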