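import Mathlib

/-!
Free lattices.  `FLat X` is the set of lattice terms over `X` modulo the least lattice
preorder.  We prove its universal property, Whitman's solution of the word problem, and the
Freese-Nation property.
-/

universe u v w

namespace Pool.Agent.Helper29.FreeLat

/-- Lattice terms over the set `X`. -/
inductive LTerm (X : Type u) : Type u
  | var : X → LTerm X
  | sup : LTerm X → LTerm X → LTerm X
  | inf : LTerm X → LTerm X → LTerm X

/-- The least lattice preorder on terms. -/
inductive Le {X : Type u} : LTerm X → LTerm X → Prop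
  | refl (a : LTerm X) : Le a a
  | trans {a b c : LTerm X} : Le a b → Le b c → Le a c
  | le_sup_left (a b : LTerm X) : Le a (.sup a b)
  | le_sup_right (a b : LTerm X) : Le b (.sup a b)
  | sup_le {a b c : LTerm X} : Le a c → Le b c → Le (.sup a b) c
  | inf_le_left (a b : LTerm X) : Le (.inf a b) a
  | inf_le_right (a b : LTerm X) : Le (.inf a b) b
  | le_inf {a b c : LTerm X} : Le a b → Le a c → Le a (.inf b c)

/-- Whitman's (cut-free) rules. -/
inductive Wh {X : Type u} : LTerm X → LTerm X → Prop
  | var (x : X) : Wh (.var x) (.var x)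
  | sup_le {a b c : LTerm X} : Wh a c → Wh b c → Wh (.sup a b) c
  | le_inf {a b c : LTerm X} : Wh a b → Wh a c → Wh a (.inf b c)
  | inf_left {a b c : LTerm X} : Wh a c → Wh (.inf a b) c
  | inf_right {a b c : LTerm X} : Wh b c → Wh (.inf a b) c
  | sup_left {a b c : LTerm X} : Wh a b → Wh a (.sup b c)
  | sup_right {a b c : LTerm X} : Wh a c → Wh a (.sup b c)

variable {X : Type u}

theorem Wh.refl (a : LTerm X) : Wh a a := by
  induction a with
  | var x => exact .var x
  | sup a b iha ihb => exact .sup_le (.sup_left iha) (.sup_right ihb)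
  | inf a b iha ihb => exact .le_inf (.inf_left iha) (.inf_right ihb)

theorem Wh.inv_sup {a b c : LTerm X} (h : Wh (.sup a b) c) : Wh a c ∧ Wh b c := by
  generalize hs : LTerm.sup a b = s at h
  induction h with
  | var x => cases hs
  | sup_le h1 h2 _ _ => cases hs; exact ⟨h1, h2⟩
  | le_inf h1 h2 ih1 ih2 => exact ⟨.le_inf (ih1 hs).1 (ih2 hs).1, .le_inf (ih1 hs).2 (ih2 hs).2⟩
  | inf_left h ih => cases hs
  | inf_right h ih => cases hs
  | sup_left h ih => exact ⟨.sup_left (ih hs).1, .sup_left (ih hs).2⟩
  | sup_right h ih => exact ⟨.sup_right (ih hs).1, .sup_right (ih hs).2⟩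

theorem Wh.inv_inf {a b c : LTerm X} (h : Wh a (.inf b c)) : Wh a b ∧ Wh a c := by
  generalize hs : LTerm.inf b c = s at h
  induction h with
  | var x => cases hs
  | sup_le h1 h2 ih1 ih2 => exact ⟨.sup_le (ih1 hs).1 (ih2 hs).1, .sup_le (ih1 hs).2 (ih2 hs).2⟩
  | le_inf h1 h2 ih1 ih2 => cases hs; exact ⟨h1, h2⟩
  | inf_left h ih => exact ⟨.inf_left (ih hs).1, .inf_left (ih hs).2⟩
  | inf_right h ih => exact ⟨.inf_right (ih hs).1, .inf_right (ih hs).2⟩
  | sup_left h ih => cases hs
  | sup_right h ih => cases hs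

theorem Wh.trans {b : LTerm X} : ∀ {a c : LTerm X}, Wh a b → Wh b c → Wh a c := by
  induction b with
  | var x =>
    intro a c h
    generalize hs : LTerm.var x = s at h
    induction h with
    | var y => cases hs; exact id
    | sup_le h1 h2 ih1 ih2 => exact fun hc => .sup_le (ih1 hs hc) (ih2 hs hc)
    | le_inf h1 h2 ih1 ih2 => cases hs
    | inf_left h ih => exact fun hc => .inf_left (ih hs hc)
    | inf_right h ih => exact fun hc => .inf_right (ih hs hc)
    | sup_left h ih => cases hs
    | sup_right h ih => cases hs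
  | sup b1 b2 ihb1 ihb2 =>
    intro a c h
    generalize hs : LTerm.sup b1 b2 = s at h
    induction h with
    | var y => cases hs
    | sup_le h1 h2 ih1 ih2 => exact fun hc => .sup_le (ih1 hs hc) (ih2 hs hc)
    | le_inf h1 h2 ih1 ih2 => cases hs
    | inf_left h ih => exact fun hc => .inf_left (ih hs hc)
    | inf_right h ih => exact fun hc => .inf_right (ih hs hc)
    | sup_left h ih => cases hs; exact fun hc => ihb1 h hc.inv_sup.1
    | sup_right h ih => cases hs; exact fun hc => ihb2 h hc.inv_sup.2
  | inf b1 b2 ihb1 ihb2 =>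
    intro a c h hc
    have h1 := h.inv_inf
    generalize hs : LTerm.inf b1 b2 = s at hc
    induction hc with
    | var y => cases hs
    | sup_le h1 h2 ih1 ih2 => cases hs
    | le_inf h1 h2 ih1 ih2 => exact .le_inf (ih1 hs) (ih2 hs)
    | inf_left h' ih => cases hs; exact ihb1 h1.1 h'
    | inf_right h' ih => cases hs; exact ihb2 h1.2 h'
    | sup_left h' ih => exact .sup_left (ih hs)
    | sup_right h' ih => exact .sup_right (ih hs)

theorem Le.wh {a b : LTerm X} (h : Le a b) : Wh a b := by
  induction h with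
  | refl a => exact .refl a
  | trans _ _ ih1 ih2 => exact ih1.trans ih2
  | le_sup_left a b => exact .sup_left (.refl a)
  | le_sup_right a b => exact .sup_right (.refl b)
  | sup_le _ _ ih1 ih2 => exact .sup_le ih1 ih2
  | inf_le_left a b => exact .inf_left (.refl a)
  | inf_le_right a b => exact .inf_right (.refl b)
  | le_inf _ _ ih1 ih2 => exact .le_inf ih1 ih2

/-- Two terms are equivalent if each is below the other. -/
def setoid (X : Type u) : Setoid (LTerm X) where
  r a b := Le a b ∧ Le b a
  iseqv :=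
    { refl := fun a => ⟨.refl a, .refl a⟩
      symm := fun h => ⟨h.2, h.1⟩
      trans := fun h1 h2 => ⟨h1.1.trans h2.1, h2.2.trans h1.2⟩ }

/-- The free lattice on `X`. -/
def FLat (X : Type u) : Type u := Quotient (setoid X)

namespace FLat

/-- The class of a term. -/
def mk (a : LTerm X) : FLat X := Quotient.mk (setoid X) a

/-- The free generators. -/
def of (x : X) : FLat X := mk (.var x)

theorem mk_surjective : Function.Surjective (mk : LTerm X → FLat X) := Quotient.exists_rep

instance : Lattice (FLat X) where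
  le := Quotient.lift₂ Le (by
    intro a b c d h1 h2
    exact propext ⟨fun h => (h1.2.trans h).trans h2.1, fun h => (h1.1.trans h).trans h2.2⟩)
  le_refl := by
    intro a
    obtain ⟨a, rfl⟩ := mk_surjective a
    exact Le.refl a
  le_trans := by
    intro a b c
    obtain ⟨a, rfl⟩ := mk_surjective a
    obtain ⟨b, rfl⟩ := mk_surjective b
    obtain ⟨c, rfl⟩ := mk_surjective c
    exact fun h1 h2 => Le.trans h1 h2
  le_antisymm := by
    intro a b
    obtain ⟨a, rfl⟩ := mk_surjective a
    obtain ⟨b, rfl⟩ := mk_surjective b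
    exact fun h1 h2 => Quotient.sound ⟨h1, h2⟩
  sup := Quotient.map₂ LTerm.sup (by
    intro a b h c d h'
    exact ⟨.sup_le (h.1.trans (.le_sup_left _ _)) (h'.1.trans (.le_sup_right _ _)),
      .sup_le (h.2.trans (.le_sup_left _ _)) (h'.2.trans (.le_sup_right _ _))⟩)
  inf := Quotient.map₂ LTerm.inf (by
    intro a b h c d h'
    exact ⟨.le_inf ((Le.inf_le_left _ _).trans h.1) ((Le.inf_le_right _ _).trans h'.1),
      .le_inf ((Le.inf_le_left _ _).trans h.2) ((Le.inf_le_right _ _).trans h'.2)⟩)
  le_sup_left := by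
    intro a b
    obtain ⟨a, rfl⟩ := mk_surjective a
    obtain ⟨b, rfl⟩ := mk_surjective b
    exact Le.le_sup_left a b
  le_sup_right := by
    intro a b
    obtain ⟨a, rfl⟩ := mk_surjective a
    obtain ⟨b, rfl⟩ := mk_surjective b
    exact Le.le_sup_right a b
  sup_le := by
    intro a b c
    obtain ⟨a, rfl⟩ := mk_surjective a
    obtain ⟨b, rfl⟩ := mk_surjective b
    obtain ⟨c, rfl⟩ := mk_surjective c
    exact fun h1 h2 => Le.sup_le h1 h2
  inf_le_left := by
    intro a b
    obtain ⟨a, rfl⟩ := mk_surjective a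
    obtain ⟨b, rfl⟩ := mk_surjective b
    exact Le.inf_le_left a b
  inf_le_right := by
    intro a b
    obtain ⟨a, rfl⟩ := mk_surjective a
    obtain ⟨b, rfl⟩ := mk_surjective b
    exact Le.inf_le_right a b
  le_inf := by
    intro a b c
    obtain ⟨a, rfl⟩ := mk_surjective a
    obtain ⟨b, rfl⟩ := mk_surjective b
    obtain ⟨c, rfl⟩ := mk_surjective c
    exact fun h1 h2 => Le.le_inf h1 h2

theorem mk_le_mk {a b : LTerm X} : mk a ≤ mk b ↔ Le a b := Iff.rfl

theorem mk_sup (a b : LTerm X) : mk (.sup a b) = mk a ⊔ mk b := rfl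

theorem mk_inf (a b : LTerm X) : mk (.inf a b) = mk a ⊓ mk b := rfl

/-- Evaluation of terms in a lattice. -/
def eval {M : Type v} [Lattice M] (f : X → M) : LTerm X → M
  | .var x => f x
  | .sup a b => eval f a ⊔ eval f b
  | .inf a b => eval f a ⊓ eval f b

theorem eval_mono {M : Type v} [Lattice M] (f : X → M) {a b : LTerm X} (h : Le a b) :
    eval f a ≤ eval f b := by
  induction h with
  | refl a => exact le_rfl
  | trans _ _ ih1 ih2 => exact ih1.trans ih2
  | le_sup_left a b => exact _root_.le_sup_left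
  | le_sup_right a b => exact _root_.le_sup_right
  | sup_le _ _ ih1 ih2 => exact _root_.sup_le ih1 ih2
  | inf_le_left a b => exact _root_.inf_le_left
  | inf_le_right a b => exact _root_.inf_le_right
  | le_inf _ _ ih1 ih2 => exact _root_.le_inf ih1 ih2

/-- The homomorphism from the free lattice given by its universal property. -/
def lift {M : Type v} [Lattice M] (f : X → M) : LatticeHom (FLat X) M where
  toFun := Quotient.lift (eval f) (by
    intro a b h
    exact le_antisymm (eval_mono f h.1) (eval_mono f h.2))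
  map_sup' := by
    intro a b
    obtain ⟨a, rfl⟩ := mk_surjective a
    obtain ⟨b, rfl⟩ := mk_surjective b
    rfl
  map_inf' := by
    intro a b
    obtain ⟨a, rfl⟩ := mk_surjective a
    obtain ⟨b, rfl⟩ := mk_surjective b
    rfl

theorem lift_of {M : Type v} [Lattice M] (f : X → M) (x : X) : lift f (of x) = f x := rfl

theorem hom_ext {M : Type v} [Lattice M] {g h : LatticeHom (FLat X) M}
    (H : ∀ x, g (of x) = h (of x)) : g = h := by
  ext a
  obtain ⟨a, rfl⟩ := mk_surjective a
  induction a with
  | var x => exact H x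
  | sup a b iha ihb => rw [mk_sup, map_sup, map_sup, iha, ihb]
  | inf a b iha ihb => rw [mk_inf, map_inf, map_inf, iha, ihb]

/-- The universal property of the free lattice. -/
theorem universal {M : Type v} [Lattice M] (f : X → M) :
    ∃! g : LatticeHom (FLat X) M, ∀ x, g (of x) = f x :=
  ⟨lift f, lift_of f, fun g hg => hom_ext fun x => by rw [hg x, lift_of]⟩

/-- Lower approximants of a term. -/
def lowSet : LTerm X → Set (FLat X)
  | .var x => {of x}
  | .sup a b => supClosure (lowSet a ∪ lowSet b)
  | .inf a b => supClosure (Set.image2 (· ⊓ ·) (lowSet a) (lowSet b))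

/-- Upper approximants of a term. -/
def upSet : LTerm X → Set (FLat X)
  | .var x => {of x}
  | .sup a b => infClosure (Set.image2 (· ⊔ ·) (upSet a) (upSet b))
  | .inf a b => infClosure (upSet a ∪ upSet b)

theorem lowSet_finite (a : LTerm X) : (lowSet a).Finite := by
  induction a with
  | var x => exact Set.finite_singleton _
  | sup a b iha ihb => exact (iha.union ihb).supClosure
  | inf a b iha ihb => exact (iha.image2 _ ihb).supClosure

theorem upSet_finite (a : LTerm X) : (upSet a).Finite := by
  induction a with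
  | var x => exact Set.finite_singleton _
  | sup a b iha ihb => exact (iha.image2 _ ihb).infClosure
  | inf a b iha ihb => exact (iha.union ihb).infClosure

theorem lowSet_supClosed (a : LTerm X) : SupClosed (lowSet a) := by
  cases a with
  | var x => exact supClosed_singleton
  | sup a b => exact supClosed_supClosure
  | inf a b => exact supClosed_supClosure

theorem upSet_infClosed (a : LTerm X) : InfClosed (upSet a) := by
  cases a with
  | var x => exact infClosed_singleton
  | sup a b => exact infClosed_infClosure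
  | inf a b => exact infClosed_infClosure

theorem lowSet_le (a : LTerm X) : ∀ c ∈ lowSet a, c ≤ mk a := by
  induction a with
  | var x => rintro _ rfl; exact le_rfl
  | sup a b iha ihb =>
    have h : lowSet (.sup a b) ⊆ {c | c ≤ mk a ⊔ mk b} := by
      refine supClosure_min ?_ ?_
      · rintro c (hc | hc)
        · exact Set.mem_ofPred.2 ((iha c hc).trans _root_.le_sup_left)
        · exact Set.mem_ofPred.2 ((ihb c hc).trans _root_.le_sup_right)
      · intro c hc d hd
        exact Set.mem_ofPred.2 (_root_.sup_le (Set.mem_ofPred.1 hc) (Set.mem_ofPred.1 hd))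
    exact fun c hc => Set.mem_ofPred.1 (h hc)
  | inf a b iha ihb =>
    have h : lowSet (.inf a b) ⊆ {c | c ≤ mk a ⊓ mk b} := by
      refine supClosure_min ?_ ?_
      · rintro _ ⟨c, hc, d, hd, rfl⟩
        exact Set.mem_ofPred.2 (inf_le_inf (iha c hc) (ihb d hd))
      · intro c hc d hd
        exact Set.mem_ofPred.2 (_root_.sup_le (Set.mem_ofPred.1 hc) (Set.mem_ofPred.1 hd))
    exact fun c hc => Set.mem_ofPred.1 (h hc)

theorem le_upSet (a : LTerm X) : ∀ c ∈ upSet a, mk a ≤ c := by
  induction a with
  | var x => rintro _ rfl; exact le_rfl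
  | sup a b iha ihb =>
    have h : upSet (.sup a b) ⊆ {c | mk a ⊔ mk b ≤ c} := by
      refine infClosure_min ?_ ?_
      · rintro _ ⟨c, hc, d, hd, rfl⟩
        exact Set.mem_ofPred.2 (sup_le_sup (iha c hc) (ihb d hd))
      · intro c hc d hd
        exact Set.mem_ofPred.2 (_root_.le_inf (Set.mem_ofPred.1 hc) (Set.mem_ofPred.1 hd))
    exact fun c hc => Set.mem_ofPred.1 (h hc)
  | inf a b iha ihb =>
    have h : upSet (.inf a b) ⊆ {c | mk a ⊓ mk b ≤ c} := by
      refine infClosure_min ?_ ?_
      · rintro c (hc | hc)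
        · exact Set.mem_ofPred.2 (_root_.inf_le_left.trans (iha c hc))
        · exact Set.mem_ofPred.2 (_root_.inf_le_right.trans (ihb c hc))
      · intro c hc d hd
        exact Set.mem_ofPred.2 (_root_.le_inf (Set.mem_ofPred.1 hc) (Set.mem_ofPred.1 hd))
    exact fun c hc => Set.mem_ofPred.1 (h hc)

/-- Finite interpolation in the free lattice. -/
theorem interpolate {a b : LTerm X} (h : Wh a b) : (upSet a ∩ lowSet b).Nonempty := by
  induction h with
  | var x => exact ⟨of x, rfl, rfl⟩
  | @sup_le a b c _ _ ih1 ih2 =>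
    obtain ⟨r, hr1, hr2⟩ := ih1
    obtain ⟨s, hs1, hs2⟩ := ih2
    exact ⟨r ⊔ s, subset_infClosure ⟨r, hr1, s, hs1, rfl⟩, lowSet_supClosed c hr2 hs2⟩
  | @le_inf a b c _ _ ih1 ih2 =>
    obtain ⟨r, hr1, hr2⟩ := ih1
    obtain ⟨s, hs1, hs2⟩ := ih2
    exact ⟨r ⊓ s, upSet_infClosed a hr1 hs1, subset_supClosure ⟨r, hr2, s, hs2, rfl⟩⟩
  | inf_left _ ih =>
    obtain ⟨r, hr1, hr2⟩ := ih
    exact ⟨r, subset_infClosure (Or.inl hr1), hr2⟩
  | inf_right _ ih =>
    obtain ⟨r, hr1, hr2⟩ := ih
    exact ⟨r, subset_infClosure (Or.inr hr1), hr2⟩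
  | sup_left _ ih =>
    obtain ⟨r, hr1, hr2⟩ := ih
    exact ⟨r, hr1, subset_supClosure (Or.inl hr2)⟩
  | sup_right _ ih =>
    obtain ⟨r, hr1, hr2⟩ := ih
    exact ⟨r, hr1, subset_supClosure (Or.inr hr2)⟩

end FLat

end Pool.Agent.Helper29.FreeLat
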