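import Mathlib

/-!
Definitions for the order embeddings of posets into free lattices: free objects by their
universal properties, order embeddings into them, and cut systems.
-/

universe u

namespace Pool.Agent.Helper29.FreeLat

/-- The map `ι : X → L` makes the lattice `L` a free lattice on `X`: every map from `X` to a
lattice `M` extends along `ι` to exactly one lattice homomorphism from `L` to `M`. -/
def IsFreeLattice {X L : Type u} [Lattice L] (ι : X → L) : Prop :=
  ∀ (M : Type u) [Lattice M] (f : X → M), ∃! g : LatticeHom L M, ∀ x, g (ι x) = f x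

/-- The same for distributive lattices. -/
def IsFreeDistribLattice {X L : Type u} [DistribLattice L] (ι : X → L) : Prop :=
  ∀ (M : Type u) [DistribLattice M] (f : X → M), ∃! g : LatticeHom L M, ∀ x, g (ι x) = f x

/-- The same for Boolean algebras. -/
def IsFreeBooleanAlgebra {X B : Type u} [BooleanAlgebra B] (ι : X → B) : Prop :=
  ∀ (M : Type u) [BooleanAlgebra M] (f : X → M),
    ∃! g : BoundedLatticeHom B M, ∀ x, g (ι x) = f x

/-- `P` has an order embedding into a free lattice. -/
def EmbedsInFreeLattice (P : Type u) [PartialOrder P] : Prop :=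
  ∃ (X L : Type u) (_ : Lattice L) (ι : X → L), IsFreeLattice ι ∧ Nonempty (P ↪o L)

/-- `P` has an order embedding into a free distributive lattice. -/
def EmbedsInFreeDistribLattice (P : Type u) [PartialOrder P] : Prop :=
  ∃ (X L : Type u) (_ : DistribLattice L) (ι : X → L),
    IsFreeDistribLattice ι ∧ Nonempty (P ↪o L)

/-- `P` has an order embedding into a free Boolean algebra. -/
def EmbedsInFreeBooleanAlgebra (P : Type u) [PartialOrder P] : Prop :=
  ∃ (X B : Type u) (_ : BooleanAlgebra B) (ι : X → B),
    IsFreeBooleanAlgebra ι ∧ Nonempty (P ↪o B)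

/-- A cut of `P` is a pair `(D, E)` of subsets of `P` such that every element of `D` is below
every element of `E`. -/
def IsCut {P : Type u} [PartialOrder P] (c : Set P × Set P) : Prop :=
  ∀ x ∈ c.1, ∀ y ∈ c.2, x ≤ y

/-- To every `p` in `P` one can assign a finite set `W p` of cuts such that for every finite
chain `C` with least element `a` and greatest element `b` some cut `(D, E)` belongs to `W p` for
all `p` in `C` and satisfies `a ∈ D` and `b ∈ E`. -/
def HasCutSystem (P : Type u) [PartialOrder P] : Prop :=
  ∃ W : P → Set (Set P × Set P), (∀ p, (W p).Finite) ∧ (∀ p, ∀ c ∈ W p, IsCut c) ∧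
    ∀ (C : Set P) (a b : P), C.Finite → IsChain (· ≤ ·) C → IsLeast C a → IsGreatest C b →
      ∃ c : Set P × Set P, (∀ p ∈ C, c ∈ W p) ∧ a ∈ c.1 ∧ b ∈ c.2

/-- To every `p` in `P` one can assign a finite set `W p` of cuts such that for all `a ≤ b` some
cut `(D, E)` belongs to both `W a` and `W b` and satisfies `a ∈ D` and `b ∈ E`. -/
def HasPairCutSystem (P : Type u) [PartialOrder P] : Prop :=
  ∃ W : P → Set (Set P × Set P), (∀ p, (W p).Finite) ∧ (∀ p, ∀ c ∈ W p, IsCut c) ∧
    ∀ a b : P, a ≤ b → ∃ c : Set P × Set P, c ∈ W a ∧ c ∈ W b ∧ a ∈ c.1 ∧ b ∈ c.2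

end Pool.Agent.Helper29.FreeLat
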