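import Pool.Agent.Helper29.FNEmbed

/-!
An abstract recursion producing order preserving maps into lattices.
-/

universe u v w

namespace Pool.Agent.Helper29.FreeLat

/-- Data for the recursion.  `lt` is a total well-founded relation, `arr` a transitive
antisymmetric relation, `tw` assigns to each object other than the base object `b` an earlier
twin, and `B` a finite set of earlier objects; each earlier object outside `B σ` is related
to `σ` only if it is related to the twin. -/
structure TwinData {O : Type u} (lt arr E : O → O → Prop) (b : O) (tw : O → O)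
    (B : O → Finset O) : Prop where
  wf : WellFounded lt
  tri : ∀ x y, lt x y ∨ x = y ∨ lt y x
  trans : ∀ x y z, arr x y → arr y z → arr x z
  antisymm : ∀ x y, arr x y → arr y x → x = y
  arr_b : ∀ x, ¬ arr x b
  b_arr : ∀ x, ¬ arr b x
  E_b : ∀ x, E x b
  tw_lt : ∀ x, x ≠ b → lt (tw x) x
  B_lt : ∀ x, ∀ y ∈ B x, lt y x
  old_arr : ∀ x y, x ≠ b → lt y x → y ∉ B x → arr y x → arr y (tw x)
  arr_old : ∀ x y, x ≠ b → lt y x → y ∉ B x → arr x y → arr (tw x) y
  tw_irr : ∀ x, x ≠ b → ¬ arr (tw x) (tw x)
  arr_E : ∀ x y, arr x y → E x y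
  E_arr : ∀ x y z, E x y → arr y z → arr x z
  E_tw : ∀ x y, y ≠ b → E x y → E x (tw y)
  arr_tw : ∀ x y, y ≠ b → arr x (tw y) → arr x y

theorem forall_mem_aux {O : Type u} {M : Type v} {B : Finset O} {p : O → Prop}
    [DecidablePred p] {g : O → M} {R : M → Prop} :
    (∀ a ∈ (B.toList.attach.filter (fun m => decide (p m.1))).map (fun m => g m.1), R a) ↔
      ∀ m ∈ B, p m → R (g m) := by
  simp only [List.mem_map, List.mem_filter, List.mem_attach, true_and,
    decide_eq_true_eq, Subtype.exists, Finset.mem_toList]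
  constructor
  · intro h1 m hm h2
    exact h1 _ ⟨m, hm, h2, rfl⟩
  · rintro h1 _ ⟨m, hm, h2, rfl⟩
    exact h1 m hm h2

theorem exists_mem_aux {O : Type u} {M : Type v} {B : Finset O} {p : O → Prop}
    [DecidablePred p] {g : O → M} {R : M → Prop} :
    (∃ a ∈ (B.toList.attach.filter (fun m => decide (p m.1))).map (fun m => g m.1), R a) ↔
      ∃ m ∈ B, p m ∧ R (g m) := by
  simp only [List.mem_map, List.mem_filter, List.mem_attach, true_and,
    decide_eq_true_eq, Subtype.exists, Finset.mem_toList]
  constructor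
  · rintro ⟨_, ⟨m, hm, h1, rfl⟩, h2⟩
    exact ⟨m, hm, h1, h2⟩
  · rintro ⟨m, hm, h1, h2⟩
    exact ⟨_, ⟨m, hm, h1, rfl⟩, h2⟩

theorem TwinData.exists_map {O : Type u} {lt arr E : O → O → Prop} {b : O} {tw : O → O}
    {B : O → Finset O} (H : TwinData lt arr E b tw B) {M : Type v} [Lattice M]
    (x x' : O → M) (lo hi : M) (hlh : lo ≤ hi) :
    ∃ φ : O → M, (∀ y z, arr y z → φ y ≤ φ z) ∧
      ∀ (h : LatticeHom M Prop) (o : O), ¬ h lo → h hi → (∀ y, h (x y) = arr o y) →
        (∀ y, h (x' y) = E o y) → ∀ y, h (φ y) = arr o y := by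
  classical
  let F : (q : O) → ((p : O) → lt p q → M × M) → M × M := fun q ih =>
    if hq : q = b then (lo, hi) else
      let t : M × M := ih (tw q) (H.tw_lt q hq)
      let ups : List M := ((B q).toList.attach.filter (fun m => arr m.1 q)).map
        fun m => (ih m.1 (H.B_lt q m.1 (Finset.mem_toList.1 m.2))).2
      let downs : List M := ((B q).toList.attach.filter (fun m => arr q m.1)).map
        fun m => (ih m.1 (H.B_lt q m.1 (Finset.mem_toList.1 m.2))).1
      let minus : M := downs.foldr (fun a b => a ⊓ b)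
        (ups.foldr (fun a b => a ⊔ b) (t.1 ⊔ (t.2 ⊓ x q)))
      (minus, minus ⊔ downs.foldr (fun a b => a ⊓ b) (t.1 ⊔ (t.2 ⊓ x' q)))
  let Φ : O → M × M := H.wf.fix F
  have hΦ : ∀ q, Φ q = F q (fun p _ => Φ p) := fun q => H.wf.fix_eq F q
  -- basic descriptions
  have hb : Φ b = (lo, hi) := by
    rw [hΦ b]
    simp only [F, dif_pos]
  have le1 : ∀ q, q ≠ b → ∀ c, c ≤ (Φ q).1 ↔
      c ≤ ((((B q).toList.attach.filter (fun m => arr m.1 q)).map
        fun m => (Φ m.1).2).foldr (fun a b => a ⊔ b) ((Φ (tw q)).1 ⊔ ((Φ (tw q)).2 ⊓ x q))) ∧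
      ∀ m ∈ B q, arr q m → c ≤ (Φ m).1 := by
    intro q hq c
    rw [hΦ q]
    simp only [F, dif_neg hq, le_foldr_inf]
    exact and_congr Iff.rfl (forall_mem_aux (p := fun m => arr q m) (g := fun m => (Φ m).1)
      (R := fun a => c ≤ a))
  have le2 : ∀ q, q ≠ b → ∀ c, (((((B q).toList.attach.filter (fun m => arr m.1 q)).map
        fun m => (Φ m.1).2).foldr (fun a b => a ⊔ b)
          ((Φ (tw q)).1 ⊔ ((Φ (tw q)).2 ⊓ x q)))) ≤ c ↔
      ((Φ (tw q)).1 ⊔ ((Φ (tw q)).2 ⊓ x q)) ≤ c ∧ ∀ m ∈ B q, arr m q → (Φ m).2 ≤ c := by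
    intro q hq c
    rw [foldr_sup_le]
    exact and_congr Iff.rfl (forall_mem_aux (p := fun m => arr m q) (g := fun m => (Φ m).2)
      (R := fun a => a ≤ c))
  have eq2 : ∀ q, q ≠ b → (Φ q).2 = (Φ q).1 ⊔
      ((((B q).toList.attach.filter (fun m => arr q m.1)).map
        fun m => (Φ m.1).1).foldr (fun a b => a ⊓ b)
          ((Φ (tw q)).1 ⊔ ((Φ (tw q)).2 ⊓ x' q))) := by
    intro q hq
    rw [hΦ q]
    simp only [F, dif_neg hq]
  have le3 : ∀ q c, c ≤ ((((B q).toList.attach.filter (fun m => arr q m.1)).map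
        fun m => (Φ m.1).1).foldr (fun a b => a ⊓ b)
          ((Φ (tw q)).1 ⊔ ((Φ (tw q)).2 ⊓ x' q))) ↔
      c ≤ ((Φ (tw q)).1 ⊔ ((Φ (tw q)).2 ⊓ x' q)) ∧ ∀ m ∈ B q, arr q m → c ≤ (Φ m).1 := by
    intro q c
    rw [le_foldr_inf]
    exact and_congr Iff.rfl (forall_mem_aux (p := fun m => arr q m) (g := fun m => (Φ m).1)
      (R := fun a => c ≤ a))
  have hpm : ∀ q, (Φ q).1 ≤ (Φ q).2 := by
    intro q
    by_cases hq : q = b
    · rw [hq, hb]
      exact hlh
    · rw [eq2 q hq]
      exact le_sup_left
  -- upper bounds for both components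
  have hdown : ∀ q, q ≠ b → ∀ m ∈ B q, arr q m → (Φ q).2 ≤ (Φ m).1 := by
    intro q hq m hm hqm
    rw [eq2 q hq]
    exact sup_le (((le1 q hq _).1 le_rfl).2 m hm hqm) (((le3 q _).1 le_rfl).2 m hm hqm)
  have hbound : ∀ q, q ≠ b → ∀ c, (Φ (tw q)).2 ≤ c → (∀ m ∈ B q, arr m q → (Φ m).2 ≤ c) →
      (Φ q).2 ≤ c := by
    intro q hq c hc1 hc2
    rw [eq2 q hq]
    refine sup_le ?_ ?_
    · refine (((le1 q hq _).1 le_rfl).1).trans ((le2 q hq c).2 ⟨?_, hc2⟩)
      exact sup_le ((hpm _).trans hc1) (inf_le_left.trans hc1)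
    · refine (((le3 q _).1 le_rfl).1).trans ?_
      exact sup_le ((hpm _).trans hc1) (inf_le_left.trans hc1)
  -- monotonicity
  have hmono : ∀ z, ∀ y, lt y z → (arr y z → (Φ y).2 ≤ (Φ z).1) ∧
      (arr z y → (Φ z).2 ≤ (Φ y).1) := by
    intro z
    induction z using H.wf.induction with
    | _ z ih =>
      have ih' : ∀ a c, lt a z → lt c z → a ≠ c → arr a c → (Φ a).2 ≤ (Φ c).1 := by
        intro a c ha hc hne hac
        rcases H.tri a c with h1 | h1 | h1
        · exact (ih c hc a h1).1 hac
        · exact absurd h1 hne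
        · exact (ih a ha c h1).2 hac
      intro y hy
      constructor
      · intro hyz
        have hz : z ≠ b := fun h => H.arr_b y (h ▸ hyz)
        have hd : ∀ m ∈ B z, arr z m → (Φ y).2 ≤ (Φ m).1 := by
          intro m hm hzm
          have hne : y ≠ m := by
            intro h
            have h2 : y = z := H.antisymm y z hyz (h ▸ hzm)
            exact (H.wf.irrefl.irrefl z) (h2 ▸ hy)
          exact ih' y m hy (H.B_lt z m hm) hne (H.trans y z m hyz hzm)
        rw [le1 z hz]
        refine ⟨?_, hd⟩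
        by_cases hyB : y ∈ B z
        · exact ((le2 z hz _).1 le_rfl).2 y hyB hyz
        · have h1 : arr y (tw z) := H.old_arr z y hz hy hyB hyz
          have hne : y ≠ tw z := by
            intro h
            rw [h] at h1
            exact H.tw_irr z hz h1
          refine (ih' y (tw z) hy (H.tw_lt z hz) hne h1).trans ?_
          exact le_sup_left.trans ((le2 z hz _).1 le_rfl).1
      · intro hzy
        have hz : z ≠ b := fun h => H.b_arr y (h ▸ hzy)
        by_cases hyB : y ∈ B z
        · exact hdown z hz y hyB hzy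
        · have h1 : arr (tw z) y := H.arr_old z y hz hy hyB hzy
          have hne : tw z ≠ y := by
            intro h
            rw [← h] at h1
            exact H.tw_irr z hz h1
          refine hbound z hz _ (ih' (tw z) y (H.tw_lt z hz) hy hne h1) ?_
          intro m hm hmz
          have hne' : m ≠ y := by
            intro h
            have h2 : m = z := H.antisymm m z hmz (h ▸ hzy)
            have h3 := H.B_lt z m hm
            rw [h2] at h3
            exact (H.wf.irrefl.irrefl z) h3
          exact ih' m y (H.B_lt z m hm) hy hne' (H.trans m z y hmz hzy)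
  refine ⟨fun q => (Φ q).1, ?_, ?_⟩
  · intro y z hyz
    rcases H.tri y z with h1 | h1 | h1
    · exact (hpm y).trans ((hmono z y h1).1 hyz)
    · rw [h1]
    · exact (hpm y).trans ((hmono y z h1).2 hyz)
  · intro h o hlo hhi hx hx'
    have key1 : ∀ l : List M, ∀ c : M, h (l.foldr (fun a b => a ⊔ b) c) =
        (h c ∨ ∃ a ∈ l, h a) := by
      intro l c
      induction l with
      | nil => simp
      | cons a l ihl =>
        rw [List.foldr_cons, map_sup, ihl]
        change (h a ∨ (h c ∨ ∃ a ∈ l, h a)) = _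
        simp only [List.mem_cons, exists_eq_or_imp, eq_iff_iff]
        tauto
    have key2 : ∀ l : List M, ∀ c : M, h (l.foldr (fun a b => a ⊓ b) c) =
        (h c ∧ ∀ a ∈ l, h a) := by
      intro l c
      induction l with
      | nil => simp
      | cons a l ihl =>
        rw [List.foldr_cons, map_inf, ihl]
        change (h a ∧ (h c ∧ ∀ a ∈ l, h a)) = _
        simp only [List.mem_cons, forall_eq_or_imp, eq_iff_iff]
        tauto
    have main : ∀ q, (h (Φ q).1 ↔ arr o q) ∧ (h (Φ q).2 ↔ E o q) := by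
      intro q
      induction q using H.wf.induction with
      | _ q ih =>
        by_cases hq : q = b
        · rw [hq, hb]
          exact ⟨⟨fun h1 => absurd h1 hlo, fun h1 => absurd h1 (H.arr_b o)⟩,
            ⟨fun _ => H.E_b o, fun _ => hhi⟩⟩
        · have iht := ih (tw q) (H.tw_lt q hq)
          have ihB : ∀ m ∈ B q, (h (Φ m).1 ↔ arr o m) ∧ (h (Φ m).2 ↔ E o m) :=
            fun m hm => ih m (H.B_lt q m hm)
          have e1 : h (Φ q).1 ↔ (((h (Φ (tw q)).1 ∨ (h (Φ (tw q)).2 ∧ h (x q))) ∨
              ∃ m ∈ B q, arr m q ∧ h (Φ m).2) ∧ ∀ m ∈ B q, arr q m → h (Φ m).1) := by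
            rw [hΦ q]
            simp only [F, dif_neg hq, key1, key2]
            rw [map_sup, map_inf]
            change ((((h (Φ (tw q)).1 ∨ (h (Φ (tw q)).2 ∧ h (x q))) ∨ _) ∧ _) ↔ _)
            refine and_congr (or_congr Iff.rfl ?_) ?_
            · simp only [List.mem_map, List.mem_filter, List.mem_attach, true_and,
                decide_eq_true_eq, Subtype.exists, Finset.mem_toList]
              constructor
              · rintro ⟨_, ⟨m, hm, h1, rfl⟩, h2⟩
                exact ⟨m, hm, h1, h2⟩
              · rintro ⟨m, hm, h1, h2⟩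
                exact ⟨_, ⟨m, hm, h1, rfl⟩, h2⟩
            · simp only [List.mem_map, List.mem_filter, List.mem_attach, true_and,
                decide_eq_true_eq, Subtype.exists, Finset.mem_toList]
              constructor
              · intro h1 m hm h2
                exact h1 _ ⟨m, hm, h2, rfl⟩
              · rintro h1 _ ⟨m, hm, h2, rfl⟩
                exact h1 m hm h2
          have e2 : h (Φ q).2 ↔ (h (Φ q).1 ∨ ((h (Φ (tw q)).1 ∨ (h (Φ (tw q)).2 ∧ h (x' q))) ∧
              ∀ m ∈ B q, arr q m → h (Φ m).1)) := by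
            rw [eq2 q hq, map_sup, key2]
            change (h (Φ q).1 ∨ _) ↔ _
            refine or_congr Iff.rfl ?_
            rw [map_sup, map_inf]
            change (((h (Φ (tw q)).1 ∨ (h (Φ (tw q)).2 ∧ h (x' q))) ∧ _) ↔ _)
            refine and_congr Iff.rfl ?_
            simp only [List.mem_map, List.mem_filter, List.mem_attach, true_and,
              decide_eq_true_eq, Subtype.exists, Finset.mem_toList]
            constructor
            · intro h1 m hm h2
              exact h1 _ ⟨m, hm, h2, rfl⟩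
            · rintro h1 _ ⟨m, hm, h2, rfl⟩
              exact h1 m hm h2
          have f1 : h (Φ q).1 ↔ arr o q := by
            rw [e1, iht.1, iht.2, hx q]
            constructor
            · rintro ⟨(h1 | ⟨_, h1⟩) | ⟨m, hm, h1, h2⟩, _⟩
              · exact H.arr_tw o q hq h1
              · exact h1
              · exact H.E_arr o m q ((ihB m hm).2.1 h2) h1
            · intro h1
              refine ⟨Or.inl (Or.inr ⟨H.E_tw o q hq (H.arr_E o q h1), h1⟩), ?_⟩
              intro m hm h2
              exact (ihB m hm).1.2 (H.trans o q m h1 h2)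
          refine ⟨f1, ?_⟩
          rw [e2, f1, iht.1, iht.2, hx' q]
          constructor
          · rintro (h1 | ⟨h1 | ⟨_, h1⟩, _⟩)
            · exact H.arr_E o q h1
            · exact H.arr_E o q (H.arr_tw o q hq h1)
            · exact h1
          · intro h1
            refine Or.inr ⟨Or.inr ⟨H.E_tw o q hq h1, h1⟩, ?_⟩
            intro m hm h2
            exact (ihB m hm).1.2 (H.E_arr o q m h1 h2)
    intro y
    exact propext (main y).1

end Pool.Agent.Helper29.FreeLat
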